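import Pool.Agent.PDF.Defs

/-!
# PDF, row AS: Artin and Schreier: an element of a formally real field that is non-negative at
every ordering is a sum of squares
-/

set_option autoImplicit false

namespace Pool.Agent.PDF

namespace ASaux

variable {k : Type} [Field k]

/-- adjoining `-x` to a preordering -/
def adj (P : RingPreordering k) (x : k) (hx : x ∉ P) : RingPreordering k :=
  RingPreordering.mk' {y | ∃ s ∈ P, ∃ t ∈ P, y = s - x * t}
    (by
      rintro y z ⟨s, hs, t, ht, rfl⟩ ⟨s', hs', t', ht', rfl⟩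
      exact ⟨s + s', add_mem hs hs', t + t', add_mem ht ht', by ring⟩)
    (by
      rintro y z ⟨s, hs, t, ht, rfl⟩ ⟨s', hs', t', ht', rfl⟩
      refine ⟨s * s' + x ^ 2 * (t * t'), add_mem (mul_mem hs hs')
        (mul_mem (P.pow_two_mem x) (mul_mem ht ht')), s * t' + t * s',
        add_mem (mul_mem hs ht') (mul_mem ht hs'), by ring⟩)
    (by
      intro y
      exact ⟨y * y, P.mul_self_mem y, 0, zero_mem P, by ring⟩)
    (by
      rintro ⟨s, hs, t, ht, h⟩
      by_cases h0 : t = 0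
      · subst h0
        apply P.neg_one_notMem
        rw [h]
        simpa using hs
      · apply hx
        have h1 : x = (1 + s) * t * (t⁻¹) ^ 2 := by
          field_simp
          linear_combination h
        rw [h1]
        exact mul_mem (mul_mem (add_mem (one_mem P) hs) ht) (P.pow_two_mem _))

theorem le_adj (P : RingPreordering k) (x : k) (hx : x ∉ P) : P ≤ adj P x hx := by
  intro y hy
  exact ⟨y, hy, 0, zero_mem P, by ring⟩

theorem neg_mem_adj (P : RingPreordering k) (x : k) (hx : x ∉ P) : -x ∈ adj P x hx :=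
  ⟨0, zero_mem P, 1, one_mem P, by ring⟩

/-- a chain of preorderings has an upper bound -/
theorem chain_bdd (c : Set (RingPreordering k)) (hc : IsChain (· ≤ ·) c)
    (P₀ : RingPreordering k) (h0 : P₀ ∈ c) : ∃ ub, ∀ z ∈ c, z ≤ ub := by
  refine ⟨RingPreordering.mk' {y | ∃ P ∈ c, y ∈ P} ?_ ?_ ?_ ?_, ?_⟩
  · rintro x y ⟨P, hP, hx⟩ ⟨Q, hQ, hy⟩
    rcases hc.total hP hQ with h | h
    · exact ⟨Q, hQ, add_mem (h hx) hy⟩
    · exact ⟨P, hP, add_mem hx (h hy)⟩
  · rintro x y ⟨P, hP, hx⟩ ⟨Q, hQ, hy⟩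
    rcases hc.total hP hQ with h | h
    · exact ⟨Q, hQ, mul_mem (h hx) hy⟩
    · exact ⟨P, hP, mul_mem hx (h hy)⟩
  · intro x
    exact ⟨P₀, h0, P₀.mul_self_mem x⟩
  · rintro ⟨P, hP, h⟩
    exact P.neg_one_notMem h
  · intro z hz y hy
    exact ⟨z, hz, hy⟩

theorem sum_of_isSumSq {s : k} (hs : IsSumSq s) : ∃ (n : ℕ) (x : Fin n → k),
    s = ∑ i, x i ^ 2 := by
  induction hs with
  | zero => exact ⟨0, fun i => i.elim0, by simp⟩
  | sq_add a _ ih =>
    obtain ⟨n, x, rfl⟩ := ih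
    refine ⟨n + 1, Fin.cons a x, ?_⟩
    rw [Fin.sum_univ_succ]
    simp [pow_two]

theorem neg_one_not (hk : FR k) : ¬ IsSumSq (-1 : k) := by
  intro h
  obtain ⟨n, x, hx⟩ := sum_of_isSumSq h
  have h1 := hk (n + 1) (Fin.cons 1 x) (by
    rw [Fin.sum_univ_succ]
    simp only [Fin.cons_zero, Fin.cons_succ]
    rw [← hx]
    ring)
  have h2 := congrFun h1 0
  simp at h2

/-- the preordering of the sums of squares -/
def base (hk : FR k) : RingPreordering k :=
  RingPreordering.mk' {y : k | IsSumSq y} (fun h1 h2 => h1.add h2) (fun h1 h2 => h1.mul h2)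
    (fun x => IsSumSq.mul_self x) (neg_one_not hk)

/-- the order of a maximal preordering -/
theorem exists_order (P : RingPreordering k) (hP : ∀ x, x ∈ P ∨ -x ∈ P) :
    ∃ (_ : LinearOrder k) (_ : IsStrictOrderedRing k), ∀ x : k, 0 ≤ x ↔ x ∈ P := by
  classical
  let Cn : RingCone k :=
    { P.toSubsemiring with
      eq_zero_of_mem_of_neg_mem' := fun {a} h1 h2 =>
        RingPreordering.eq_zero_of_mem_of_neg_mem (P := P) h1 h2 }
  have hC : ∀ x, x ∈ Cn ↔ x ∈ P := fun x => Iff.rfl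
  have : HasMemOrNegMem Cn := ⟨fun x => hP x⟩
  let LO : LinearOrder k := LinearOrder.mkOfAddGroupCone Cn
  have h1 : IsOrderedRing k := IsOrderedRing.mkOfCone Cn
  have h2 : IsStrictOrderedRing k := IsOrderedRing.toIsStrictOrderedRing k
  refine ⟨LO, h2, fun x => ?_⟩
  have : (0 : k) ≤ x ↔ x - 0 ∈ Cn := Iff.rfl
  rw [this, sub_zero]
  exact hC x

end ASaux

open ASaux in
theorem AS {k : Type} [Field k] (hk : FR k) (a : k)
    (h : ∀ [LinearOrder k] [IsStrictOrderedRing k], 0 ≤ a) : IsSumSq a := by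
  by_contra ha
  have ha0 : a ∉ base hk := ha
  obtain ⟨P, hPa, hmax⟩ := zorn_le_nonempty_Ici₀ (adj (base hk) a ha0)
    (fun c hc1 hc2 y hy => chain_bdd c hc2 y hy) (adj (base hk) a ha0) le_rfl
  have hP : ∀ x, x ∈ P ∨ -x ∈ P := by
    intro x
    by_cases hx : x ∈ P
    · exact Or.inl hx
    · right
      exact hmax (le_adj P x hx) (neg_mem_adj P x hx)
  obtain ⟨LO, SO, hO⟩ := exists_order P hP
  have h1 : a ∈ P := (hO a).1 (@h LO SO)
  have h2 : -a ∈ P := hPa (neg_mem_adj _ a ha0)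
  have h3 : a = 0 := RingPreordering.eq_zero_of_mem_of_neg_mem h1 h2
  exact ha (h3 ▸ IsSumSq.zero)

end Pool.Agent.PDF
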