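import Pool.Agent.PDF.Defs

set_option autoImplicit false

namespace Pool.Agent.PDF.Rows

open Polynomial Pool.Agent.PDF

/-! ## AP: approximation of the sign function -/

namespace APaux

theorem pq_add {A : Type} [CommRing A] (z r η : A) (hη : η ^ 2 = -r) (J : ℕ) :
    (pq z r J).1 + η * (pq z r J).2 = (z + η) ^ J := by
  induction J with
  | zero => simp [pq]
  | succ j ih =>
    rw [pow_succ, ← ih]
    simp only [pq]
    have h : η * η = -r := by rw [← sq]; exact hη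
    linear_combination (-(pq z r j).2) * h

theorem pq_sub {A : Type} [CommRing A] (z r η : A) (hη : η ^ 2 = -r) (J : ℕ) :
    (pq z r J).1 - η * (pq z r J).2 = (z - η) ^ J := by
  have h := pq_add z r (-η) (by rw [neg_sq]; exact hη) J
  rw [sub_eq_add_neg, sub_eq_add_neg, ← h]
  ring

theorem key (z r η : ℂ) (hη : η ^ 2 = -r) (hη0 : η ≠ 0) (J : ℕ) (θ : ℝ)
    (hz : z + η ≠ 0) (hθ : ‖z - η‖ ≤ θ * ‖z + η‖) (hJ : θ ^ J ≤ 1 / 2) (hθ0 : 0 ≤ θ) :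
    (pq z r J).2 ≠ 0 ∧ ‖(pq z r J).1 / (pq z r J).2 - η‖ ≤ 4 * ‖η‖ * θ ^ J := by
  have h1 := pq_add z r η hη J
  have h2 := pq_sub z r η hη J
  set p := (pq z r J).1 with hp
  set q := (pq z r J).2 with hq
  have hpos : 0 < ‖z + η‖ := norm_pos_iff.mpr hz
  have hposJ : 0 < ‖z + η‖ ^ J := pow_pos hpos J
  have hb : ‖(z - η) ^ J‖ ≤ θ ^ J * ‖z + η‖ ^ J := by
    rw [norm_pow, ← mul_pow]
    exact pow_le_pow_left₀ (norm_nonneg _) hθ J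
  have h3 : 2 * η * q = (z + η) ^ J - (z - η) ^ J := by
    rw [← h1, ← h2]; ring
  have h4 : ‖z + η‖ ^ J / 2 ≤ ‖2 * η * q‖ := by
    rw [h3]
    have h5 : ‖(z + η) ^ J‖ - ‖(z - η) ^ J‖ ≤ ‖(z + η) ^ J - (z - η) ^ J‖ := norm_sub_norm_le _ _
    have h6 : θ ^ J * ‖z + η‖ ^ J ≤ 1 / 2 * ‖z + η‖ ^ J :=
      mul_le_mul_of_nonneg_right hJ hposJ.le
    rw [norm_pow] at h5
    linarith
  have hq0 : q ≠ 0 := by
    intro h0
    rw [h0, mul_zero, norm_zero] at h4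
    linarith
  refine ⟨hq0, ?_⟩
  have h7 : p / q - η = (z - η) ^ J / q := by
    rw [← h2]; field_simp
  rw [h7, norm_div, div_le_iff₀ (norm_pos_iff.mpr hq0)]
  have h8 : ‖2 * η * q‖ = 2 * ‖η‖ * ‖q‖ := by
    rw [norm_mul, norm_mul]; simp
  rw [h8] at h4
  have hθJ : 0 ≤ θ ^ J := pow_nonneg hθ0 J
  calc ‖(z - η) ^ J‖ ≤ θ ^ J * ‖z + η‖ ^ J := hb
    _ ≤ θ ^ J * (4 * ‖η‖ * ‖q‖) := by
        apply mul_le_mul_of_nonneg_left _ hθJ
        linarith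
    _ = 4 * ‖η‖ * θ ^ J * ‖q‖ := by ring

theorem normsq_diff (u : ℂ) (ρ : ℝ) :
    ‖u + Complex.I * ρ‖ ^ 2 - ‖u - Complex.I * ρ‖ ^ 2 = 4 * ρ * u.im := by
  rw [Complex.sq_norm, Complex.sq_norm, Complex.normSq_apply, Complex.normSq_apply]
  simp
  ring

end APaux

theorem AP (δ R C ε : ℝ) (hδ : 0 < δ) (hε : 0 < ε) :
    ∃ J : ℕ, ∀ (ρ : ℝ) (u : ℂ), 1 ≤ ρ → ρ ≤ C → ‖u‖ ≤ R →
      (δ ≤ u.im → (pq u ((ρ : ℂ) ^ 2) J).2 ≠ 0 ∧
        ‖(pq u ((ρ : ℂ) ^ 2) J).1 / (pq u ((ρ : ℂ) ^ 2) J).2 - Complex.I * ρ‖ ≤ ε) ∧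
      (u.im ≤ -δ → (pq u ((ρ : ℂ) ^ 2) J).2 ≠ 0 ∧
        ‖(pq u ((ρ : ℂ) ^ 2) J).1 / (pq u ((ρ : ℂ) ^ 2) J).2 + Complex.I * ρ‖ ≤ ε) := by
  set M : ℝ := |R| + |C| + 1 with hM
  have hM0 : 0 < M := by positivity
  set c : ℝ := min (4 * δ / M ^ 2) (1 / 2) with hc
  have hc0 : 0 < c := lt_min (by positivity) (by norm_num)
  have hc1 : c ≤ 1 / 2 := min_le_right _ _
  have hc2 : c * M ^ 2 ≤ 4 * δ := by
    have : c ≤ 4 * δ / M ^ 2 := min_le_left _ _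
    rwa [le_div_iff₀ (by positivity)] at this
  set θ : ℝ := Real.sqrt (1 - c) with hθ
  have hθ0 : 0 ≤ θ := Real.sqrt_nonneg _
  have hθsq : θ ^ 2 = 1 - c := Real.sq_sqrt (by linarith)
  have hθ1 : θ < 1 := by
    nlinarith
  obtain ⟨J, hJ⟩ := exists_pow_lt_of_lt_one (show (0 : ℝ) < min (1 / 2) (ε / (4 * (|C| + 1))) by
    apply lt_min (by norm_num); positivity) hθ1
  have hJ1 : θ ^ J ≤ 1 / 2 := (hJ.trans_le (min_le_left _ _)).le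
  have hJ2 : 4 * (|C| + 1) * θ ^ J ≤ ε := by
    have := (hJ.trans_le (min_le_right _ _)).le
    rw [le_div_iff₀ (by positivity)] at this
    linarith
  have hmain : ∀ (η : ℂ) (ρ : ℝ) (u : ℂ), 1 ≤ ρ → ρ ≤ C → ‖u‖ ≤ R → ‖η‖ = ρ →
      η ^ 2 = -((ρ : ℂ) ^ 2) → 4 * δ ≤ ‖u + η‖ ^ 2 - ‖u - η‖ ^ 2 →
      (pq u ((ρ : ℂ) ^ 2) J).2 ≠ 0 ∧
        ‖(pq u ((ρ : ℂ) ^ 2) J).1 / (pq u ((ρ : ℂ) ^ 2) J).2 - η‖ ≤ ε := by
    intro η ρ u h1 h2 h3 h4 h5 h6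
    have hη0 : η ≠ 0 := by
      intro h; rw [h, norm_zero] at h4; linarith
    have hz : u + η ≠ 0 := by
      intro h; rw [h, norm_zero] at h6
      have := sq_nonneg ‖u - η‖
      linarith
    have hn : ‖u + η‖ ≤ M := by
      have := norm_add_le u η
      have h7 := le_abs_self R
      have h8 := le_abs_self C
      linarith
    have hn2 : ‖u + η‖ ^ 2 ≤ M ^ 2 := pow_le_pow_left₀ (norm_nonneg _) hn 2
    have h9 : ‖u - η‖ ≤ θ * ‖u + η‖ := by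
      apply le_of_sq_le_sq _ (by positivity)
      rw [mul_pow, hθsq]
      have : c * ‖u + η‖ ^ 2 ≤ 4 * δ := le_trans (mul_le_mul_of_nonneg_left hn2 hc0.le) hc2
      linarith
    obtain ⟨ha, hb⟩ := APaux.key u ((ρ : ℂ) ^ 2) η h5 hη0 J θ hz h9 hJ1 hθ0
    refine ⟨ha, hb.trans ?_⟩
    rw [h4]
    refine le_trans ?_ hJ2
    apply mul_le_mul_of_nonneg_right _ (pow_nonneg hθ0 J)
    have := le_abs_self C
    linarith
  refine ⟨J, fun ρ u h1 h2 h3 => ⟨fun h => ?_, fun h => ?_⟩⟩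
  · apply hmain (Complex.I * ρ) ρ u h1 h2 h3
    · rw [norm_mul, Complex.norm_I, one_mul, Complex.norm_real, Real.norm_eq_abs, abs_of_pos (by linarith)]
    · rw [mul_pow, Complex.I_sq]; ring
    · rw [APaux.normsq_diff]
      nlinarith
  · have := hmain (-(Complex.I * ρ)) ρ u h1 h2 h3 ?_ ?_ ?_
    · rwa [sub_neg_eq_add] at this
    · rw [norm_neg, norm_mul, Complex.norm_I, one_mul, Complex.norm_real, Real.norm_eq_abs, abs_of_pos (by linarith)]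
    · rw [neg_sq, mul_pow, Complex.I_sq]; ring
    · rw [← sub_eq_add_neg, sub_neg_eq_add]
      have := APaux.normsq_diff u ρ
      nlinarith

end Pool.Agent.PDF.Rows
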