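import Mathlib

/-!
# Positive definite forms and Pfister's bound: basic definitions (MP_b906c2_al)
-/

set_option autoImplicit false

namespace Pool.Agent.PDF

open Polynomial

section forms

variable {ι K : Type} [Fintype ι] [Field K]

/-- `a` is a value of the diagonal quadratic form with coefficients `w`. -/
def Rep (w : ι → K) (a : K) : Prop := ∃ x : ι → K, ∑ i, w i * x i ^ 2 = a

/-- The diagonal form with coefficients `w` is anisotropic. -/
def Aniso (w : ι → K) : Prop := ∀ x : ι → K, ∑ i, w i * x i ^ 2 = 0 → x = 0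

/-- The values of the form are closed under multiplication. -/
def MulC (w : ι → K) : Prop := ∀ a b, Rep w a → Rep w b → Rep w (a * b)

/-- The form with coefficients `w` is isotropic over `K[X]/(q)` (`q` irreducible). -/
def IsoMod (w : ι → K) (q : K[X]) : Prop :=
  ∃ v : ι → K[X], (∃ i, ¬ q ∣ v i) ∧ q ∣ ∑ i, C (w i) * v i ^ 2

end forms

/-- `a` is a sum of `n` squares. -/
def SS {K : Type} [Field K] (n : ℕ) (a : K) : Prop := ∃ x : Fin n → K, a = ∑ i, x i ^ 2

/-- formally real field -/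
def FR (K : Type) [Field K] : Prop := ∀ (n : ℕ) (x : Fin n → K), ∑ i, x i ^ 2 = 0 → x = 0

/-- value set (with `0`) of the Pfister form with slots `l` -/
def D {K : Type} [Field K] : List K → Set K
  | [] => {c | ∃ x, c = x ^ 2}
  | a :: l => {c | ∃ s ∈ D l, ∃ t ∈ D l, c = s + a * t}

/-- index type of the `2 ^ n` basis vectors -/
def Ix : ℕ → Type
  | 0 => Unit
  | n + 1 => Ix n ⊕ Ix n

instance instFintypeIx : (n : ℕ) → Fintype (Ix n)
  | 0 => inferInstanceAs (Fintype Unit)
  | n + 1 => @instFintypeSum (Ix n) (Ix n) (instFintypeIx n) (instFintypeIx n)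

/-- coefficients of the Pfister form with slots `l` -/
def wt {K : Type} [Field K] : (l : List K) → Ix l.length → K
  | [] => fun _ => 1
  | a :: l => Sum.elim (wt l) (fun i => a * wt l i)

/-- the field `ℝ(X₁,…,X_n)` -/
abbrev kk (n : ℕ) : Type := FractionRing (MvPolynomial (Fin n) ℝ)

/-- the vector `(1, X₁, …, X_n)` over `ℝ(X₁,…,X_n)` -/
noncomputable def vv (n : ℕ) : Fin (n + 1) → kk n :=
  Fin.cons 1 (fun i => algebraMap (MvPolynomial (Fin n) ℝ) (kk n) (MvPolynomial.X i))

/-- `1 + X₁² + ⋯ + X_n²` -/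
noncomputable def rr (n : ℕ) : kk n := ∑ i, vv n i ^ 2

/-- the polynomial `f (Y, 1, X₁, …, X_n)` in the variable `Y` over `ℝ(X₁,…,X_n)` -/
noncomputable def Fk (n : ℕ) (f : MvPolynomial (Fin (n + 2)) ℝ) : (kk n)[X] :=
  ((MvPolynomial.finSuccEquiv ℝ (n + 1)) f).map (MvPolynomial.aeval (vv n)).toRingHom

/-- positive definite form of degree `2 m`, monic in the first variable -/
structure PD (n m : ℕ) (f : MvPolynomial (Fin (n + 2)) ℝ) : Prop where
  hom : f.IsHomogeneous (2 * m)
  pos : ∀ v : Fin (n + 2) → ℝ, v ≠ 0 → 0 < MvPolynomial.eval v f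
  monic : MvPolynomial.eval (Fin.cons 1 0) f = 1

/-- `(p_j, q_j)` with `p_j + η q_j = (z + η)^j` for `η² = - r` -/
def pq {A : Type} [CommRing A] (z r : A) : ℕ → A × A
  | 0 => (1, 0)
  | j + 1 => (z * (pq z r j).1 - r * (pq z r j).2, (pq z r j).1 + z * (pq z r j).2)

section kappa

variable {Ω : Type} [Field Ω]

/-- `½ (∑_{ζ ∈ S} Ψ(ζ) - ∑_{ζ ∈ R - S} Ψ(ζ))` for `S ≤ R` -/
noncomputable def kap (R : Multiset Ω) (Ψ : Ω → Ω) (S : Multiset Ω) : Ω :=
  (S.map Ψ).sum - (R.map Ψ).sum / 2

open Classical in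
/-- the set of sub-multisets with `m` elements -/
noncomputable def sub (R : Multiset Ω) (m : ℕ) : Finset (Multiset Ω) :=
  (R.powersetCard m).toFinset

open Classical in
/-- the set of the squares `kap S ^ 2` -/
noncomputable def ww (R : Multiset Ω) (m : ℕ) (Ψ : Ω → Ω) : Finset Ω :=
  (sub R m).image (fun S => kap R Ψ S ^ 2)

end kappa

end Pool.Agent.PDF
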