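import Pool.Agent.PDF.Defs

/-!
# Row HA: Lagrange interpolation and Galois descent (MP_b906c2_al)
-/

set_option autoImplicit false

namespace Pool.Agent.PDF

open Polynomial

namespace HAaux

variable {E : Type} [Field E]

/-- product of the linear factors -/
noncomputable def gg (S : Multiset E) : E[X] := (S.map (fun z => X - C z)).prod

theorem gg_map (σ : E →+* E) (S : Multiset E) : (gg S).map σ = gg (S.map σ) := by
  simp [gg, Polynomial.map_multiset_prod, Multiset.map_map]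

omit [Field E] in
theorem mem_sub {R : Multiset E} {m : ℕ} {S : Multiset E} :
    S ∈ sub R m ↔ S ≤ R ∧ S.card = m := by
  classical
  simp [sub, Multiset.mem_powersetCard]

variable (R : Multiset E) (Ψ : E → E)

open Classical in
/-- symmetric part -/
noncomputable def aa (S : Multiset E) : E[X] := C (1 / 2) * (gg S + gg (R - S))

open Classical in
/-- antisymmetric part -/
noncomputable def bb (S : Multiset E) : E[X] :=
  C ((2 * kap R Ψ S)⁻¹) * (gg S - gg (R - S))

variable {R Ψ}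

open Classical in
theorem kap_sub [CharZero E] {S : Multiset E} (h : S ≤ R) : kap R Ψ (R - S) = - kap R Ψ S := by
  have h1 : (R.map Ψ).sum = (S.map Ψ).sum + ((R - S).map Ψ).sum := by
    rw [← Multiset.sum_add, ← Multiset.map_add, add_tsub_cancel_of_le h]
  unfold kap
  rw [h1]
  ring

open Classical in
theorem aa_sub {S : Multiset E} (h : S ≤ R) : aa R (R - S) = aa R S := by
  unfold aa
  rw [tsub_tsub_cancel_of_le h, add_comm]

open Classical in
theorem bb_sub [CharZero E] {S : Multiset E} (h : S ≤ R) : bb R Ψ (R - S) = bb R Ψ S := by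
  unfold bb
  rw [tsub_tsub_cancel_of_le h, kap_sub h]
  have : (2 * - kap R Ψ S)⁻¹ = - (2 * kap R Ψ S)⁻¹ := by
    rw [mul_neg, inv_neg]
  rw [this, C_neg]
  ring

open Classical in
theorem sub_sub {m : ℕ} (hc : R.card = 2 * m) {S : Multiset E} (h : S ∈ sub R m) :
    R - S ∈ sub R m := by
  rw [mem_sub] at h ⊢
  refine ⟨Multiset.sub_le_self _ _, ?_⟩
  rw [Multiset.card_sub h.1, hc, h.2]
  omega

open Classical in
theorem eq_of_sq [CharZero E] {m : ℕ} (hc : R.card = 2 * m)
    (hinj : ∀ S ∈ sub R m, ∀ T ∈ sub R m, kap R Ψ S = kap R Ψ T → S = T)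
    {S T : Multiset E} (hS : S ∈ sub R m) (hT : T ∈ sub R m)
    (h : kap R Ψ S ^ 2 = kap R Ψ T ^ 2) : S = T ∨ S = R - T := by
  rcases sq_eq_sq_iff_eq_or_eq_neg.1 h with h | h
  · exact Or.inl (hinj S hS T hT h)
  · right
    rw [← kap_sub (mem_sub.1 hT).1] at h
    exact hinj S hS _ (sub_sub hc hT) h

open Classical in
/-- the factorisation -/
theorem aa_bb [CharZero E] {m : ℕ} (hc : R.card = 2 * m)
    (hinj : ∀ S ∈ sub R m, ∀ T ∈ sub R m, kap R Ψ S = kap R Ψ T → S = T)
    {S : Multiset E} (hS : S ∈ sub R m) :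
    gg R - aa R S ^ 2 + C (kap R Ψ S ^ 2) * bb R Ψ S ^ 2 = 0 := by
  have h1 : gg R = gg S * gg (R - S) := by
    unfold gg
    rw [← Multiset.prod_add, ← Multiset.map_add, add_tsub_cancel_of_le (mem_sub.1 hS).1]
  have h2 : (C (1 / 2 : E)) * 2 = 1 := by
    rw [← C_ofNat, ← C_mul]
    simp
  by_cases hk : kap R Ψ S = 0
  · have h3 : S = R - S := by
      apply hinj S hS _ (sub_sub hc hS)
      rw [kap_sub (mem_sub.1 hS).1, hk, neg_zero]
    rw [h1, aa, ← h3, hk]
    simp only [ne_eq, OfNat.ofNat_ne_zero, not_false_eq_true, zero_pow, map_zero, zero_mul,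
      add_zero]
    linear_combination (-(C (1 / 2 : E)) * 2 - 1) * gg S ^ 2 * h2
  · have h3 : C (kap R Ψ S ^ 2) * bb R Ψ S ^ 2
        = (C (1 / 2 : E)) ^ 2 * (gg S - gg (R - S)) ^ 2 := by
      unfold bb
      rw [mul_pow, ← mul_assoc, ← C_pow, ← C_mul, ← C_pow]
      congr 2
      field_simp
    rw [h1, h3, aa]
    linear_combination (-(C (1 / 2 : E)) * 2 - 1) * gg S * gg (R - S) * h2

section galois

variable {k : Type} [Field k] [Algebra k E]

theorem kap_map (σ : E ≃ₐ[k] E) (hR : R.map σ = R) (hΨ : ∀ z : E, Ψ (σ z) = σ (Ψ z))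
    (S : Multiset E) : kap R Ψ (S.map σ) = σ (kap R Ψ S) := by
  have h1 : ∀ S : Multiset E, ((S.map σ).map Ψ).sum = σ (S.map Ψ).sum := by
    intro S
    rw [map_multiset_sum, Multiset.map_map, Multiset.map_map]
    congr 1
    exact Multiset.map_congr rfl (fun z _ => hΨ z)
  unfold kap
  rw [map_sub, map_div₀, ← h1 S, ← h1 R, hR, map_ofNat]

theorem map_sub' [DecidableEq E] (σ : E ≃ₐ[k] E) {S : Multiset E} (h : S ≤ R) :
    (R - S).map σ = R.map σ - S.map σ := by
  apply eq_tsub_of_add_eq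
  rw [← Multiset.map_add, tsub_add_cancel_of_le h]

theorem sub_map {m : ℕ} (σ : E ≃ₐ[k] E) (hR : R.map σ = R) {S : Multiset E} (h : S ∈ sub R m) :
    S.map σ ∈ sub R m := by
  rw [mem_sub] at h ⊢
  refine ⟨?_, by simp [h.2]⟩
  rw [← hR]
  exact Multiset.map_le_map h.1

open Classical in
theorem aa_map (σ : E ≃ₐ[k] E) (hR : R.map σ = R) {S : Multiset E} (h : S ≤ R) :
    aa R (S.map σ) = (aa R S).map (σ : E →+* E) := by
  unfold aa
  rw [Polynomial.map_mul, Polynomial.map_add, gg_map, gg_map, map_C]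
  have h1 : Multiset.map (σ : E →+* E) (R - S) = R - S.map σ := by
    have := map_sub' (R := R) σ h
    rw [hR] at this
    exact this
  have h2 : σ (2 : E) = 2 := map_ofNat σ 2
  rw [h1]
  simp [h2]

open Classical in
theorem bb_map (σ : E ≃ₐ[k] E) (hR : R.map σ = R) (hΨ : ∀ z : E, Ψ (σ z) = σ (Ψ z))
    {S : Multiset E} (h : S ≤ R) :
    bb R Ψ (S.map σ) = (bb R Ψ S).map (σ : E →+* E) := by
  unfold bb
  rw [Polynomial.map_mul, Polynomial.map_sub, gg_map, gg_map, map_C, kap_map σ hR hΨ]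
  have h1 : Multiset.map (σ : E →+* E) (R - S) = R - S.map σ := by
    have := map_sub' (R := R) σ h
    rw [hR] at this
    exact this
  have h2 : σ (2 : E) = 2 := map_ofNat σ 2
  rw [h1]
  simp [h2]

/-- a polynomial fixed by the Galois group comes from the base field -/
theorem descend [IsGalois k E] (P : E[X]) (h : ∀ σ : E ≃ₐ[k] E, P.map (σ : E →+* E) = P) :
    ∃ P₀ : k[X], P₀.map (algebraMap k E) = P := by
  have h1 : P ∈ Polynomial.lifts (algebraMap k E) := by
    rw [Polynomial.lifts_iff_coeff_lifts]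
    intro n
    rw [InfiniteGalois.mem_range_algebraMap_iff_fixed]
    intro σ
    have := congrArg (fun P => P.coeff n) (h σ)
    simpa [coeff_map] using this
  rw [Polynomial.mem_lifts] at h1
  exact h1

/-- equivariant interpolation -/
theorem interp [IsGalois k E] (W : Finset E) (hW : ∀ (σ : E ≃ₐ[k] E), ∀ w ∈ W, σ w ∈ W)
    (r : E → E) (hr : ∀ (σ : E ≃ₐ[k] E), ∀ w ∈ W, r (σ w) = σ (r w)) :
    ∃ L : k[X], ∀ w ∈ W, L.eval₂ (algebraMap k E) w = r w := by
  classical
  have hinj : Set.InjOn (id : E → E) (W : Set E) := Function.injective_id.injOn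
  obtain ⟨L, hL⟩ := descend (k := k) (Lagrange.interpolate W id r) (by
    intro σ
    apply Lagrange.eq_interpolate_of_eval_eq r hinj
    · rw [degree_map]
      exact Lagrange.degree_interpolate_lt r hinj
    · intro w hw
      have h1 : σ.symm w ∈ W := hW σ.symm w hw
      have h2 : (id w : E) = (σ : E →+* E) (id (σ.symm w)) := by simp
      rw [h2, eval_map_apply, Lagrange.eval_interpolate_at_node r hinj h1]
      have h3 := hr σ _ h1
      simp only [AlgEquiv.apply_symm_apply] at h3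
      rw [h3]
      rfl)
  refine ⟨L, fun w hw => ?_⟩
  rw [← eval_map, hL]
  exact Lagrange.eval_interpolate_at_node r hinj hw

/-- equivariant interpolation of polynomials -/
theorem interpPoly [IsGalois k E] (W : Finset E) (hW : ∀ (σ : E ≃ₐ[k] E), ∀ w ∈ W, σ w ∈ W)
    (P : E → E[X])
    (hr : ∀ (σ : E ≃ₐ[k] E), ∀ w ∈ W, P (σ w) = (P w).map (σ : E →+* E)) :
    ∃ A : k[X][X], ∀ w ∈ W, A.map (eval₂RingHom (algebraMap k E) w) = P w := by
  classical
  have h1 : ∀ j : ℕ, ∃ L : k[X], ∀ w ∈ W, L.eval₂ (algebraMap k E) w = (P w).coeff j := by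
    intro j
    apply interp W hW (fun w => (P w).coeff j)
    intro σ w hw
    show (P (σ w)).coeff j = σ ((P w).coeff j)
    rw [hr σ w hw, coeff_map]
    rfl
  choose L hL using h1
  set n : ℕ := W.sup (fun w => (P w).natDegree) + 1 with hn
  refine ⟨∑ j ∈ Finset.range n, C (L j) * X ^ j, fun w hw => ?_⟩
  rw [Polynomial.map_sum]
  have h2 : (P w).natDegree < n := by
    rw [hn]
    exact Nat.lt_succ_of_le (Finset.le_sup (f := fun w => (P w).natDegree) hw)
  conv_rhs => rw [(P w).as_sum_range' n h2]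
  apply Finset.sum_congr rfl
  intro j _
  rw [Polynomial.map_mul, Polynomial.map_pow, map_X, map_C, coe_eval₂RingHom, hL j w hw,
    C_mul_X_pow_eq_monomial]

end galois

end HAaux

open HAaux in
theorem HA {k Ω : Type} [Field k] [CharZero k] [Field Ω] [Algebra k Ω] [IsAlgClosure k Ω]
    (F : k[X]) (hF : F.Monic) (m : ℕ) (hm : F.natDegree = 2 * m) (R : Multiset Ω)
    (hR : R = (F.map (algebraMap k Ω)).roots) (Ψ : Ω → Ω)
    (hΨ : ∀ (σ : Ω ≃ₐ[k] Ω) (z : Ω), Ψ (σ z) = σ (Ψ z))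
    (hinj : ∀ S ∈ sub R m, ∀ T ∈ sub R m, kap R Ψ S = kap R Ψ T → S = T) :
    ∃ (Q : k[X]) (A B : k[X][X]), Q.Monic ∧
      Q.map (algebraMap k Ω) = ∏ w ∈ ww R m Ψ, (X - C w) ∧
      C Q ∣ F.map C - A ^ 2 + C X * B ^ 2 := by
  classical
  have : CharZero Ω := charZero_of_injective_algebraMap (algebraMap k Ω).injective
  have : IsAlgClosed Ω := IsAlgClosure.isAlgClosed k
  have : Algebra.IsAlgebraic k Ω := IsAlgClosure.isAlgebraic
  have : Algebra.IsSeparable k Ω := inferInstance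
  have : Normal k Ω := IsAlgClosure.normal k Ω
  have : IsGalois k Ω := ⟨⟩
  have hsp : (F.map (algebraMap k Ω)).Splits := IsAlgClosed.splits _
  have hRσ : ∀ σ : Ω ≃ₐ[k] Ω, R.map σ = R := by
    intro σ
    have h1 := hsp.roots_map (σ : Ω →+* Ω)
    rw [Polynomial.map_map] at h1
    have h2 : (σ : Ω →+* Ω).comp (algebraMap k Ω) = algebraMap k Ω := by
      ext x
      simp
    rw [h2, ← hR] at h1
    exact h1.symm
  have hc : R.card = 2 * m := by
    rw [hR, ← hsp.natDegree_eq_card_roots, natDegree_map, hm]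
  have hFR : F.map (algebraMap k Ω) = gg R := by
    have h1 := hsp.eq_prod_roots_of_monic (hF.map _)
    rw [← hR] at h1
    exact h1
  set W := ww R m Ψ with hWdef
  have hWmem : ∀ w, w ∈ W ↔ ∃ S ∈ sub R m, kap R Ψ S ^ 2 = w := by
    intro w
    rw [hWdef]
    simp [ww]
  have hWσ : ∀ (σ : Ω ≃ₐ[k] Ω), ∀ w ∈ W, σ w ∈ W := by
    intro σ w hw
    rw [hWmem] at hw ⊢
    obtain ⟨S, hS, rfl⟩ := hw
    refine ⟨S.map σ, sub_map σ (hRσ σ) hS, ?_⟩
    rw [kap_map σ (hRσ σ) (hΨ σ), map_pow]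
  -- choice of `S`
  have hch : ∃ s : Ω → Multiset Ω, ∀ w ∈ W, s w ∈ sub R m ∧ kap R Ψ (s w) ^ 2 = w := by
    have : ∀ w : Ω, ∃ S : Multiset Ω, w ∈ W → S ∈ sub R m ∧ kap R Ψ S ^ 2 = w := by
      intro w
      by_cases hw : w ∈ W
      · obtain ⟨S, hS, h⟩ := (hWmem w).1 hw
        exact ⟨S, fun _ => ⟨hS, h⟩⟩
      · exact ⟨0, fun h => absurd h hw⟩
    choose s hs using this
    exact ⟨s, hs⟩
  obtain ⟨s, hs⟩ := hch
  have hsσ : ∀ (σ : Ω ≃ₐ[k] Ω), ∀ w ∈ W, s (σ w) = (s w).map σ ∨ s (σ w) = R - (s w).map σ := by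
    intro σ w hw
    have h1 := hs w hw
    have h2 := hs _ (hWσ σ w hw)
    apply eq_of_sq hc hinj h2.1 (sub_map σ (hRσ σ) h1.1)
    rw [h2.2, kap_map σ (hRσ σ) (hΨ σ), ← map_pow, h1.2]
  obtain ⟨A, hA⟩ := interpPoly (k := k) W hWσ (fun w => aa R (s w)) (by
    intro σ w hw
    have h1 := hs w hw
    show aa R (s (σ w)) = _
    have h3 := aa_map σ (hRσ σ) (mem_sub.1 h1.1).1
    rcases hsσ σ w hw with h | h
    · rw [h, h3]
    · rw [h, aa_sub (mem_sub.1 (sub_map σ (hRσ σ) h1.1)).1, h3])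
  obtain ⟨B, hB⟩ := interpPoly (k := k) W hWσ (fun w => bb R Ψ (s w)) (by
    intro σ w hw
    have h1 := hs w hw
    show bb R Ψ (s (σ w)) = _
    have h3 := bb_map σ (hRσ σ) (hΨ σ) (mem_sub.1 h1.1).1
    rcases hsσ σ w hw with h | h
    · rw [h, h3]
    · rw [h, bb_sub (mem_sub.1 (sub_map σ (hRσ σ) h1.1)).1, h3])
  obtain ⟨Q, hQ⟩ := descend (k := k) (∏ w ∈ W, (X - C w)) (by
    intro σ
    rw [Polynomial.map_prod]
    simp only [Polynomial.map_sub, map_X, map_C]
    refine Finset.prod_bij (fun w _ => σ w) (fun w hw => hWσ σ w hw) ?_ ?_ ?_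
    · intro a _ b _ h
      exact σ.injective h
    · intro b hb
      exact ⟨σ.symm b, hWσ σ.symm b hb, by simp⟩
    · intro w _
      rfl)
  refine ⟨Q, A, B, ?_, hQ, ?_⟩
  · have h1 : (Q.map (algebraMap k Ω)).Monic := by
      rw [hQ]
      exact monic_prod_X_sub_C _ _
    exact (monic_map_iff).1 h1
  · rw [C_dvd_iff_dvd_coeff]
    intro i
    rw [← map_dvd_map' (algebraMap k Ω), hQ]
    apply Finset.prod_dvd_of_coprime
    · intro a _ b _ hab
      exact pairwise_coprime_X_sub_C Function.injective_id hab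
    · intro w hw
      rw [dvd_iff_isRoot, IsRoot.def, eval_map]
      have h1 : (F.map C - A ^ 2 + C X * B ^ 2).map (eval₂RingHom (algebraMap k Ω) w) = 0 := by
        rw [Polynomial.map_add, Polynomial.map_sub, Polynomial.map_mul, Polynomial.map_pow,
          Polynomial.map_pow, hA w hw, hB w hw, Polynomial.map_map, map_C, coe_eval₂RingHom,
          eval₂_X]
        have h2 : (eval₂RingHom (algebraMap k Ω) w).comp C = algebraMap k Ω := by
          ext x
          simp
        rw [h2, hFR]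
        have h3 := aa_bb hc hinj (hs w hw).1
        rw [(hs w hw).2] at h3
        exact h3
      have h4 := congrArg (fun P => P.coeff i) h1
      rw [coeff_map, coeff_zero, coe_eval₂RingHom] at h4
      exact h4

end Pool.Agent.PDF
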