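import Pool.Agent.PDF.PF
import Pool.Agent.Helper13.TL.Main

/-!
# Row TLI: the field `ℂ(X₁,…,X_n)` over `ℝ(X₁,…,X_n)`, universality of the `n`-fold Pfister forms
-/

set_option autoImplicit false

namespace Pool.Agent.PDF

open Polynomial

namespace TLI

theorem card_Ix (n : ℕ) : Fintype.card (Ix n) = 2 ^ n := by
  induction n with
  | zero => rfl
  | succ n ih =>
    have : Fintype.card (Ix (n + 1)) = Fintype.card (Ix n) + Fintype.card (Ix n) :=
      Fintype.card_sum
    rw [this, ih, pow_succ]; ring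

theorem univ_of_strongC {K : Type} [Field K] (h2 : (2 : K) ≠ 0) {n : ℕ}
    (hC : Pool.Agent.Helper13.TL.StrongC K n) (l : List K) (hl : l.length = n)
    (hl0 : ∀ a ∈ l, a ≠ 0) (z : K) : z ∈ D l := by
  classical
  rw [D_wt]
  let f : Unit → MvPolynomial (Option (Ix l.length)) K := fun _ =>
    ∑ i, MvPolynomial.C (wt l i) * MvPolynomial.X (some i) ^ 2 -
      MvPolynomial.C z * MvPolynomial.X none ^ 2
  have hf : ∀ j, (f j).IsHomogeneous 2 := by
    intro j
    have h1 : ∀ (c : K) (s : Option (Ix l.length)),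
        (MvPolynomial.C c * MvPolynomial.X s ^ 2 :
          MvPolynomial (Option (Ix l.length)) K).IsHomogeneous 2 := by
      intro c s
      have := (MvPolynomial.isHomogeneous_C (Option (Ix l.length)) c).mul
        ((MvPolynomial.isHomogeneous_X K s).pow 2)
      simpa using this
    exact (MvPolynomial.IsHomogeneous.sum _ _ _ fun i _ => h1 _ _).sub (h1 _ _)
  obtain ⟨x, hx0, hx⟩ := hC Unit (Option (Ix l.length)) 2 f (by norm_num) hf (by
    rw [Fintype.card_option, card_Ix, hl]; simp)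
  have hx := hx ()
  simp only [f, map_sub, map_sum, map_mul, map_pow, MvPolynomial.eval_C, MvPolynomial.eval_X] at hx
  by_cases hn : x none = 0
  · refine iso_univ h2 (wt l) (wt_ne l hl0) (fun han => hx0 ?_) z
    have h3 := han (fun i => x (some i)) (by simpa [hn] using hx)
    funext s
    cases s with
    | none => exact hn
    | some i => exact congrFun h3 i
  · refine ⟨fun i => x (some i) / x none, ?_⟩
    have h3 : ∑ i, wt l i * x (some i) ^ 2 = z * x none ^ 2 := sub_eq_zero.1 hx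
    have h4 : ∑ i, wt l i * (x (some i) / x none) ^ 2 =
        (∑ i, wt l i * x (some i) ^ 2) / x none ^ 2 := by
      rw [Finset.sum_div]
      exact Finset.sum_congr rfl fun i _ => by rw [div_pow, mul_div_assoc]
    rw [h4, h3, mul_div_assoc, div_self (pow_ne_zero 2 hn), mul_one]

/-- `ℝ[X₁,…,X_n]` is formally real -/
theorem poly_real {n : ℕ} {ι : Type} (s : Finset ι) (p : ι → MvPolynomial (Fin n) ℝ)
    (h : ∑ i ∈ s, p i ^ 2 = 0) : ∀ i ∈ s, p i = 0 := by
  intro i hi
  refine MvPolynomial.funext fun x => ?_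
  have h1 : ∑ i ∈ s, (MvPolynomial.eval x (p i)) ^ 2 = 0 := by
    have := congrArg (MvPolynomial.eval x) h
    simpa using this
  have h2 := (Finset.sum_eq_zero_iff_of_nonneg fun i _ => sq_nonneg _).1 h1 i hi
  simpa using h2

/-- the inclusion of `ℝ[X₁,…,X_n]` in `ℂ[X₁,…,X_n]` -/
noncomputable def inc (n : ℕ) : MvPolynomial (Fin n) ℝ →+* MvPolynomial (Fin n) ℂ :=
  MvPolynomial.map (algebraMap ℝ ℂ)

theorem inc_inj (n : ℕ) : Function.Injective (inc n) :=
  MvPolynomial.map_injective _ (algebraMap ℝ ℂ).injective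

theorem decomp (n : ℕ) (p : MvPolynomial (Fin n) ℂ) :
    ∃ a b, p = inc n a + MvPolynomial.C Complex.I * inc n b := by
  induction p using MvPolynomial.induction_on with
  | C z =>
    refine ⟨MvPolynomial.C z.re, MvPolynomial.C z.im, ?_⟩
    rw [inc, MvPolynomial.map_C, MvPolynomial.map_C, ← MvPolynomial.C_mul, ← MvPolynomial.C_add]
    congr 1
    rw [mul_comm]
    exact (Complex.re_add_im z).symm
  | add p q hp hq =>
    obtain ⟨a, b, rfl⟩ := hp
    obtain ⟨c, d, rfl⟩ := hq
    exact ⟨a + c, b + d, by rw [map_add, map_add]; ring⟩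
  | mul_X p i hp =>
    obtain ⟨a, b, rfl⟩ := hp
    refine ⟨a * MvPolynomial.X i, b * MvPolynomial.X i, ?_⟩
    have : inc n (MvPolynomial.X i) = MvPolynomial.X i := MvPolynomial.map_X _ _
    rw [map_mul, map_mul, this]; ring

end TLI

open TLI in
theorem FR_kk (n : ℕ) : FR (kk n) := by
  intro m x hx
  obtain ⟨b, hb⟩ := IsLocalization.exist_integer_multiples_of_finite
    (nonZeroDivisors (MvPolynomial (Fin n) ℝ)) x
  choose p hp using hb
  have hb0 : algebraMap (MvPolynomial (Fin n) ℝ) (kk n) b ≠ 0 := by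
    rw [Ne, FaithfulSMul.algebraMap_eq_zero_iff]
    exact nonZeroDivisors.ne_zero b.2
  have h1 : ∀ i, algebraMap (MvPolynomial (Fin n) ℝ) (kk n) (p i) =
      algebraMap (MvPolynomial (Fin n) ℝ) (kk n) b * x i := fun i => by
    rw [hp i, Algebra.smul_def]
  have h2 : ∑ i, p i ^ 2 = 0 := by
    apply FaithfulSMul.algebraMap_injective (MvPolynomial (Fin n) ℝ) (kk n)
    rw [map_zero, map_sum]
    have : ∀ i, algebraMap (MvPolynomial (Fin n) ℝ) (kk n) (p i ^ 2) =
        algebraMap (MvPolynomial (Fin n) ℝ) (kk n) b ^ 2 * x i ^ 2 := fun i => by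
      rw [map_pow, h1, mul_pow]
    rw [Finset.sum_congr rfl fun i _ => this i, ← Finset.mul_sum, hx, mul_zero]
  funext i
  have h3 := poly_real Finset.univ p h2 i (Finset.mem_univ i)
  have h4 := h1 i
  rw [h3, map_zero] at h4
  exact (mul_eq_zero.1 h4.symm).resolve_left hb0

open TLI in
theorem TLI (n : ℕ) : ∃ (K' : Type) (_ : Field K') (φ : kk n →+* K') (I : K'),
    I ^ 2 = -1 ∧ (∀ z : K', ∃ u v : kk n, z = φ u + I * φ v) ∧
    ∀ l : List (kk n), l.length = n → (∀ a ∈ l, a ≠ 0) → ∀ z : K', z ∈ D (l.map φ) := by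
  let L := FractionRing (MvPolynomial (Fin n) ℂ)
  let φ : kk n →+* L := IsFractionRing.map (inc_inj n)
  have hφ : ∀ a, φ (algebraMap _ _ a) = algebraMap (MvPolynomial (Fin n) ℂ) L (inc n a) :=
    fun a => IsLocalization.map_eq _ a
  let I : L := algebraMap (MvPolynomial (Fin n) ℂ) L (MvPolynomial.C Complex.I)
  have hI : I ^ 2 = -1 := by
    show (algebraMap (MvPolynomial (Fin n) ℂ) L (MvPolynomial.C Complex.I)) ^ 2 = -1
    rw [← map_pow, ← map_pow, Complex.I_sq]
    simp
  refine ⟨L, inferInstance, φ, I, hI, ?_, ?_⟩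
  · intro z
    obtain ⟨p, q, hq, rfl⟩ := IsFractionRing.div_surjective (A := MvPolynomial (Fin n) ℂ) z
    obtain ⟨a, b, hp⟩ := decomp n p
    obtain ⟨c, d, hq'⟩ := decomp n q
    have hq0 : q ≠ 0 := nonZeroDivisors.ne_zero hq
    have hcd : c ^ 2 + d ^ 2 ≠ 0 := by
      intro h
      have h1 := poly_real (n := n) Finset.univ ![c, d] (by simpa [Fin.sum_univ_two] using h)
      have hc : c = 0 := by simpa using h1 0 (Finset.mem_univ _)
      have hd : d = 0 := by simpa using h1 1 (Finset.mem_univ _)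
      apply hq0
      rw [hq', hc, hd, map_zero, mul_zero, add_zero]
    set C' := algebraMap (MvPolynomial (Fin n) ℝ) (kk n)
    have hcd' : C' c ^ 2 + C' d ^ 2 ≠ 0 := by
      rw [← map_pow, ← map_pow, ← map_add, Ne, FaithfulSMul.algebraMap_eq_zero_iff]
      exact hcd
    refine ⟨(C' a * C' c + C' b * C' d) / (C' c ^ 2 + C' d ^ 2),
      (C' b * C' c - C' a * C' d) / (C' c ^ 2 + C' d ^ 2), ?_⟩
    have hP : algebraMap (MvPolynomial (Fin n) ℂ) L p = φ (C' a) + I * φ (C' b) := by
      rw [hp, hφ, hφ, map_add, map_mul]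
    have hQ : algebraMap (MvPolynomial (Fin n) ℂ) L q = φ (C' c) + I * φ (C' d) := by
      rw [hq', hφ, hφ, map_add, map_mul]
    have hQ0 : φ (C' c) + I * φ (C' d) ≠ 0 := by
      rw [← hQ, Ne, FaithfulSMul.algebraMap_eq_zero_iff]
      exact hq0
    have hN : φ (C' c) ^ 2 + φ (C' d) ^ 2 ≠ 0 := by
      have h1 : φ (C' c ^ 2 + C' d ^ 2) ≠ 0 := (map_ne_zero φ).2 hcd'
      rwa [map_add, map_pow, map_pow] at h1
    rw [hP, hQ, map_div₀, map_div₀]
    simp only [map_add, map_sub, map_mul, map_pow]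
    rw [mul_div_assoc', ← add_div, div_eq_div_iff hQ0 hN]
    generalize φ (C' a) = A
    generalize φ (C' b) = B
    generalize φ (C' c) = E
    generalize φ (C' d) = F
    linear_combination (-(B * E - A * F) * F) * hI
  · intro l hl hl0 z
    have h2 : (2 : L) ≠ 0 := two_ne_zero
    refine univ_of_strongC h2 (Pool.Agent.Helper13.TL.strongC_ratfunc ℂ n) _ (by simpa using hl)
      ?_ z
    intro a ha
    obtain ⟨b, hb, rfl⟩ := List.mem_map.1 ha
    rw [Ne, map_eq_zero]
    exact hl0 b hb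

end Pool.Agent.PDF
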