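import Pool.Agent.PDF.AS
import Pool.Agent.PDF.HA
import Pool.Agent.PDF.TLI

/-!
# Row HE: the heart, from HA, SG, AS
-/

set_option autoImplicit false

namespace Pool.Agent.PDF

open Polynomial

theorem HE_poly {k : Type} [Field k] (r : k) (hr : r ≠ 0) (F : k[X]) (Q : k[X]) (A B : k[X][X])
    (hQ : Q.Monic) (hdvd : C Q ∣ F.map C - A ^ 2 + C X * B ^ 2) :
    ∃ (P : k[X]) (A' B' : k[X][X]), P.Monic ∧ C P ∣ F.map C - A' ^ 2 - C (C r) * B' ^ 2 ∧
      ∀ c, P.eval c = (-r)⁻¹ ^ Q.natDegree * Q.eval (-r * c ^ 2) := by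
  have hnr : -r ≠ 0 := neg_ne_zero.mpr hr
  have hu : ((-r)⁻¹ ^ Q.natDegree) * ((-r) ^ Q.natDegree) = 1 := by
    rw [← mul_pow, inv_mul_cancel₀ hnr, one_pow]
  have hg : (C (-r) * X ^ 2 : k[X]).natDegree = 2 := natDegree_C_mul_X_pow 2 (-r) hnr
  have hlc : (C (-r) * X ^ 2 : k[X]).leadingCoeff = -r := leadingCoeff_C_mul_X_pow _ _
  obtain ⟨σ, hσ⟩ : ∃ σ : k[X] →+* k[X], ∀ p, σ p = p.comp (C (-r) * X ^ 2) :=
    ⟨compRingHom (C (-r) * X ^ 2), fun p => rfl⟩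
  have hσC : ∀ x : k, σ (C x) = C x := fun x => by rw [hσ, C_comp]
  have hσX : σ X = C (-r) * X ^ 2 := by rw [hσ, X_comp]
  refine ⟨C ((-r)⁻¹ ^ Q.natDegree) * σ Q, A.map σ, C X * B.map σ, ?_, ?_, ?_⟩
  · rw [Monic, leadingCoeff_mul, leadingCoeff_C, hσ, leadingCoeff_comp (by rw [hg]; norm_num), hlc,
      hQ.leadingCoeff, one_mul, hu]
  · have h1 : mapRingHom σ (C Q) ∣ mapRingHom σ (F.map C - A ^ 2 + C X * B ^ 2) :=
      map_dvd (mapRingHom σ) hdvd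
    rw [map_add, map_sub, map_mul, map_pow, map_pow] at h1
    simp only [coe_mapRingHom, map_C] at h1
    have h2 : (F.map (C : k →+* k[X])).map σ = F.map C := by
      rw [Polynomial.map_map]
      congr 1
      exact RingHom.ext hσC
    rw [h2, hσX] at h1
    have h5 : C ((-r)⁻¹ ^ Q.natDegree) * σ Q ∣ σ Q := by
      refine Dvd.intro_left (C ((-r) ^ Q.natDegree)) ?_
      rw [← mul_assoc, ← C_mul, mul_comm ((-r) ^ Q.natDegree), hu, C_1, one_mul]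
    have h3 : C (C ((-r)⁻¹ ^ Q.natDegree) * σ Q) ∣ (C (σ Q) : k[X][X]) :=
      map_dvd (C : k[X] →+* k[X][X]) h5
    refine h3.trans ?_
    have h4 : F.map C - A.map σ ^ 2 - C (C r) * (C X * B.map σ) ^ 2 =
        F.map C - A.map σ ^ 2 + C (C (-r) * X ^ 2) * B.map σ ^ 2 := by
      rw [C_mul, C_neg, C_neg, C_pow]
      ring
    rw [h4]
    exact h1
  · intro c
    rw [eval_mul, eval_C, hσ, eval_comp, eval_mul, eval_C, eval_pow, eval_X]

theorem HE_eval {k Ω : Type} [Field k] [Field Ω] (i : k →+* Ω) (r : k) (hr : r ≠ 0) (Q : k[X])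
    (W : Finset Ω) (hQ : Q.map i = ∏ w ∈ W, (X - C w)) (c : k) :
    i ((-r)⁻¹ ^ Q.natDegree * Q.eval (-r * c ^ 2)) = ∏ w ∈ W, (i c ^ 2 + w / i r) := by
  have hir : i r ≠ 0 := (map_ne_zero i).mpr hr
  have hd : Q.natDegree = W.card := by
    rw [← natDegree_map i, hQ, natDegree_prod_of_monic _ _ fun w _ => monic_X_sub_C w]
    simp
  have he : i (Q.eval (-r * c ^ 2)) = ∏ w ∈ W, (i (-r * c ^ 2) - w) := by
    rw [← eval_map_apply, hQ, eval_prod]
    simp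
  rw [map_mul, he, hd, map_pow, ← Finset.prod_const, ← Finset.prod_mul_distrib]
  refine Finset.prod_congr rfl fun w _ => ?_
  rw [map_inv₀, map_mul, map_neg, map_pow]
  field_simp
  ring

theorem HE_rr_ne (n : ℕ) (hFR : FR (kk n)) : rr n ≠ 0 := by
  intro h
  have h1 := hFR _ _ h
  have h2 : vv n 0 = 1 := rfl
  rw [h1] at h2
  exact zero_ne_one h2

/-- The heart, from the sign row: `hmon`, `hdeg` are `Fk_monic`, `hSG` is `SG` for the multiset
of the roots. -/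
theorem HE_of (n m : ℕ) (f : MvPolynomial (Fin (n + 2)) ℝ) (hmon : (Fk n f).Monic)
    (hdeg : (Fk n f).natDegree = 2 * m)
    (hSG : ∀ (R : Multiset (AlgebraicClosure (kk n))),
      R = ((Fk n f).map (algebraMap (kk n) (AlgebraicClosure (kk n)))).roots →
      ∃ Ψ : AlgebraicClosure (kk n) → AlgebraicClosure (kk n),
      (∀ (σ : AlgebraicClosure (kk n) ≃ₐ[kk n] AlgebraicClosure (kk n)) z, Ψ (σ z) = σ (Ψ z)) ∧
      (∀ S ∈ sub R m, ∀ T ∈ sub R m, kap R Ψ S = kap R Ψ T → S = T) ∧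
      ∀ x : kk n, algebraMap (kk n) (AlgebraicClosure (kk n)) x =
          ∏ w ∈ ww R m Ψ, (((m : AlgebraicClosure (kk n)) - 1) ^ 2 +
            w / algebraMap (kk n) (AlgebraicClosure (kk n)) (rr n)) →
        ∀ [LinearOrder (kk n)] [IsStrictOrderedRing (kk n)], x < 0) :
    ∃ (P : (kk n)[X]) (A B : (kk n)[X][X]) (c : kk n), P.Monic ∧
      C P ∣ (Fk n f).map C - A ^ 2 - C (C (rr n)) * B ^ 2 ∧
      P.eval c ≠ 0 ∧ IsSumSq (-(P.eval c)) := by
  have hFR : FR (kk n) := FR_kk n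
  have hr : rr n ≠ 0 := HE_rr_ne n hFR
  obtain ⟨Ψ, hΨ, hinj, hsign⟩ := hSG _ rfl
  obtain ⟨Q, A, B, hQ, hQW, hdvd⟩ := HA (Ω := AlgebraicClosure (kk n)) (Fk n f) hmon m hdeg _
    rfl Ψ hΨ hinj
  obtain ⟨P, A', B', hP, hPd, hPe⟩ := HE_poly (rr n) hr (Fk n f) Q A B hQ hdvd
  have hval := HE_eval (algebraMap (kk n) (AlgebraicClosure (kk n))) (rr n) hr Q _ hQW
    ((m : kk n) - 1)
  rw [← hPe, map_sub, map_natCast, map_one] at hval
  have hneg : ∀ [LinearOrder (kk n)] [IsStrictOrderedRing (kk n)],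
      P.eval ((m : kk n) - 1) < 0 := by
    intro _ _
    exact hsign (P.eval ((m : kk n) - 1)) hval
  have hs : IsSumSq (-(P.eval ((m : kk n) - 1))) := by
    refine AS hFR _ ?_
    intro _ _
    exact neg_nonneg.mpr (le_of_lt hneg)
  refine ⟨P, A', B', (m : kk n) - 1, hP, hPd, fun h0 => ?_, hs⟩
  refine ASaux.neg_one_not hFR (AS hFR _ ?_)
  intro _ _
  have h1 : P.eval ((m : kk n) - 1) < 0 := hneg
  rw [h0] at h1
  exact absurd h1 (lt_irrefl 0)

end Pool.Agent.PDF
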