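import Pool.Agent.PDF.Defs

/-!
# Pfister's identity with bilinear first coordinate (row MS)
-/

set_option autoImplicit false

namespace Pool.Agent.PDF.MSx

open Matrix Pool.Agent.PDF

variable {K : Type} [Field K]

/-- every vector is the first row of a matrix `A` with `A Aᵀ = Aᵀ A = |a|²` -/
def Good (K : Type) [Field K] (ι : Type) [Fintype ι] [DecidableEq ι] (i0 : ι) : Prop :=
  ∀ a : ι → K, ∃ A : Matrix ι ι K, A i0 = a ∧
    A * Aᵀ = (∑ i, a i ^ 2) • (1 : Matrix ι ι K) ∧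
    Aᵀ * A = (∑ i, a i ^ 2) • (1 : Matrix ι ι K)

theorem FR_fintype (hK : FR K) {ι : Type} [Fintype ι] (x : ι → K) (h : ∑ i, x i ^ 2 = 0) :
    x = 0 := by
  have e := Fintype.equivFin ι
  have h1 : ∑ i, (x ∘ e.symm) i ^ 2 = 0 := by
    rw [← h]
    exact Equiv.sum_comp e.symm (fun i => x i ^ 2)
  have h2 := hK _ _ h1
  funext i
  have := congrFun h2 (e i)
  simpa using this

theorem transpose_of {ι : Type} [Fintype ι] [DecidableEq ι] (A : Matrix ι ι K) (c : K)
    (hc : c ≠ 0) (h : A * Aᵀ = c • (1 : Matrix ι ι K)) : Aᵀ * A = c • (1 : Matrix ι ι K) := by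
  have h1 : (c⁻¹ • A) * Aᵀ = 1 := by
    rw [Matrix.smul_mul, h, smul_smul, inv_mul_cancel₀ hc, one_smul]
  have h2 : Aᵀ * (c⁻¹ • A) = 1 := mul_eq_one_comm.mp h1
  have h3 : c • (Aᵀ * (c⁻¹ • A)) = c • (1 : Matrix ι ι K) := by rw [h2]
  rwa [Matrix.mul_smul, smul_smul, mul_inv_cancel₀ hc, one_smul] at h3

theorem good_sum (hK : FR K) {ι : Type} [Fintype ι] [DecidableEq ι] {i0 : ι}
    (H : Good K ι i0) : Good K (ι ⊕ ι) (Sum.inl i0) := by
  intro a
  obtain ⟨P, hP0, hP, hP'⟩ := H (fun i => a (Sum.inl i))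
  obtain ⟨Q, hQ0, hQ, hQ'⟩ := H (fun i => a (Sum.inr i))
  have hsum : ∑ i, a i ^ 2 = ∑ i, a (Sum.inl i) ^ 2 + ∑ i, a (Sum.inr i) ^ 2 :=
    Fintype.sum_sum_type _
  set c₁ := ∑ i, a (Sum.inl i) ^ 2 with hc₁
  set c₂ := ∑ i, a (Sum.inr i) ^ 2 with hc₂
  by_cases h1 : c₁ = 0
  · have hp : (fun i => a (Sum.inl i)) = 0 := FR_fintype hK _ h1
    refine ⟨fromBlocks 0 Q Q 0, ?_, ?_, ?_⟩
    · funext j
      rcases j with j | j
      · have := congrFun hp j
        simpa using this.symm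
      · simpa using congrFun hQ0 j
    · rw [fromBlocks_transpose, fromBlocks_multiply, hsum, h1, zero_add]
      simp only [transpose_zero, zero_mul, mul_zero, zero_add, add_zero, hQ]
      rw [← fromBlocks_one, fromBlocks_smul, smul_zero]
    · rw [fromBlocks_transpose, fromBlocks_multiply, hsum, h1, zero_add]
      simp only [transpose_zero, zero_mul, mul_zero, zero_add, add_zero, hQ']
      rw [← fromBlocks_one, fromBlocks_smul, smul_zero]
  · have hc : ∑ i, a i ^ 2 ≠ 0 := by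
      intro h0
      have := FR_fintype hK a h0
      apply h1
      rw [hc₁]
      simp [this]
    have key : fromBlocks P Q (-(c₁⁻¹ • (Pᵀ * Qᵀ * P))) Pᵀ *
        (fromBlocks P Q (-(c₁⁻¹ • (Pᵀ * Qᵀ * P))) Pᵀ)ᵀ =
        (∑ i, a i ^ 2) • (1 : Matrix (ι ⊕ ι) (ι ⊕ ι) K) := by
      have e1 : P * (-(c₁⁻¹ • (Pᵀ * Qᵀ * P)))ᵀ + Q * P = 0 := by
        rw [transpose_neg, transpose_smul, transpose_mul, transpose_mul, transpose_transpose,
          transpose_transpose, mul_neg, Matrix.mul_smul, ← mul_assoc, ← mul_assoc, hP, Matrix.smul_mul,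
          Matrix.smul_mul, smul_smul, inv_mul_cancel₀ h1, one_smul, one_mul, neg_add_cancel]
      have e2 : (-(c₁⁻¹ • (Pᵀ * Qᵀ * P))) * Pᵀ + Pᵀ * Qᵀ = 0 := by
        rw [neg_mul, Matrix.smul_mul, mul_assoc (Pᵀ * Qᵀ), hP, Matrix.mul_smul, smul_smul,
          inv_mul_cancel₀ h1, one_smul, mul_one, neg_add_cancel]
      have e3 : (-(c₁⁻¹ • (Pᵀ * Qᵀ * P))) * (-(c₁⁻¹ • (Pᵀ * Qᵀ * P)))ᵀ + Pᵀ * P =
          (c₁ + c₂) • (1 : Matrix ι ι K) := by
        rw [transpose_neg, transpose_smul, transpose_mul, transpose_mul, transpose_transpose,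
          transpose_transpose, neg_mul_neg, Matrix.smul_mul, Matrix.mul_smul, smul_smul]
        have : Pᵀ * Qᵀ * P * (Pᵀ * (Q * P)) = (c₁ * c₂ * c₁) • (1 : Matrix ι ι K) := by
          calc Pᵀ * Qᵀ * P * (Pᵀ * (Q * P)) = Pᵀ * (Qᵀ * (P * Pᵀ) * Q) * P := by
                simp only [mul_assoc]
            _ = (c₁ * c₂ * c₁) • (1 : Matrix ι ι K) := by
                rw [hP, Matrix.mul_smul, mul_one, Matrix.smul_mul, hQ', smul_smul, Matrix.mul_smul, mul_one, Matrix.smul_mul,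
                  hP', smul_smul]
        rw [this, hP', smul_smul, ← add_smul]
        congr 1
        field_simp
        ring
      rw [fromBlocks_transpose, fromBlocks_multiply, hsum, hP, hQ, ← add_smul,
        transpose_transpose, e1, e2, e3, ← fromBlocks_one, fromBlocks_smul, smul_zero]
    refine ⟨fromBlocks P Q (-(c₁⁻¹ • (Pᵀ * Qᵀ * P))) Pᵀ, ?_, key, transpose_of _ _ hc key⟩
    funext j
    rcases j with j | j
    · simpa using congrFun hP0 j
    · simpa using congrFun hQ0 j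

theorem good_equiv {ι κ : Type} [Fintype ι] [DecidableEq ι] [Fintype κ] [DecidableEq κ]
    (e : ι ≃ κ) {i0 : ι} (H : Good K ι i0) : Good K κ (e i0) := by
  intro a
  obtain ⟨A, hA0, hA, hA'⟩ := H (a ∘ e)
  have hs : ∑ i, (a ∘ e) i ^ 2 = ∑ i, a i ^ 2 := Equiv.sum_comp e (fun i => a i ^ 2)
  rw [hs] at hA hA'
  refine ⟨A.submatrix e.symm e.symm, ?_, ?_, ?_⟩
  · funext j
    simpa using congrFun hA0 (e.symm j)
  · rw [transpose_submatrix, submatrix_mul_equiv, hA, submatrix_smul]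
    simp only [Pi.smul_apply, submatrix_one_equiv]
  · rw [transpose_submatrix, submatrix_mul_equiv, hA', submatrix_smul]
    simp only [Pi.smul_apply, submatrix_one_equiv]

theorem good_pow (hK : FR K) (n : ℕ) : Good K (Fin (2 ^ n)) ⟨0, by positivity⟩ := by
  induction n with
  | zero =>
    intro a
    have : Subsingleton (Fin (2 ^ 0)) := inferInstanceAs (Subsingleton (Fin 1))
    refine ⟨Matrix.of fun _ _ => a 0, ?_, ?_, ?_⟩
    · funext j
      have : j = 0 := Subsingleton.elim _ _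
      rw [this]
      rfl
    · ext i j
      have hi : i = 0 := Subsingleton.elim _ _
      have hj : j = 0 := Subsingleton.elim _ _
      subst hi hj
      rw [Matrix.mul_apply, Fintype.sum_subsingleton _ (0 : Fin (2 ^ 0)), Matrix.smul_apply,
        Fintype.sum_subsingleton _ (0 : Fin (2 ^ 0))]
      simp [pow_two]
    · ext i j
      have hi : i = 0 := Subsingleton.elim _ _
      have hj : j = 0 := Subsingleton.elim _ _
      subst hi hj
      rw [Matrix.mul_apply, Fintype.sum_subsingleton _ (0 : Fin (2 ^ 0)), Matrix.smul_apply,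
        Fintype.sum_subsingleton _ (0 : Fin (2 ^ 0))]
      simp [pow_two]
  | succ n ih =>
    have h := good_equiv (finSumFinEquiv.trans (finCongr (by rw [pow_succ]; ring)) :
      Fin (2 ^ n) ⊕ Fin (2 ^ n) ≃ Fin (2 ^ (n + 1))) (good_sum hK ih)
    have e : ((finSumFinEquiv.trans (finCongr (by rw [pow_succ]; ring)) :
      Fin (2 ^ n) ⊕ Fin (2 ^ n) ≃ Fin (2 ^ (n + 1))) (Sum.inl ⟨0, by positivity⟩)) =
      ⟨0, by positivity⟩ := by
      apply Fin.ext
      simp
    rwa [e] at h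

end Pool.Agent.PDF.MSx

namespace Pool.Agent.PDF

open Matrix

/-- Pfister's identity with bilinear first coordinate -/
theorem MS {K : Type} [Field K] (hK : FR K) (n : ℕ) (a b : Fin (2 ^ n) → K) :
    ∃ w : Fin (2 ^ n) → K, w ⟨0, by positivity⟩ = ∑ i, a i * b i ∧
      ∑ i, w i ^ 2 = (∑ i, a i ^ 2) * ∑ i, b i ^ 2 := by
  obtain ⟨A, hA0, -, hA⟩ := MSx.good_pow hK n a
  refine ⟨A.mulVec b, ?_, ?_⟩
  · rw [mulVec, hA0]
    rfl
  · have h1 : ∑ i, (A.mulVec b) i ^ 2 = (A.mulVec b) ⬝ᵥ (A.mulVec b) := by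
      simp [dotProduct, pow_two]
    have h2 : (A.mulVec b) ⬝ᵥ (A.mulVec b) = b ⬝ᵥ ((Aᵀ * A).mulVec b) := by
      rw [← mulVec_mulVec, dotProduct_mulVec, ← mulVec_transpose, dotProduct_comm]
    rw [h1, h2, hA, smul_mulVec, one_mulVec, dotProduct_smul, smul_eq_mul]
    simp [dotProduct, pow_two]

end Pool.Agent.PDF
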