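import Pool.Agent.PDF.Defs

/-!
# The norm principle
-/

set_option autoImplicit false

namespace Pool.Agent.PDF

open Polynomial

section NP

variable {ι L : Type} [Fintype ι] [Field L] (w : ι → L)

theorem Rep_sq_mul {a : L} (ha : Rep w a) (x : L) : Rep w (x ^ 2 * a) := by
  obtain ⟨y, rfl⟩ := ha
  refine ⟨fun i => x * y i, ?_⟩
  rw [Finset.mul_sum]
  exact Finset.sum_congr rfl fun i _ => by ring

theorem Rep_div (hm : MulC w) {a b : L} (ha : Rep w a) (hb : Rep w b) : Rep w (a / b) := by
  by_cases h : b = 0
  · rw [h, div_zero]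
    exact ⟨0, by simp⟩
  · have := Rep_sq_mul w (hm a b ha hb) (b⁻¹)
    convert this using 1
    field_simp

/-- coefficient `2 d` of the value at a vector of polynomials of degree `≤ d` -/
theorem coeff_form (v : ι → L[X]) (d : ℕ) (hv : ∀ i, (v i).natDegree ≤ d) :
    (∑ i, C (w i) * v i ^ 2).coeff (2 * d) = ∑ i, w i * (v i).coeff d ^ 2 := by
  rw [finsetSum_coeff]
  refine Finset.sum_congr rfl fun i _ => ?_
  rw [coeff_C_mul, pow_two, two_mul, coeff_mul_add_eq_of_natDegree_le (hv i) (hv i), pow_two]

theorem natDegree_form_le (v : ι → L[X]) (d : ℕ) (hv : ∀ i, (v i).natDegree ≤ d) :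
    (∑ i, C (w i) * v i ^ 2).natDegree ≤ 2 * d := by
  refine natDegree_sum_le_of_forall_le _ _ fun i _ => ?_
  refine (natDegree_C_mul_le _ _).trans ?_
  exact natDegree_pow_le_of_le 2 (hv i)

/-- a vector with entries of degree `< deg q`, not all zero, and without common factor,
on which the form is divisible by the irreducible polynomial `q` -/
theorem exists_good {q : L[X]} (hq : Irreducible q) (h : IsoMod w q) :
    ∃ v : ι → L[X], (∀ i, (v i).degree < q.degree) ∧ (∃ i, v i ≠ 0) ∧
      (∀ g : L[X], (∀ i, g ∣ v i) → IsUnit g) ∧ q ∣ ∑ i, C (w i) * v i ^ 2 := by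
  classical
  obtain ⟨v, ⟨i₀, hi₀⟩, hv⟩ := h
  -- reduce mod q
  set u : ι → L[X] := fun i => v i % q with hu
  have hq0 : q ≠ 0 := hq.ne_zero
  have hudvd : ∀ i, q ∣ v i - u i := fun i => by
    rw [hu]
    have h := EuclideanDomain.mod_eq_sub_mul_div (v i) q
    exact ⟨v i / q, by simp only [h]; ring⟩
  have hu0 : u i₀ ≠ 0 := by
    intro h0
    exact hi₀ (EuclideanDomain.mod_eq_zero.1 h0)
  have hudeg : ∀ i, (u i).degree < q.degree := fun i => EuclideanDomain.mod_lt _ hq0
  have hsum : q ∣ ∑ i, C (w i) * u i ^ 2 := by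
    have h1 : q ∣ ∑ i, C (w i) * v i ^ 2 - ∑ i, C (w i) * u i ^ 2 := by
      rw [← Finset.sum_sub_distrib]
      refine Finset.dvd_sum fun i _ => ?_
      have : C (w i) * v i ^ 2 - C (w i) * u i ^ 2 = C (w i) * (v i + u i) * (v i - u i) := by ring
      rw [this]
      exact (hudvd i).mul_left _
    exact (dvd_sub_right hv).1 h1
  -- divide by the gcd
  obtain ⟨u', hu', hgcd⟩ := Finset.extract_gcd u (s := Finset.univ) ⟨i₀, Finset.mem_univ _⟩
  set g := Finset.univ.gcd u with hg
  have hg0 : g ≠ 0 := by
    intro h0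
    rw [Finset.gcd_eq_zero_iff] at h0
    exact hu0 (h0 i₀ (Finset.mem_univ _))
  have hu'' : ∀ i, u i = g * u' i := fun i => hu' i (Finset.mem_univ _)
  have hu'i₀ : u' i₀ ≠ 0 := by
    intro h0
    apply hu0
    rw [hu'', h0, mul_zero]
  refine ⟨u', ?_, ⟨i₀, hu'i₀⟩, ?_, ?_⟩
  · intro i
    by_cases h0 : u' i = 0
    · rw [h0, degree_zero]
      exact bot_lt_iff_ne_bot.2 (degree_eq_bot.not.2 hq0)
    · refine lt_of_le_of_lt ?_ (hudeg i)
      rw [hu'', degree_mul]
      exact le_add_of_nonneg_left (zero_le_degree_iff.2 hg0)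
  · intro a ha
    have : a ∣ Finset.univ.gcd u' := Finset.dvd_gcd fun i _ => ha i
    rw [hgcd] at this
    exact isUnit_of_dvd_one this
  · have h2 : ∑ i, C (w i) * u i ^ 2 = g ^ 2 * ∑ i, C (w i) * u' i ^ 2 := by
      rw [Finset.mul_sum]
      refine Finset.sum_congr rfl fun i _ => ?_
      rw [hu'']
      ring
    rw [h2] at hsum
    rcases hq.prime.dvd_or_dvd hsum with h3 | h3
    · exfalso
      have h4 : q ∣ g := hq.prime.dvd_of_dvd_pow h3
      have h5 : q.degree ≤ (u i₀).degree := degree_le_of_dvd (h4.trans ⟨_, hu'' i₀⟩) hu0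
      exact absurd (hudeg i₀) (not_lt.2 h5)
    · exact h3

theorem NP (h0 : Aniso w) (h1 : Rep w 1)
    (hm : MulC w) (p : L[X]) (hp : p.Monic)
    (hq : ∀ q : L[X], Irreducible q → q ∣ p → IsoMod w q) (c : L) (hc : p.eval c ≠ 0) :
    Rep w (p.eval c) := by
  classical
  induction hd : p.natDegree using Nat.strong_induction_on generalizing p with
  | _ d ih =>
    by_cases hu : IsUnit p
    · rw [hp.eq_one_of_isUnit hu, eval_one]
      exact h1
    by_cases hirr : Irreducible p
    · -- irreducible case
      obtain ⟨v, hvdeg, ⟨i₀, hi₀⟩, hvg, hpv⟩ := exists_good w hirr (hq p hirr dvd_rfl)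
      -- the maximal degree
      obtain ⟨i₁, -, hi₁⟩ := Finset.exists_max_image Finset.univ (fun i => (v i).natDegree)
        ⟨i₀, Finset.mem_univ _⟩
      set e := (v i₁).natDegree with he
      have hle : ∀ i, (v i).natDegree ≤ e := fun i => hi₁ i (Finset.mem_univ _)
      have hv1 : v i₁ ≠ 0 := by
        intro h
        have h3 : e = 0 := by rw [he, h, natDegree_zero]
        -- all entries are constants; choose v i₀ instead
        have h4 : (v i₀).natDegree = 0 := by have := hle i₀; omega
        -- v i₀ is a nonzero constant: then e=0 and value is a nonzero constant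
        have h5 : ∀ i, (v i) = C ((v i).coeff 0) := fun i =>
          eq_C_of_natDegree_eq_zero (by have := hle i; omega)
        have h6 : ∑ i, C (w i) * v i ^ 2 = C (∑ i, w i * (v i).coeff 0 ^ 2) := by
          rw [map_sum]
          refine Finset.sum_congr rfl fun i _ => ?_
          conv_lhs => rw [h5 i]
          simp
        have h7 : ∑ i, w i * (v i).coeff 0 ^ 2 ≠ 0 := by
          intro h8
          have h9 := congrFun (h0 _ h8) i₀
          simp only [Pi.zero_apply] at h9
          apply hi₀
          rw [h5 i₀, h9, C_0]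
        rw [h6] at hpv
        exact hirr.not_isUnit (isUnit_of_dvd_unit hpv (isUnit_C.2 (isUnit_iff_ne_zero.2 h7)))
      have hcoef : (∑ i, C (w i) * v i ^ 2).coeff (2 * e) = ∑ i, w i * (v i).coeff e ^ 2 :=
        coeff_form w v e hle
      have hlead : ∑ i, w i * (v i).coeff e ^ 2 ≠ 0 := by
        intro h
        have h3 := congrFun (h0 _ h) i₁
        simp only [Pi.zero_apply] at h3
        rw [he, coeff_natDegree, leadingCoeff_eq_zero] at h3
        exact hv1 h3
      have hform : (∑ i, C (w i) * v i ^ 2) ≠ 0 := by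
        intro h
        apply hlead
        rw [← hcoef, h, coeff_zero]
      have hnat : (∑ i, C (w i) * v i ^ 2).natDegree = 2 * e := by
        apply le_antisymm (natDegree_form_le w v e hle)
        apply le_natDegree_of_ne_zero
        rw [hcoef]
        exact hlead
      have hlc : (∑ i, C (w i) * v i ^ 2).leadingCoeff = ∑ i, w i * (v i).coeff e ^ 2 := by
        rw [leadingCoeff, hnat, hcoef]
      have hed : e < d := by
        rw [← hd]
        have h3 := hvdeg i₁
        exact natDegree_lt_natDegree hv1 h3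
      obtain ⟨h, hh⟩ := hpv
      have hh0 : h ≠ 0 := by
        rintro rfl
        exact hform (by rw [hh, mul_zero])
      have hlch : h.leadingCoeff = ∑ i, w i * (v i).coeff e ^ 2 := by
        rw [← hlc, hh, leadingCoeff_mul, hp.leadingCoeff, one_mul]
      have hdeg : h.natDegree < d := by
        have h3 := congrArg natDegree hh
        rw [hnat, natDegree_mul hp.ne_zero hh0, hd] at h3
        omega
      set lam := h.leadingCoeff with hlam
      have hlam0 : lam ≠ 0 := leadingCoeff_ne_zero.2 hh0
      have hlamR : Rep w lam := by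
        rw [hlch]
        exact ⟨fun i => (v i).coeff e, rfl⟩
      -- monic version
      set h' := C (lam⁻¹) * h with hh'
      have hh'm : h'.Monic := by
        rw [Monic, hh', leadingCoeff_mul, leadingCoeff_C]
        exact inv_mul_cancel₀ hlam0
      have hh'd : h'.natDegree = h.natDegree := by
        rw [hh', natDegree_C_mul (inv_ne_zero hlam0)]
      have hhh' : h = C lam * h' := by
        rw [hh', ← mul_assoc, ← C_mul, mul_inv_cancel₀ hlam0, C_1, one_mul]
      have hiso : ∀ q : L[X], Irreducible q → q ∣ h' → IsoMod w q := by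
        intro q hq1 hq2
        refine ⟨v, ?_, ?_⟩
        · by_contra hcon
          push Not at hcon
          exact hq1.not_isUnit (hvg q hcon)
        · rw [hh, hhh']
          exact (hq2.mul_left _).mul_left _
      have heval : p.eval c * (lam * h'.eval c) = ∑ i, w i * ((v i).eval c) ^ 2 := by
        have h3 := congrArg (eval c) hh
        rw [eval_mul, hhh', eval_mul, eval_C, eval_finsetSum] at h3
        rw [← h3]
        refine Finset.sum_congr rfl fun i _ => ?_
        rw [eval_mul, eval_C, eval_pow]
      by_cases hc' : h'.eval c = 0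
      · -- then `X - C c` divides `h'`, contradiction to anisotropy
        exfalso
        have h3 : (X - C c) ∣ h' := dvd_iff_isRoot.2 hc'
        obtain ⟨u, ⟨i, hi⟩, hu⟩ := hiso (X - C c) (irreducible_X_sub_C c) h3
        have h4 : ∑ i, w i * ((u i).eval c) ^ 2 = 0 := by
          have h5 := (dvd_iff_isRoot.1 hu)
          rw [IsRoot, eval_finsetSum] at h5
          rw [← h5]
          refine Finset.sum_congr rfl fun i _ => ?_
          rw [eval_mul, eval_C, eval_pow]
        have h5 := congrFun (h0 _ h4) i
        exact hi (dvd_iff_isRoot.2 h5)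
      · have h3 : Rep w (h'.eval c) :=
          ih h'.natDegree (by rw [hh'd]; exact hdeg) h' hh'm hiso hc' rfl
        have h4 : Rep w (p.eval c * (lam * h'.eval c)) := ⟨fun i => (v i).eval c, heval.symm⟩
        have h5 := Rep_div w hm h4 (hm _ _ hlamR h3)
        convert h5 using 1
        field_simp
    · -- reducible case
      obtain ⟨a, b, hab, hna, hnb⟩ : ∃ a b : L[X], p = a * b ∧ ¬ IsUnit a ∧ ¬ IsUnit b := by
        by_contra hcon
        push Not at hcon
        exact hirr ⟨hu, fun a b hab => by
          by_cases ha : IsUnit a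
          · exact Or.inl ha
          · exact Or.inr (hcon a b hab ha)⟩
      have hp0 : p ≠ 0 := hp.ne_zero
      have ha0 : a ≠ 0 := by rintro rfl; exact hp0 (by rw [hab, zero_mul])
      have hb0 : b ≠ 0 := by rintro rfl; exact hp0 (by rw [hab, mul_zero])
      have hlab : a.leadingCoeff * b.leadingCoeff = 1 := by
        rw [← leadingCoeff_mul, ← hab, hp.leadingCoeff]
      have hla : a.leadingCoeff ≠ 0 := leadingCoeff_ne_zero.2 ha0
      have hlb : b.leadingCoeff ≠ 0 := leadingCoeff_ne_zero.2 hb0
      set a' := C (a.leadingCoeff⁻¹) * a with ha'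
      set b' := C (b.leadingCoeff⁻¹) * b with hb'
      have ham : a'.Monic := by
        rw [Monic, ha', leadingCoeff_mul, leadingCoeff_C]
        exact inv_mul_cancel₀ hla
      have hbm : b'.Monic := by
        rw [Monic, hb', leadingCoeff_mul, leadingCoeff_C]
        exact inv_mul_cancel₀ hlb
      have hpab : p = a' * b' := by
        have h3 : a' * b' = C (a.leadingCoeff⁻¹ * b.leadingCoeff⁻¹) * (a * b) := by
          rw [ha', hb', C_mul]; ring
        rw [h3, ← hab, ← mul_inv, hlab, inv_one, C_1, one_mul]
      have hda : 0 < a.natDegree := Nat.pos_of_ne_zero fun h => hna (by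
        rw [eq_C_of_natDegree_eq_zero h]
        refine isUnit_C.2 (isUnit_iff_ne_zero.2 fun h' => ha0 ?_)
        rw [eq_C_of_natDegree_eq_zero h, h', C_0])
      have hdb : 0 < b.natDegree := Nat.pos_of_ne_zero fun h => hnb (by
        rw [eq_C_of_natDegree_eq_zero h]
        refine isUnit_C.2 (isUnit_iff_ne_zero.2 fun h' => hb0 ?_)
        rw [eq_C_of_natDegree_eq_zero h, h', C_0])
      have hdab : a.natDegree + b.natDegree = d := by
        rw [← hd, hab, natDegree_mul ha0 hb0]
      have hda' : a'.natDegree = a.natDegree := by rw [ha', natDegree_C_mul (inv_ne_zero hla)]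
      have hdb' : b'.natDegree = b.natDegree := by rw [hb', natDegree_C_mul (inv_ne_zero hlb)]
      have hce : a'.eval c * b'.eval c ≠ 0 := by rw [← eval_mul, ← hpab]; exact hc
      have r1 := ih a'.natDegree (by omega) a' ham
        (fun q h1 h2 => hq q h1 (by rw [hpab]; exact h2.mul_right _)) (left_ne_zero_of_mul hce) rfl
      have r2 := ih b'.natDegree (by omega) b' hbm
        (fun q h1 h2 => hq q h1 (by rw [hpab]; exact h2.mul_left _)) (right_ne_zero_of_mul hce) rfl
      rw [hpab, eval_mul]
      exact hm _ _ r1 r2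

end NP

end Pool.Agent.PDF
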