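import Pool.Agent.PDF.Defs

/-!
# PDF, row GE: generic parameters
-/

set_option autoImplicit false

namespace Pool.Agent.PDF

open Polynomial

namespace GEaux

variable {Ω : Type} [Field Ω]

omit [Field Ω] in
theorem mem_sub {R S : Multiset Ω} {m : ℕ} : S ∈ sub R m ↔ S ≤ R ∧ S.card = m := by
  simp only [sub, Multiset.mem_toFinset, Multiset.mem_powersetCard]

/-- the polynomial `∑_{z ∈ S} (Y + z) ^ n` -/
noncomputable def QQ (n : ℕ) (S : Multiset Ω) : Polynomial Ω :=
  (S.map (fun z => (X + C z) ^ n)).sum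

theorem QQ_eval (n : ℕ) (S : Multiset Ω) (y : Ω) :
    (QQ n S).eval y = (S.map (fun z => (y + z) ^ n)).sum := by
  unfold QQ
  induction S using Multiset.induction_on with
  | empty => simp
  | cons a S ih =>
    simp only [Multiset.map_cons, Multiset.sum_cons, eval_add, ih]
    simp

theorem QQ_coeff (n : ℕ) (S : Multiset Ω) (k : ℕ) :
    (QQ n S).coeff k = (S.map (fun z => z ^ (n - k))).sum * (n.choose k : Ω) := by
  unfold QQ
  induction S using Multiset.induction_on with
  | empty => simp
  | cons a S ih =>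
    simp only [Multiset.map_cons, Multiset.sum_cons, coeff_add, ih, coeff_X_add_C_pow]
    ring

theorem psum_eq [CharZero Ω] {n : ℕ} {S T : Multiset Ω} (h : QQ n S = QQ n T) (j : ℕ)
    (hj : j ≤ n) : (S.map (fun z => z ^ j)).sum = (T.map (fun z => z ^ j)).sum := by
  have h1 : (QQ n S).coeff (n - j) = (QQ n T).coeff (n - j) := by rw [h]
  rw [QQ_coeff, QQ_coeff, Nat.sub_sub_self hj] at h1
  have h2 : ((n.choose (n - j) : ℕ) : Ω) ≠ 0 := by
    have := Nat.choose_pos (n := n) (k := n - j) (Nat.sub_le _ _)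
    exact_mod_cast this.ne'
  exact mul_right_cancel₀ h2 h1

theorem sum_eval (q : Polynomial Ω) (n : ℕ) (hq : q.natDegree ≤ n) (S : Multiset Ω) :
    (S.map (fun z => q.eval z)).sum =
      ∑ j ∈ Finset.range (n + 1), q.coeff j * (S.map (fun z => z ^ j)).sum := by
  induction S using Multiset.induction_on with
  | empty => simp
  | cons a S ih =>
    simp only [Multiset.map_cons, Multiset.sum_cons, ih, mul_add, Finset.sum_add_distrib]
    rw [eval_eq_sum_range' (Nat.lt_succ_of_le hq)]

theorem eq_of_QQ [CharZero Ω] {m : ℕ} {S T : Multiset Ω} (hS : S.card = m) (hT : T.card = m)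
    (h : QQ (2 * m) S = QQ (2 * m) T) : S = T := by
  classical
  ext w
  set U : Finset Ω := (S + T).toFinset with hU
  by_cases hw : w ∈ U
  · have hcard : U.card ≤ 2 * m := by
      refine (Multiset.toFinset_card_le _).trans ?_
      rw [Multiset.card_add, hS, hT]
      omega
    have hinj : Set.InjOn (id : Ω → Ω) (U : Set Ω) := fun a _ b _ h => h
    set q : Polynomial Ω := Lagrange.basis U id w with hq
    have hdeg : q.natDegree ≤ 2 * m := by
      have h1 : q.degree = ((U.card - 1 : ℕ) : WithBot ℕ) := Lagrange.degree_basis hinj hw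
      have h2 : q.natDegree = U.card - 1 := natDegree_eq_of_degree_eq_some h1
      omega
    have hev : ∀ z ∈ U, q.eval z = if z = w then 1 else 0 := by
      intro z hz
      split_ifs with h0
      · subst h0
        exact Lagrange.eval_basis_self hinj hw
      · exact Lagrange.eval_basis_of_ne (v := id) (Ne.symm h0) hz
    have key : ∀ W : Multiset Ω, (∀ z ∈ W, z ∈ U) →
        (W.map (fun z => q.eval z)).sum = (W.count w : Ω) := by
      intro W
      induction W using Multiset.induction_on with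
      | empty => intro _; simp
      | cons a W ih =>
        intro hW
        rw [Multiset.map_cons, Multiset.sum_cons, ih (fun z hz => hW z (Multiset.mem_cons_of_mem hz)),
          hev a (hW a (Multiset.mem_cons_self a W)), Multiset.count_cons]
        by_cases h0 : a = w
        · simp [h0, add_comm]
        · simp [h0, Ne.symm h0]
    have h1 := key S (fun z hz => by simp [hU, hz])
    have h2 := key T (fun z hz => by simp [hU, hz])
    rw [sum_eval q (2 * m) hdeg] at h1 h2
    have h3 : (S.count w : Ω) = (T.count w : Ω) := by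
      rw [← h1, ← h2]
      refine Finset.sum_congr rfl fun j hj => ?_
      rw [psum_eq h j (by have := Finset.mem_range.1 hj; omega)]
    exact_mod_cast h3
  · have h1 : w ∉ S := fun h => hw (by simp [hU, h])
    have h2 : w ∉ T := fun h => hw (by simp [hU, h])
    rw [Multiset.count_eq_zero_of_notMem h1, Multiset.count_eq_zero_of_notMem h2]

theorem exists_nat [CharZero Ω] (P : Polynomial Ω) (hP : P ≠ 0) (N₀ : ℕ) :
    ∃ y : ℕ, N₀ ≤ y ∧ P.eval (y : Ω) ≠ 0 := by
  by_contra hcon
  push Not at hcon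
  apply hP
  apply Polynomial.eq_zero_of_infinite_isRoot
  have hinj : Function.Injective (fun j : ℕ => ((N₀ + j : ℕ) : Ω)) := by
    intro a b hab
    have h1 : ((N₀ + a : ℕ) : Ω) = ((N₀ + b : ℕ) : Ω) := hab
    have : N₀ + a = N₀ + b := Nat.cast_injective h1
    omega
  exact Set.infinite_of_injective_forall_mem hinj
    (fun j => hcon (N₀ + j) (Nat.le_add_right _ _))

end GEaux

open GEaux in
theorem GE {Ω : Type} [Field Ω] [CharZero Ω] (R : Multiset Ω) (m : ℕ) (hR : R.card = 2 * m) :
    ∃ y : ℕ, ∀ (Ψ₀ : Ω → Ω) (ρ : Ω), ρ ≠ 0 → ∀ N₀ : ℕ, ∃ N ≥ N₀, 0 < N ∧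
      ∀ S ∈ sub R m, ∀ T ∈ sub R m,
        kap R (fun z => Ψ₀ z + ((y : Ω) + z) ^ (2 * m) * ρ / N) S =
          kap R (fun z => Ψ₀ z + ((y : Ω) + z) ^ (2 * m) * ρ / N) T → S = T := by
  classical
  have _h := hR
  set P : Polynomial Ω := ∏ p ∈ (sub R m ×ˢ sub R m).filter (fun p => p.1 ≠ p.2),
    (QQ (2 * m) p.1 - QQ (2 * m) p.2) with hP
  have hP0 : P ≠ 0 := by
    rw [hP, Finset.prod_ne_zero_iff]
    rintro ⟨S, T⟩ hp
    simp only [Finset.mem_filter, Finset.mem_product, mem_sub] at hp
    intro h0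
    exact hp.2 (eq_of_QQ hp.1.1.2 hp.1.2.2 (sub_eq_zero.1 h0))
  obtain ⟨y, -, hy⟩ := exists_nat P hP0 0
  refine ⟨y, fun Ψ₀ ρ hρ N₀ => ?_⟩
  set L : Polynomial Ω := X * ∏ p ∈ (sub R m ×ˢ sub R m).filter (fun p => p.1 ≠ p.2),
    (C ((p.1.map Ψ₀).sum - (p.2.map Ψ₀).sum) * X +
      C (((QQ (2 * m) p.1).eval (y : Ω) - (QQ (2 * m) p.2).eval (y : Ω)) * ρ)) with hL
  have hL0 : L ≠ 0 := by
    rw [hL]
    refine mul_ne_zero X_ne_zero ?_
    rw [Finset.prod_ne_zero_iff]
    intro p hp h0
    have h1 := congrArg (fun q : Polynomial Ω => q.coeff 0) h0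
    simp only [coeff_add, mul_coeff_zero, coeff_C_zero, coeff_X_zero, mul_zero, zero_add,
      coeff_zero] at h1
    rcases mul_eq_zero.1 h1 with h2 | h2
    · apply hy
      rw [hP, eval_prod]
      refine Finset.prod_eq_zero hp ?_
      rw [eval_sub, h2]
    · exact hρ h2
  obtain ⟨N, hN, hNe⟩ := exists_nat L hL0 N₀
  have hN0 : (N : Ω) ≠ 0 := by
    intro h0
    apply hNe
    rw [hL, eval_mul, eval_X, h0, zero_mul]
  refine ⟨N, hN, Nat.pos_of_ne_zero (fun h => hN0 (by simp [h])), fun S hS T hT h => ?_⟩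
  by_contra hST
  apply hNe
  rw [hL, eval_mul, eval_prod]
  refine mul_eq_zero_of_right _ (Finset.prod_eq_zero (i := (S, T)) ?_ ?_)
  · simp only [Finset.mem_filter, Finset.mem_product]
    exact ⟨⟨hS, hT⟩, hST⟩
  · have hsum : ∀ W : Multiset Ω,
        (W.map (fun z => Ψ₀ z + ((y : Ω) + z) ^ (2 * m) * ρ / N)).sum =
          (W.map Ψ₀).sum + (QQ (2 * m) W).eval (y : Ω) * ρ / N := by
      intro W
      rw [QQ_eval]
      induction W using Multiset.induction_on with
      | empty => simp
      | cons a W ih =>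
        simp only [Multiset.map_cons, Multiset.sum_cons, ih]
        ring
    unfold kap at h
    rw [hsum, hsum, hsum] at h
    simp only [eval_add, eval_mul, eval_C, eval_X]
    have h1 : (S.map Ψ₀).sum + (QQ (2 * m) S).eval (y : Ω) * ρ / N =
        (T.map Ψ₀).sum + (QQ (2 * m) T).eval (y : Ω) * ρ / N := by
      linear_combination h
    field_simp at h1
    linear_combination h1

end Pool.Agent.PDF
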