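import Pool.Agent.PDF.Defs

/-!
# Row PL: a place of an algebraic extension which extends the standard part (MP_b906c2_al)
-/

set_option autoImplicit false

namespace Pool.Agent.PDF

open Polynomial IsLocalRing

namespace PLaux

variable {k : Type} [Field k] [LinearOrder k] [IsStrictOrderedRing k]

instance isLocalRing_fin : IsLocalRing (ArchimedeanClass.FiniteElement k) :=
  (ArchimedeanClass.addValuation k).toValuation.valuationSubring.isLocalRing

/-- inclusion of the finite elements -/
def vl : ArchimedeanClass.FiniteElement k →+* k where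
  toFun x := x.1
  map_one' := rfl
  map_zero' := rfl
  map_mul' _ _ := rfl
  map_add' _ _ := rfl

/-- standard part as a ring homomorphism -/
noncomputable def sp : ArchimedeanClass.FiniteElement k →+* ℝ where
  toFun x := ArchimedeanClass.stdPart x.1
  map_one' := ArchimedeanClass.stdPart_one
  map_zero' := ArchimedeanClass.stdPart_zero
  map_mul' x y := ArchimedeanClass.stdPart_mul x.2 y.2
  map_add' x y := ArchimedeanClass.stdPart_add x.2 y.2

instance : IsLocalHom (sp (k := k)) where
  map_nonunit x hx := by
    rw [ArchimedeanClass.FiniteElement.isUnit_iff_mk_eq_zero]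
    by_contra h
    have h1 : sp x = 0 := ArchimedeanClass.stdPart_eq_zero.2 h
    rw [h1] at hx
    exact not_isUnit_zero hx

/-- a nonzero polynomial can be scaled so that it has finite coefficients, not all infinitesimal -/
theorem scale (p : k[X]) (hp : p ≠ 0) :
    ∃ (c : k) (q : (ArchimedeanClass.FiniteElement k)[X]) (j : ℕ), c ≠ 0 ∧
      q.map vl = C c * p ∧ q.coeff j = 1 := by
  classical
  obtain ⟨j, hj, hmin⟩ := Finset.exists_min_image p.support
    (fun i => ArchimedeanClass.mk (p.coeff i)) (by simpa using hp)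
  have hc : p.coeff j ≠ 0 := by simpa using hj
  have hfin : ∀ i, 0 ≤ ArchimedeanClass.mk ((p.coeff j)⁻¹ * p.coeff i) := by
    intro i
    by_cases hi : p.coeff i = 0
    · rw [hi, mul_zero]
      simp
    · have h1 := hmin i (by simpa using hi)
      have h2 : ArchimedeanClass.mk ((p.coeff j)⁻¹ * p.coeff j)
          ≤ ArchimedeanClass.mk ((p.coeff j)⁻¹ * p.coeff i) := by
        rw [ArchimedeanClass.mk_mul, ArchimedeanClass.mk_mul]
        exact add_le_add_right h1 _
      rw [inv_mul_cancel₀ hc, ArchimedeanClass.mk_one] at h2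
      exact h2
  set q : (ArchimedeanClass.FiniteElement k)[X] :=
    ∑ i ∈ Finset.range (p.natDegree + 1),
      monomial i (ArchimedeanClass.FiniteElement.mk _ (hfin i)) with hq
  have hcoeff : ∀ i, vl (q.coeff i) = (p.coeff j)⁻¹ * p.coeff i := by
    intro i
    rw [hq, finsetSum_coeff]
    simp only [coeff_monomial]
    by_cases hi : i ∈ Finset.range (p.natDegree + 1)
    · rw [Finset.sum_ite_eq' _ i, if_pos hi]
      rfl
    · have h0 : p.coeff i = 0 := by
        apply coeff_eq_zero_of_natDegree_lt
        simpa using hi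
      rw [Finset.sum_ite_eq' _ i, if_neg hi, h0]
      simp
  refine ⟨(p.coeff j)⁻¹, q, j, inv_ne_zero hc, ?_, ?_⟩
  · ext i
    rw [coeff_map, hcoeff, coeff_C_mul]
  · apply Subtype.ext
    have := hcoeff j
    rw [inv_mul_cancel₀ hc] at this
    exact this

end PLaux

open PLaux in
theorem PL {k E : Type} [Field k] [LinearOrder k] [IsStrictOrderedRing k] [Field E] [Algebra k E]
    [Algebra.IsAlgebraic k E] :
    ∃ (V : Subring E) (Φ : V →+* ℂ),
      (∀ x : k, 0 ≤ ArchimedeanClass.mk x →
        ∃ h : algebraMap k E x ∈ V, Φ ⟨_, h⟩ = (ArchimedeanClass.stdPart x : ℂ)) ∧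
      (∀ (x : E) (hx : x ∈ V), Φ ⟨x, hx⟩ ≠ 0 → x⁻¹ ∈ V) ∧
      (∀ (x : E) (p : k[X]), p.Monic → (∀ i, 0 ≤ ArchimedeanClass.mk (p.coeff i)) →
        aeval x p = 0 → x ∈ V) ∧
      (∀ (x : k) (h : algebraMap k E x ∈ V), (Φ ⟨_, h⟩).re < 0 → x < 0) := by
  classical
  obtain ⟨B, hB, hloc⟩ := IsLocalRing.exists_factor_valuationRing
    ((algebraMap k E).comp (vl (k := k)))
  set g : ArchimedeanClass.FiniteElement k →+* B.toSubring :=
    ((algebraMap k E).comp (vl (k := k))).codRestrict B.toSubring hB with hg
  have : IsLocalRing B.toSubring := B.isLocalRing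
  have : IsLocalHom g := hloc
  have hgval : ∀ x, (g x : E) = algebraMap k E x.1 := fun x => rfl
  let alg1 : Algebra (ResidueField (ArchimedeanClass.FiniteElement k))
      (ResidueField B.toSubring) := (ResidueField.map g).toAlgebra
  let alg2 : Algebra (ResidueField (ArchimedeanClass.FiniteElement k)) ℂ :=
    (Complex.ofRealHom.comp (ResidueField.lift (sp (k := k)))).toAlgebra
  have halg : Algebra.IsAlgebraic (ResidueField (ArchimedeanClass.FiniteElement k))
      (ResidueField B.toSubring) := by
    refine ⟨fun z => ?_⟩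
    obtain ⟨b, rfl⟩ := residue_surjective z
    obtain ⟨p, hp, hpb⟩ := Algebra.IsAlgebraic.isAlgebraic (R := k) (b : E)
    obtain ⟨c, q, j, hc, hq, hqj⟩ := scale p hp
    refine ⟨q.map (residue _), ?_, ?_⟩
    · intro h
      have h1 := congrArg (fun P => P.coeff j) h
      simp only [coeff_map, hqj, map_one, coeff_zero] at h1
      exact one_ne_zero h1
    · have h1 : q.eval₂ g b = 0 := by
        apply Subtype.ext
        have h2 : (B.toSubring.subtype) (q.eval₂ g b) = 0 := by
          rw [hom_eval₂]
          have h3 : (B.toSubring.subtype).comp g = (algebraMap k E).comp vl := rfl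
          rw [h3, ← eval₂_map, hq, eval₂_mul, eval₂_C]
          rw [aeval_def] at hpb
          rw [show (B.toSubring.subtype b) = (b : E) from rfl, hpb, mul_zero]
        exact h2
      rw [aeval_def, eval₂_map]
      have h4 : (algebraMap (ResidueField (ArchimedeanClass.FiniteElement k))
          (ResidueField B.toSubring)).comp (residue (ArchimedeanClass.FiniteElement k))
          = (residue B.toSubring).comp g := by
        ext x
        exact ResidueField.map_residue g x
      rw [h4, ← hom_eval₂, h1, map_zero]
  have := halg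
  let Λ : ResidueField B.toSubring →ₐ[ResidueField (ArchimedeanClass.FiniteElement k)] ℂ :=
    IsAlgClosed.lift
  let Φ : B.toSubring →+* ℂ := (Λ : ResidueField B.toSubring →+* ℂ).comp (residue B.toSubring)
  have hΦ : ∀ x : ArchimedeanClass.FiniteElement k,
      Φ (g x) = (ArchimedeanClass.stdPart x.1 : ℂ) := by
    intro x
    have h1 : residue B.toSubring (g x) =
        algebraMap (ResidueField (ArchimedeanClass.FiniteElement k)) (ResidueField B.toSubring)
          (residue _ x) := (ResidueField.map_residue g x).symm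
    show Λ (residue B.toSubring (g x)) = _
    rw [h1, AlgHom.commutes]
    rfl
  refine ⟨B.toSubring, Φ, ?_, ?_, ?_, ?_⟩
  · intro x hx
    exact ⟨hB ⟨x, hx⟩, hΦ ⟨x, hx⟩⟩
  · intro x hx h
    have h1 : residue B.toSubring ⟨x, hx⟩ ≠ 0 := by
      intro h0
      apply h
      show Λ (residue B.toSubring ⟨x, hx⟩) = 0
      rw [h0, map_zero]
    rw [residue_ne_zero_iff_isUnit] at h1
    obtain ⟨y, hy⟩ := h1.exists_right_inv
    have h2 : x * (y : E) = 1 := congrArg Subtype.val hy
    rw [inv_eq_of_mul_eq_one_right h2]
    exact y.2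
  · intro x p hp hcoef hx
    have hcs : (↑(p.map (algebraMap k E)).coeffs : Set E) ⊆ B.toSubring := by
      intro y hy
      rw [Finset.mem_coe, mem_coeffs_iff] at hy
      obtain ⟨i, -, rfl⟩ := hy
      rw [coeff_map]
      exact hB ⟨p.coeff i, hcoef i⟩
    have hint : IsIntegral B x := by
      refine ⟨(p.map (algebraMap k E)).toSubring B.toSubring hcs, ?_, ?_⟩
      · exact (monic_toSubring _ _ hcs).2 (hp.map _)
      · have h1 := map_toSubring (p.map (algebraMap k E)) B.toSubring hcs
        have h2 : eval₂ (algebraMap B E) x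
            ((p.map (algebraMap k E)).toSubring B.toSubring hcs)
            = eval x (((p.map (algebraMap k E)).toSubring B.toSubring hcs).map
              B.toSubring.subtype) := by
          rw [eval_map]
          rfl
        rw [h2, h1, eval_map, ← aeval_def, hx]
    obtain ⟨y, hy⟩ := IsIntegrallyClosed.isIntegral_iff.1 hint
    rw [← hy]
    exact y.2
  · intro x h hre
    by_contra hneg
    rw [not_lt] at hneg
    by_cases hfin : 0 ≤ ArchimedeanClass.mk x
    · have h1 := hΦ ⟨x, hfin⟩
      have h2 : (⟨algebraMap k E x, h⟩ : B.toSubring) = g ⟨x, hfin⟩ := rfl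
      rw [h2, h1, Complex.ofReal_re] at hre
      exact absurd (ArchimedeanClass.stdPart_nonneg hneg) (not_le.2 hre)
    · rw [not_le] at hfin
      have hx0 : x ≠ 0 := by
        rintro rfl
        simp at hfin
      have h1 : 0 < ArchimedeanClass.mk x⁻¹ := by
        by_contra hcon
        rw [not_lt] at hcon
        have h2 : ArchimedeanClass.mk (x⁻¹ * x) < 0 := by
          rw [ArchimedeanClass.mk_mul]
          calc ArchimedeanClass.mk x⁻¹ + ArchimedeanClass.mk x
              ≤ 0 + ArchimedeanClass.mk x := add_le_add_left hcon _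
            _ = ArchimedeanClass.mk x := zero_add _
            _ < 0 := hfin
        rw [inv_mul_cancel₀ hx0, ArchimedeanClass.mk_one] at h2
        exact lt_irrefl _ h2
      have h2 : ¬ IsUnit (⟨x⁻¹, h1.le⟩ : ArchimedeanClass.FiniteElement k) :=
        ArchimedeanClass.FiniteElement.not_isUnit_iff_mk_pos.2 h1
      apply h2
      apply isUnit_of_map_unit g
      refine IsUnit.of_mul_eq_one ⟨algebraMap k E x, h⟩ ?_
      apply Subtype.ext
      show algebraMap k E x⁻¹ * algebraMap k E x = 1
      rw [← map_mul, inv_mul_cancel₀ hx0, map_one]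

end Pool.Agent.PDF
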