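import Pool.Agent.PDF.Defs

set_option autoImplicit false

namespace Pool.Agent.PDF.Rows

open Polynomial Pool.Agent.PDF

/-! ## RE: compactness -/

namespace REaux

theorem eval_smul {σ S : Type} [CommRing S] [Fintype σ] (g : MvPolynomial σ S) (d : ℕ)
    (hg : g.IsHomogeneous d) (c : S) (x : σ → S) :
    MvPolynomial.eval (fun i => c * x i) g = c ^ d * MvPolynomial.eval x g := by
  classical
  rw [MvPolynomial.eval_eq', MvPolynomial.eval_eq', Finset.mul_sum]
  refine Finset.sum_congr rfl fun s hs => ?_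
  have h1 : ∑ i, s i = d := by
    have h := hg (MvPolynomial.mem_support_iff.mp hs)
    rw [← h, Finsupp.weight_apply, Finsupp.sum_fintype _ _ (by simp)]
    simp
  have h2 : ∏ i, (c * x i) ^ s i = c ^ d * ∏ i, x i ^ s i := by
    simp_rw [mul_pow]
    rw [Finset.prod_mul_distrib, Finset.prod_pow_eq_pow_sum, h1]
  rw [h2]; ring

theorem aeval_eq {σ : Type} (f : MvPolynomial σ ℝ) (x : σ → ℂ) :
    MvPolynomial.aeval x f = MvPolynomial.eval x (MvPolynomial.map (algebraMap ℝ ℂ) f) := by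
  rw [MvPolynomial.eval_map, MvPolynomial.aeval_def]

theorem aeval_real {σ : Type} (f : MvPolynomial σ ℝ) (x : σ → ℝ) :
    MvPolynomial.aeval (fun i => (x i : ℂ)) f = ((MvPolynomial.eval x f : ℝ) : ℂ) := by
  have h := MvPolynomial.aeval_algebraMap_apply (B := ℂ) x f
  have h2 : (algebraMap ℝ ℂ ∘ x) = fun i => (x i : ℂ) := rfl
  rw [h2] at h
  rw [h, MvPolynomial.aeval_eq_eval]
  rfl

end REaux

theorem RE (n m : ℕ) (f : MvPolynomial (Fin (n + 2)) ℝ) (hf : PD n m f) :
    ∃ δ R : ℝ, 0 < δ ∧ 0 < R ∧ ∀ (ω : Fin (n + 1) → ℝ) (u : ℂ), (∀ i, |ω i| ≤ 1) →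
      (∃ i, |ω i| = 1) →
      MvPolynomial.aeval (Fin.cons u (fun i => (ω i : ℂ)) : Fin (n + 2) → ℂ) f = 0 →
      δ ≤ |u.im| ∧ ‖u‖ ≤ R := by
  set g : MvPolynomial (Fin (n + 2)) ℂ := MvPolynomial.map (algebraMap ℝ ℂ) f with hg
  have hghom : g.IsHomogeneous (2 * m) := hf.hom.map _
  have hgc : Continuous fun x : Fin (n + 2) → ℂ => MvPolynomial.eval x g :=
    MvPolynomial.continuous_eval g
  have hg1 : MvPolynomial.eval (Fin.cons 1 (0 : Fin (n + 1) → ℂ) : Fin (n + 2) → ℂ) g = 1 := by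
    rw [hg, ← REaux.aeval_eq]
    have h := REaux.aeval_real f (Fin.cons 1 (0 : Fin (n + 1) → ℝ))
    rw [hf.monic] at h
    have h2 : (fun i => ((Fin.cons 1 (0 : Fin (n + 1) → ℝ) : Fin (n + 2) → ℝ) i : ℂ)) =
        (Fin.cons 1 (0 : Fin (n + 1) → ℂ) : Fin (n + 2) → ℂ) := by
      funext i
      refine Fin.cases ?_ (fun j => ?_) i <;> simp
    rw [h2] at h
    rw [h]; simp
  -- boundedness of the roots
  have hc1 : Continuous fun y : Fin (n + 1) → ℂ =>
      MvPolynomial.eval (Fin.cons 1 y : Fin (n + 2) → ℂ) g := by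
    refine hgc.comp ?_
    refine continuous_pi fun i => ?_
    refine Fin.cases ?_ (fun j => ?_) i
    · simp only [Fin.cons_zero]; exact continuous_const
    · simp only [Fin.cons_succ]; exact continuous_apply j
  have hne : ∀ᶠ y : Fin (n + 1) → ℂ in nhds 0,
      MvPolynomial.eval (Fin.cons 1 y : Fin (n + 2) → ℂ) g ≠ 0 :=
    hc1.continuousAt.eventually_ne (by rw [hg1]; exact one_ne_zero)
  obtain ⟨η, hη, hη2⟩ := Metric.eventually_nhds_iff.mp hne
  have hbound : ∀ (ω : Fin (n + 1) → ℝ) (u : ℂ), ‖ω‖ = 1 →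
      MvPolynomial.eval (Fin.cons u (fun i => (ω i : ℂ)) : Fin (n + 2) → ℂ) g = 0 →
      ‖u‖ ≤ 1 / η := by
    intro ω u hω hu
    by_contra hcon
    push Not at hcon
    have hu0 : u ≠ 0 := by
      intro h; rw [h, norm_zero] at hcon
      have : 0 < 1 / η := by positivity
      linarith
    have hun : 0 < ‖u‖ := norm_pos_iff.mpr hu0
    have h1 : (Fin.cons u (fun i => (ω i : ℂ)) : Fin (n + 2) → ℂ) =
        fun i => u * (Fin.cons 1 (fun i => u⁻¹ * (ω i : ℂ)) : Fin (n + 2) → ℂ) i := by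
      funext i
      refine Fin.cases ?_ (fun j => ?_) i
      · simp
      · simp only [Fin.cons_succ]
        field_simp
    rw [h1, REaux.eval_smul g (2 * m) hghom] at hu
    have h2 := (mul_eq_zero.mp hu).resolve_left (pow_ne_zero _ hu0)
    refine hη2 ?_ h2
    rw [dist_zero_right]
    have h3 : ‖fun i => u⁻¹ * (ω i : ℂ)‖ ≤ ‖u‖⁻¹ := by
      rw [pi_norm_le_iff_of_nonneg (by positivity)]
      intro i
      rw [norm_mul, norm_inv, Complex.norm_real]
      have h4 : ‖ω i‖ ≤ 1 := by rw [← hω]; exact norm_le_pi_norm ω i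
      calc ‖u‖⁻¹ * ‖ω i‖ ≤ ‖u‖⁻¹ * 1 := mul_le_mul_of_nonneg_left h4 (by positivity)
        _ = ‖u‖⁻¹ := mul_one _
    refine lt_of_le_of_lt h3 ?_
    rw [inv_lt_comm₀ hun hη]
    rwa [one_div] at hcon
  -- distance from the real line
  have hc2 : Continuous fun z : ℂ × (Fin (n + 1) → ℝ) =>
      MvPolynomial.eval (Fin.cons z.1 (fun i => (z.2 i : ℂ)) : Fin (n + 2) → ℂ) g := by
    refine hgc.comp ?_
    refine continuous_pi fun i => ?_
    refine Fin.cases ?_ (fun j => ?_) i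
    · simp only [Fin.cons_zero]; exact continuous_fst
    · simp only [Fin.cons_succ]
      exact Complex.continuous_ofReal.comp ((continuous_apply j).comp continuous_snd)
  set Z : Set (ℂ × (Fin (n + 1) → ℝ)) :=
    (Metric.closedBall (0 : ℂ) (1 / η) ×ˢ Metric.sphere (0 : Fin (n + 1) → ℝ) 1) ∩
      {z | MvPolynomial.eval (Fin.cons z.1 (fun i => (z.2 i : ℂ)) : Fin (n + 2) → ℂ) g = 0} with hZ
  have hZc : IsCompact Z :=
    ((isCompact_closedBall _ _).prod (isCompact_sphere _ _)).inter_right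
      (isClosed_singleton.preimage hc2)
  have hδ : ∃ δ : ℝ, 0 < δ ∧ ∀ z ∈ Z, δ ≤ |z.1.im| := by
    rcases Z.eq_empty_or_nonempty with h0 | h0
    · exact ⟨1, one_pos, fun z hz => by rw [h0] at hz; exact absurd hz (Set.notMem_empty z)⟩
    · have hcf : ContinuousOn (fun z : ℂ × (Fin (n + 1) → ℝ) => |z.1.im|) Z :=
        (continuous_abs.comp (Complex.continuous_im.comp continuous_fst)).continuousOn
      obtain ⟨z0, hz0, hmin⟩ := hZc.exists_isMinOn h0 hcf
      refine ⟨|z0.1.im|, ?_, fun z hz => hmin hz⟩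
      rw [abs_pos]
      intro him
      obtain ⟨⟨hz1, hz2⟩, hz3⟩ := hz0
      have h4 : z0.1 = ((z0.1.re : ℝ) : ℂ) := by
        apply Complex.ext <;> simp [him]
      have h5 : (Fin.cons z0.1 (fun i => (z0.2 i : ℂ)) : Fin (n + 2) → ℂ) =
          fun i => ((Fin.cons z0.1.re z0.2 : Fin (n + 2) → ℝ) i : ℂ) := by
        funext i
        refine Fin.cases ?_ (fun j => ?_) i
        · simp only [Fin.cons_zero]; exact h4
        · simp
      have h6 : MvPolynomial.eval (Fin.cons z0.1 (fun i => (z0.2 i : ℂ)) : Fin (n + 2) → ℂ) g = 0 :=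
        hz3
      rw [h5, hg, ← REaux.aeval_eq, REaux.aeval_real] at h6
      have h7 : MvPolynomial.eval (Fin.cons z0.1.re z0.2 : Fin (n + 2) → ℝ) f = 0 := by
        exact_mod_cast h6
      have h8 : (Fin.cons z0.1.re z0.2 : Fin (n + 2) → ℝ) ≠ 0 := by
        intro h
        have h9 : z0.2 = 0 := by
          funext j
          have := congrFun h j.succ
          simpa using this
        have hz2' : ‖z0.2‖ = 1 := by simpa using hz2
        rw [h9, norm_zero] at hz2'
        exact zero_ne_one hz2'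
      have := hf.pos _ h8
      linarith
  obtain ⟨δ, hδ0, hδ1⟩ := hδ
  refine ⟨δ, 1 / η, hδ0, by positivity, fun ω u h1 h2 h3 => ?_⟩
  have hω : ‖ω‖ = 1 := by
    apply le_antisymm
    · rw [pi_norm_le_iff_of_nonneg zero_le_one]
      intro i; rw [Real.norm_eq_abs]; exact h1 i
    · obtain ⟨i, hi⟩ := h2
      rw [← hi, ← Real.norm_eq_abs]; exact norm_le_pi_norm ω i
  rw [REaux.aeval_eq] at h3
  have hb := hbound ω u hω h3
  refine ⟨hδ1 (u, ω) ⟨⟨?_, ?_⟩, h3⟩, hb⟩
  · simpa using hb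
  · simpa using hω

end Pool.Agent.PDF.Rows
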