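import Pool.Agent.PDF.SG4
import Pool.Agent.PDF.PL
import Pool.Agent.PDF.RE
import Pool.Agent.PDF.AP
import Pool.Agent.PDF.GE

/-!
# Positive definite forms: the sign at the orderings (row SG)
-/

set_option autoImplicit false

namespace Pool.Agent.PDF

open Polynomial

section main

variable {k Ω : Type} [Field k] [Algebra ℝ k] [LinearOrder k] [IsStrictOrderedRing k]
  [Field Ω] [IsAlgClosed Ω] [Algebra k Ω] [Algebra.IsAlgebraic k Ω]

omit [IsAlgClosed Ω] in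
theorem card_ww (R : Multiset Ω) (m : ℕ) (Ψ : Ω → Ω) (hR : R.card = 2 * m) :
    (ww R m Ψ).card ≤ 4 ^ m := by
  classical
  unfold ww sub
  refine Finset.card_image_le.trans ((Multiset.toFinset_card_le _).trans ?_)
  rw [Multiset.card_powersetCard, hR]
  calc (2 * m).choose m ≤ 2 ^ (2 * m) := Nat.choose_le_two_pow _ _
    _ = 4 ^ m := by rw [pow_mul]; norm_num

omit [Field Ω] [IsAlgClosed Ω] in
theorem mem_sub_iff (R S : Multiset Ω) (m : ℕ) : S ∈ sub R m ↔ S ≤ R ∧ S.card = m := by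
  classical
  unfold sub
  rw [Multiset.mem_toFinset, Multiset.mem_powersetCard]

theorem tail_small (y N m : ℕ) (R₀ ε s ρ : ℝ) (θ : ℂ) (hR₀ : 0 < R₀) (hN : 0 < N)
    (hyN : (y + R₀) ^ (2 * m) / N ≤ ε) (hs0 : 0 ≤ s) (hs1 : s ≤ 1) (hρ : 1 ≤ ρ)
    (hθ : ‖θ‖ ≤ R₀) :
    ‖(s * y + θ) ^ (2 * m) * (((ρ : ℂ) ^ 2) ^ m)⁻¹ / N * s‖ ≤ ε := by
  have hN' : (0 : ℝ) < N := by exact_mod_cast hN
  rw [norm_mul, norm_div, norm_mul, norm_pow, norm_inv, norm_pow, norm_pow, Complex.norm_real,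
    Complex.norm_real, Complex.norm_natCast, Real.norm_eq_abs, Real.norm_eq_abs, abs_of_nonneg hs0,
    abs_of_pos (by linarith : 0 < ρ)]
  have h1 : ‖(s : ℂ) * y + θ‖ ≤ y + R₀ := by
    refine (norm_add_le _ _).trans (add_le_add ?_ hθ)
    rw [norm_mul, Complex.norm_real, Complex.norm_natCast, Real.norm_eq_abs, abs_of_nonneg hs0]
    have : (0 : ℝ) ≤ y := Nat.cast_nonneg y
    nlinarith
  have h2 : ‖(s : ℂ) * y + θ‖ ^ (2 * m) ≤ (y + R₀) ^ (2 * m) :=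
    pow_le_pow_left₀ (norm_nonneg _) h1 _
  have h3 : ((ρ ^ 2) ^ m)⁻¹ ≤ 1 := by
    apply inv_le_one_of_one_le₀
    exact one_le_pow₀ (one_le_pow₀ hρ)
  have h4 : 0 ≤ ((ρ ^ 2) ^ m)⁻¹ := by positivity
  have h5 : 0 ≤ ‖(s : ℂ) * y + θ‖ ^ (2 * m) := by positivity
  calc ‖(s : ℂ) * y + θ‖ ^ (2 * m) * ((ρ ^ 2) ^ m)⁻¹ / N * s
      ≤ (y + R₀) ^ (2 * m) * 1 / N * 1 := by
        gcongr
    _ = (y + R₀) ^ (2 * m) / N := by ring
    _ ≤ ε := hyN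

theorem sign_main {n m : ℕ} (hm : 0 < m) {f : MvPolynomial (Fin (n + 2)) ℝ} (hf : PD n m f)
    (v : Fin (n + 1) → k) (hv : v 0 = 1) (R : Multiset Ω)
    (hR : R = ((FG n f v).map (algebraMap k Ω)).roots)
    (δ R₀ : ℝ) (hδ : 0 < δ) (hR₀ : 0 < R₀)
    (hRE : ∀ (ω : Fin (n + 1) → ℝ) (u : ℂ), (∀ i, |ω i| ≤ 1) → (∃ i, |ω i| = 1) →
      MvPolynomial.aeval (Fin.cons u (fun i => (ω i : ℂ)) : Fin (n + 2) → ℂ) f = 0 →
      δ ≤ |u.im| ∧ ‖u‖ ≤ R₀)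
    (J : ℕ) (ε : ℝ)
    (hAP : ∀ (ρ : ℝ) (u : ℂ), 1 ≤ ρ → ρ ≤ (n + 1 : ℝ) → ‖u‖ ≤ R₀ →
      (δ ≤ u.im → (pq u ((ρ : ℂ) ^ 2) J).2 ≠ 0 ∧
        ‖(pq u ((ρ : ℂ) ^ 2) J).1 / (pq u ((ρ : ℂ) ^ 2) J).2 - Complex.I * ρ‖ ≤ ε) ∧
      (u.im ≤ -δ → (pq u ((ρ : ℂ) ^ 2) J).2 ≠ 0 ∧
        ‖(pq u ((ρ : ℂ) ^ 2) J).1 / (pq u ((ρ : ℂ) ^ 2) J).2 + Complex.I * ρ‖ ≤ ε))
    (y N : ℕ) (hN : 0 < N) (hyN : (y + R₀) ^ (2 * m) / N ≤ ε)
    (hε1 : 2 * m * (2 * ε) ≤ 1)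
    (hε2 : (1 + 2 * m * (2 * ε) * (2 * m + 1)) ^ (4 ^ m) < 2)
    (r : Ω) (hr : r = algebraMap k Ω (∑ i, v i ^ 2))
    (Ψ : Ω → Ω) (hΨ : ∀ z, Ψ z = (pq z r J).1 / (pq z r J).2 +
      ((y : Ω) + z) ^ (2 * m) * (r ^ m)⁻¹ / N)
    (x : k) (hx : algebraMap k Ω x = ∏ w ∈ ww R m Ψ, (((m : Ω) - 1) ^ 2 + w / r)) : x < 0 := by
  classical
  obtain ⟨V, Φ, hV1, hV2, hV3, hV4⟩ := PL (k := k) (E := Ω)
  obtain ⟨M, ω, θ, hM, hω1, ⟨i₀, hi₀⟩, hr', hθ1, hθ2, hcount, hcard⟩ :=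
    place_setup hf v hv R hR V Φ hV1 hV3 δ R₀ hδ hRE
  have hM0 : 0 < M := lt_of_lt_of_le one_pos hM
  -- `ρ`
  set ρ : ℝ := Real.sqrt (∑ i, ω i ^ 2) with hρdef
  have hsum0 : (0 : ℝ) ≤ ∑ i, ω i ^ 2 := Finset.sum_nonneg fun i _ => sq_nonneg _
  have hρsq : ρ ^ 2 = ∑ i, ω i ^ 2 := Real.sq_sqrt hsum0
  have hρ1 : 1 ≤ ρ := by
    rw [hρdef, Real.one_le_sqrt]
    calc (1 : ℝ) = ω i₀ ^ 2 := by rw [← sq_abs, hi₀]; norm_num
      _ ≤ ∑ i, ω i ^ 2 :=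
        Finset.single_le_sum (f := fun i => ω i ^ 2) (fun i _ => sq_nonneg _) (Finset.mem_univ i₀)
  have hρ2 : ρ ≤ (n + 1 : ℝ) := by
    have h1 : ∑ i, ω i ^ 2 ≤ (n + 1 : ℝ) := by
      calc ∑ i, ω i ^ 2 ≤ ∑ _i : Fin (n + 1), (1 : ℝ) := by
            refine Finset.sum_le_sum fun i _ => ?_
            rw [← sq_abs]
            exact pow_le_one₀ (abs_nonneg _) (hω1 i)
        _ = n + 1 := by simp
    nlinarith [hρsq, hρ1]
  have hρ0 : ((ρ : ℂ) ^ 2) ≠ 0 := by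
    have : ρ ≠ 0 := by linarith
    exact pow_ne_zero 2 (by exact_mod_cast this)
  -- `c = 1/M`
  set c : Ω := algebraMap k Ω M⁻¹ with hcdef
  have hc0 : c ≠ 0 := (_root_.map_ne_zero _).mpr (inv_pos.mpr hM0).ne'
  have hrv : HV V Φ (c ^ 2 * r) ((ρ : ℂ) ^ 2) := by
    have h1 : c ^ 2 * r = algebraMap k Ω (M⁻¹ ^ 2 * ∑ i, v i ^ 2) := by
      rw [map_mul, map_pow, hr]
    rw [h1]
    have h2 : ((ρ : ℂ) ^ 2) = ((∑ i, ω i ^ 2 : ℝ) : ℂ) := by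
      rw [← hρsq]; push_cast; ring
    rw [h2]
    exact hr'
  have hMinv : |M⁻¹| ≤ 1 := by
    rw [abs_of_pos (inv_pos.mpr hM0)]
    exact inv_le_one_of_one_le₀ hM
  set s : ℝ := ArchimedeanClass.stdPart M⁻¹ with hs
  have hs1 : s ≤ 1 := (abs_le.mp (fin_of_abs_le_one hMinv).2).2
  have hs0 : 0 ≤ s := ArchimedeanClass.stdPart_nonneg (inv_pos.mpr hM0).le
  have hcv : HV V Φ c (s : ℂ) := hV1 M⁻¹ (fin_of_abs_le_one hMinv).1
  -- the values of `Ψ`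
  set g : Ω → ℂ := fun z => (pq (θ z) ((ρ : ℂ) ^ 2) J).1 / (pq (θ z) ((ρ : ℂ) ^ 2) J).2 +
    (s * y + θ z) ^ (2 * m) * (((ρ : ℂ) ^ 2) ^ m)⁻¹ / N * s with hg
  have hN0 : (N : ℂ) ≠ 0 := by exact_mod_cast hN.ne'
  have hsgn : ∀ z ∈ R, (0 < (θ z).im → δ ≤ (θ z).im) ∧ (¬ 0 < (θ z).im → (θ z).im ≤ -δ) := by
    intro z hz
    have h1 := (hθ2 z hz).1
    constructor
    · intro h
      rwa [abs_of_pos h] at h1
    · intro h
      rw [abs_of_nonpos (not_lt.mp h)] at h1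
      linarith
  have hq0 : ∀ z ∈ R, (pq (θ z) ((ρ : ℂ) ^ 2) J).2 ≠ 0 := by
    intro z hz
    obtain ⟨h1, h2⟩ := hAP ρ (θ z) hρ1 hρ2 (hθ2 z hz).2
    by_cases h : 0 < (θ z).im
    · exact (h1 ((hsgn z hz).1 h)).1
    · exact (h2 ((hsgn z hz).2 h)).1
  have hgnear : ∀ z ∈ R, (0 < (θ z).im → ‖g z - Complex.I * ρ‖ ≤ 2 * ε) ∧
      (¬ 0 < (θ z).im → ‖g z + Complex.I * ρ‖ ≤ 2 * ε) := by
    intro z hz
    obtain ⟨h1, h2⟩ := hAP ρ (θ z) hρ1 hρ2 (hθ2 z hz).2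
    have h3 := tail_small y N m R₀ ε s ρ (θ z) hR₀ hN hyN hs0 hs1 hρ1 (hθ2 z hz).2
    constructor
    · intro h
      have h4 := (h1 ((hsgn z hz).1 h)).2
      have h5 : g z - Complex.I * ρ = ((pq (θ z) ((ρ : ℂ) ^ 2) J).1 /
          (pq (θ z) ((ρ : ℂ) ^ 2) J).2 - Complex.I * ρ) +
          (s * y + θ z) ^ (2 * m) * (((ρ : ℂ) ^ 2) ^ m)⁻¹ / N * s := by
        rw [hg]; ring
      rw [h5]
      exact (norm_add_le _ _).trans (by linarith)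
    · intro h
      have h4 := (h2 ((hsgn z hz).2 h)).2
      have h5 : g z + Complex.I * ρ = ((pq (θ z) ((ρ : ℂ) ^ 2) J).1 /
          (pq (θ z) ((ρ : ℂ) ^ 2) J).2 + Complex.I * ρ) +
          (s * y + θ z) ^ (2 * m) * (((ρ : ℂ) ^ 2) ^ m)⁻¹ / N * s := by
        rw [hg]; ring
      rw [h5]
      exact (norm_add_le _ _).trans (by linarith)
  have hgv : ∀ z ∈ R, HV V Φ (c * Ψ z) (g z) := by
    intro z hz
    have h1 : c * Ψ z = (pq (c * z) (c ^ 2 * r) J).1 / (pq (c * z) (c ^ 2 * r) J).2 +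
        (c * y + c * z) ^ (2 * m) * ((c ^ 2 * r) ^ m)⁻¹ / N * c := by
      rw [hΨ, mul_add, pq_div_smul hc0]
      congr 1
      have h2 : (c * (y : Ω) + c * z) ^ (2 * m) = (c ^ 2) ^ m * ((y : Ω) + z) ^ (2 * m) := by
        rw [← mul_add, mul_pow, ← pow_mul]
      rw [h2, mul_pow (c ^ 2) r m, mul_inv]
      have h3 : (c ^ 2) ^ m ≠ 0 := pow_ne_zero _ (pow_ne_zero _ hc0)
      field_simp
    rw [h1]
    obtain ⟨h2, h3⟩ := (hθ1 z hz).pq hrv J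
    refine (h2.div hV2 h3 (hq0 z hz)).add ?_
    refine HV.mul ?_ hcv
    refine HV.div hV2 ?_ (HV.natCast N) hN0
    refine HV.mul (((hcv.mul (HV.natCast y)).add (hθ1 z hz)).pow _) ?_
    exact (hrv.pow m).inv hV2 (pow_ne_zero m hρ0)
  -- the values of `κ`
  have h2v : HV V Φ (2 : Ω) (2 : ℂ) := by
    have := HV.natCast (V := V) (Φ := Φ) 2
    simpa using this
  have hkap : ∀ S : Multiset Ω, S ≤ R →
      HV V Φ (c * kap R Ψ S) ((S.map g).sum - (R.map g).sum / 2) := by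
    intro S hS
    have h1 : c * kap R Ψ S = (S.map fun z => c * Ψ z).sum - (R.map fun z => c * Ψ z).sum / 2 := by
      rw [kap, Multiset.sum_map_mul_left, Multiset.sum_map_mul_left]
      ring
    rw [h1]
    refine (HV.msum S _ _ fun z hz => hgv z (Multiset.mem_of_le hS hz)).sub ?_
    exact (HV.msum R _ _ hgv).div hV2 h2v two_ne_zero
  have hfac : ∀ S : Multiset Ω, S ≤ R → S.card = m →
      ∃ a : ℂ, HV V Φ (((m : Ω) - 1) ^ 2 + kap R Ψ S ^ 2 / r) a ∧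
        ‖a - ((((m : ℝ) - 1) ^ 2 - (2 * (S.countP fun z => 0 < (θ z).im : ℕ) - (m : ℝ)) ^ 2 : ℝ) : ℂ)‖ ≤
          2 * m * (2 * ε) * (2 * m + 1) := by
    intro S hS hSm
    have h1 := hkap S hS
    set κ : ℂ := (S.map g).sum - (R.map g).sum / 2 with hκ
    have h2 := kap_near R S m g (fun z => 0 < (θ z).im) (Complex.I * ρ) (2 * ε) hS hSm hcard
      hcount hgnear
    set j : ℕ := S.countP (fun z => 0 < (θ z).im) with hj
    have hjm : j ≤ m := by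
      rw [hj, ← hSm]; exact S.countP_le_card _
    have hjm' : (j : ℝ) ≤ m := by exact_mod_cast hjm
    have hj0 : (0 : ℝ) ≤ j := Nat.cast_nonneg j
    have h3 := sq_near κ ρ hρ1 (2 * j - m) m (by
        rw [abs_le]; constructor <;> linarith) (2 * m * (2 * ε)) hε1 (by
        have h4 : Complex.I * ρ * ((2 * j - m : ℝ) : ℂ) = Complex.I * ρ * (2 * (j : ℂ) - m) := by
          push_cast; ring
        rw [h4]
        exact h2)
    refine ⟨((m : ℂ) - 1) ^ 2 + κ ^ 2 / ((ρ : ℂ) ^ 2), ?_, ?_⟩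
    · have h4 : kap R Ψ S ^ 2 / r = (c * kap R Ψ S) ^ 2 / (c ^ 2 * r) := by
        rw [mul_pow]
        have : c ^ 2 ≠ 0 := pow_ne_zero 2 hc0
        rw [mul_div_mul_left _ _ this]
      rw [h4]
      exact (((HV.natCast m).sub HV.one).pow 2).add ((h1.pow 2).div hV2 hrv hρ0)
    · have h4 : ((m : ℂ) - 1) ^ 2 + κ ^ 2 / ((ρ : ℂ) ^ 2) -
          ((((m : ℝ) - 1) ^ 2 - (2 * (j : ℕ) - (m : ℝ)) ^ 2 : ℝ) : ℂ) =
          κ ^ 2 / ((ρ : ℂ) ^ 2) + ((2 * j - m : ℝ) : ℂ) ^ 2 := by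
        push_cast; ring
      rw [h4]
      exact h3
  -- the two special subsets
  have hRp : R.filter (fun z => 0 < (θ z).im) ≤ R := Multiset.filter_le _ _
  have hRn : R.filter (fun z => ¬ 0 < (θ z).im) ≤ R := Multiset.filter_le _ _
  have hRpc : (R.filter (fun z => 0 < (θ z).im)).card = m := by
    rw [← Multiset.countP_eq_card_filter]; exact hcount
  have hneg : kap R Ψ (R.filter (fun z => ¬ 0 < (θ z).im)) =
      - kap R Ψ (R.filter (fun z => 0 < (θ z).im)) := by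
    have h1 : R.filter (fun z => 0 < (θ z).im) + R.filter (fun z => ¬ 0 < (θ z).im) = R :=
      Multiset.filter_add_not _ _
    have h2 : (R.map Ψ).sum = ((R.filter (fun z => 0 < (θ z).im)).map Ψ).sum +
        ((R.filter (fun z => ¬ 0 < (θ z).im)).map Ψ).sum := by
      rw [← Multiset.sum_add, ← Multiset.map_add, h1]
    have h3 : (2 : Ω) ≠ 0 := by
      have : CharZero k := inferInstance
      have : CharZero Ω := charZero_of_injective_algebraMap (algebraMap k Ω).injective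
      exact two_ne_zero
    rw [kap, kap, h2]
    field_simp
    ring
  set w₀ : Ω := kap R Ψ (R.filter (fun z => 0 < (θ z).im)) ^ 2 with hw₀
  have hw₀mem : w₀ ∈ ww R m Ψ := by
    unfold ww
    exact Finset.mem_image_of_mem _ ((mem_sub_iff _ _ _).mpr ⟨hRp, hRpc⟩)
  have hmr : (1 : ℝ) ≤ m := by exact_mod_cast hm
  have key : ∀ w ∈ ww R m Ψ, ∃ (a : ℂ) (b : ℝ), HV V Φ (((m : Ω) - 1) ^ 2 + w / r) a ∧
      ‖a - b‖ ≤ 2 * m * (2 * ε) * (2 * m + 1) ∧ (w = w₀ → b ≤ -1) ∧ (w ≠ w₀ → 1 ≤ b) := by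
    intro w hw
    by_cases hww : w = w₀
    · obtain ⟨a, h1, h2⟩ := hfac _ hRp hRpc
      refine ⟨a, _, by rw [hww]; exact h1, h2, fun _ => ?_, fun h => absurd hww h⟩
      have h3 : (R.filter (fun z => 0 < (θ z).im)).countP (fun z => 0 < (θ z).im) = m := by
        rw [Multiset.countP_eq_card_filter, Multiset.filter_filter]
        simpa using hRpc
      rw [h3]
      nlinarith
    · unfold ww at hw
      obtain ⟨S, hS, rfl⟩ := Finset.mem_image.mp hw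
      obtain ⟨hS1, hS2⟩ := (mem_sub_iff _ _ _).mp hS
      obtain ⟨a, h1, h2⟩ := hfac S hS1 hS2
      refine ⟨a, _, h1, h2, fun h => absurd h hww, fun _ => ?_⟩
      have h3 : S.countP (fun z => 0 < (θ z).im) < m :=
        countP_lt hS1 hS2 hcount (by
          rintro rfl
          exact hww rfl)
      have h4 : 0 < S.countP (fun z => 0 < (θ z).im) :=
        countP_pos' hS1 hS2 hcard hcount (by
          rintro rfl
          apply hww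
          simp only [hneg, hw₀]
          ring)
      set j : ℕ := S.countP (fun z => 0 < (θ z).im) with hj
      have h5 : (1 : ℝ) ≤ j := by exact_mod_cast h4
      have h6 : (j : ℝ) + 1 ≤ m := by exact_mod_cast h3
      nlinarith
  choose! a b hab using key
  have hprod : HV V Φ (∏ w ∈ ww R m Ψ, (((m : Ω) - 1) ^ 2 + w / r)) (∏ w ∈ ww R m Ψ, a w) :=
    HV.fprod _ _ _ fun w hw => (hab w hw).1
  have hε0 : 0 ≤ ε := by
    refine le_trans ?_ hyN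
    positivity
  have hneg2 : (∏ w ∈ ww R m Ψ, a w).re < 0 := by
    refine prod_sign (ww R m Ψ) a b w₀ hw₀mem (2 * m * (2 * ε) * (2 * m + 1)) (by positivity) ?_
      ((hab w₀ hw₀mem).2.2.1 rfl) (fun w hw h => (hab w hw).2.2.2 h)
      (fun w hw => (hab w hw).2.1)
    refine lt_of_le_of_lt ?_ hε2
    refine pow_le_pow_right₀ ?_ (card_ww R m Ψ hcard)
    have : 0 ≤ 2 * (m : ℝ) * (2 * ε) * (2 * m + 1) := by positivity
    linarith
  rw [← hx] at hprod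
  obtain ⟨h1, h2⟩ := hprod
  exact hV4 x h1 (by rw [h2]; exact hneg2)

end main

theorem exists_eps (m : ℕ) (hm : 0 < m) : ∃ ε : ℝ, 0 < ε ∧ 2 * m * (2 * ε) ≤ 1 ∧
    (1 + 2 * m * (2 * ε) * (2 * m + 1)) ^ (4 ^ m) < 2 := by
  have hm' : (1 : ℝ) ≤ m := by exact_mod_cast hm
  have h4 : (1 : ℝ) ≤ 4 ^ m := one_le_pow₀ (by norm_num)
  have h40 : (0 : ℝ) < 4 ^ m := by positivity
  have hd : (0 : ℝ) < 2 * m * 2 * (2 * m + 1) * (2 * 4 ^ m) := by positivity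
  refine ⟨1 / (2 * m * 2 * (2 * m + 1) * (2 * 4 ^ m)), by positivity, ?_, ?_⟩
  · have h1 : 2 * (m : ℝ) * (2 * (1 / (2 * m * 2 * (2 * m + 1) * (2 * 4 ^ m)))) =
        1 / ((2 * m + 1) * (2 * 4 ^ m)) := by
      field_simp
    rw [h1, div_le_one (by positivity)]
    nlinarith
  · have h1 : 2 * (m : ℝ) * (2 * (1 / (2 * m * 2 * (2 * m + 1) * (2 * 4 ^ m)))) * (2 * m + 1) =
        1 / (2 * 4 ^ m) := by
      field_simp
    rw [h1]
    have h2 : (1 + 1 / (2 * 4 ^ m) : ℝ) ≤ Real.exp (1 / (2 * 4 ^ m)) := by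
      have := Real.add_one_le_exp (1 / (2 * 4 ^ m) : ℝ)
      linarith
    have h3 : (1 + 1 / (2 * 4 ^ m) : ℝ) ^ (4 ^ m) ≤ Real.exp (1 / 2) := by
      calc (1 + 1 / (2 * 4 ^ m) : ℝ) ^ (4 ^ m) ≤ Real.exp (1 / (2 * 4 ^ m)) ^ (4 ^ m) :=
            pow_le_pow_left₀ (by positivity) h2 _
        _ = Real.exp (1 / 2) := by
            rw [← Real.exp_nat_mul]
            congr 1
            push_cast
            field_simp
    refine lt_of_le_of_lt h3 ?_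
    have h5 : Real.exp (1 / 2) * Real.exp (1 / 2) = Real.exp 1 := by
      rw [← Real.exp_add]; norm_num
    have h6 := Real.exp_one_lt_d9
    have h7 : 0 < Real.exp (1 / 2) := Real.exp_pos _
    by_contra h8
    push Not at h8
    nlinarith

theorem rr_ne_zero (n : ℕ) : rr n ≠ 0 := by
  have h1 : rr n = algebraMap (MvPolynomial (Fin n) ℝ) (kk n)
      (1 + ∑ i, MvPolynomial.X i ^ 2) := by
    rw [rr, Fin.sum_univ_succ, map_add, map_one, map_sum]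
    simp [vv]
  rw [h1]
  intro h
  have h2 : (1 + ∑ i, MvPolynomial.X i ^ 2 : MvPolynomial (Fin n) ℝ) = 0 :=
    (map_eq_zero_iff _ (IsFractionRing.injective (MvPolynomial (Fin n) ℝ) (kk n))).mp h
  have h3 := congrArg (MvPolynomial.eval (0 : Fin n → ℝ)) h2
  simp at h3

theorem SG (n m : ℕ) (hm : 0 < m) (f : MvPolynomial (Fin (n + 2)) ℝ) (hf : PD n m f)
    (R : Multiset (AlgebraicClosure (kk n)))
    (hR : R = ((Fk n f).map (algebraMap (kk n) (AlgebraicClosure (kk n)))).roots) :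
    ∃ Ψ : AlgebraicClosure (kk n) → AlgebraicClosure (kk n),
      (∀ (σ : AlgebraicClosure (kk n) ≃ₐ[kk n] AlgebraicClosure (kk n)) z, Ψ (σ z) = σ (Ψ z)) ∧
      (∀ S ∈ sub R m, ∀ T ∈ sub R m, kap R Ψ S = kap R Ψ T → S = T) ∧
      ∀ x : kk n, algebraMap (kk n) (AlgebraicClosure (kk n)) x =
          ∏ w ∈ ww R m Ψ, (((m : AlgebraicClosure (kk n)) - 1) ^ 2 +
            w / algebraMap (kk n) (AlgebraicClosure (kk n)) (rr n)) →
        ∀ [LinearOrder (kk n)] [IsStrictOrderedRing (kk n)], x < 0 := by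
  obtain ⟨δ, R₀, hδ, hR₀, hRE⟩ := Rows.RE n m f hf
  obtain ⟨ε, hε, hε1, hε2⟩ := exists_eps m hm
  obtain ⟨J, hJ⟩ := Rows.AP δ R₀ (n + 1 : ℝ) ε hδ hε
  have hcard : R.card = 2 * m := by
    rw [hR, ← (IsAlgClosed.splits _).natDegree_eq_card_roots, Polynomial.natDegree_map,
      (Fk_monic n m f hf).2]
  obtain ⟨y, hy⟩ := GE R m hcard
  set r : AlgebraicClosure (kk n) := algebraMap (kk n) (AlgebraicClosure (kk n)) (rr n) with hr
  have hr0 : r ≠ 0 := (_root_.map_ne_zero _).mpr (rr_ne_zero n)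
  obtain ⟨N, hNN, hN, hinj⟩ := hy (fun z => (pq z r J).1 / (pq z r J).2) ((r ^ m)⁻¹)
    (inv_ne_zero (pow_ne_zero m hr0)) ⌈((y : ℝ) + R₀) ^ (2 * m) / ε⌉₊
  have hyN : ((y : ℝ) + R₀) ^ (2 * m) / N ≤ ε := by
    have h1 : ((y : ℝ) + R₀) ^ (2 * m) / ε ≤ N :=
      (Nat.le_ceil _).trans (by exact_mod_cast hNN)
    have h2 : (0 : ℝ) < N := by exact_mod_cast hN
    rw [div_le_iff₀ hε] at h1
    rw [div_le_iff₀ h2]
    linarith
  refine ⟨fun z => (pq z r J).1 / (pq z r J).2 + ((y : AlgebraicClosure (kk n)) + z) ^ (2 * m) *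
    (r ^ m)⁻¹ / N, ?_, hinj, ?_⟩
  · intro σ z
    have h1 : σ r = r := σ.commutes _
    have h2 := pq_map (σ : AlgebraicClosure (kk n) →+* AlgebraicClosure (kk n)) z r J
    simp only [RingHom.coe_coe, h1] at h2
    simp only [h2, map_add, map_div₀, map_mul, map_pow, map_inv₀, map_natCast, h1]
  · intro x hx _ _
    exact sign_main hm hf (vv n) rfl R hR δ R₀ hδ hR₀ hRE J ε hJ y N hN hyN hε1 hε2 r rfl _
      (fun z => rfl) x hx

end Pool.Agent.PDF
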