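import Pool.Agent.PDF.Defs

/-!
# Row ST: Cassels' lemma (MP_b906c2_al)
-/

set_option autoImplicit false

namespace Pool.Agent.PDF.Rows

open Polynomial Pool.Agent.PDF

namespace STaux

variable {E : Type} [Field E]

theorem two_ne (hE : FR E) : (2 : E) ≠ 0 := by
  intro h
  have h1 := hE 2 ![1, 1] (by simp [Fin.sum_univ_two]; norm_num; exact h)
  have h2 := congrFun h1 0
  simp at h2

/-- degrees of the summands of a sum of squares of polynomials over a formally real field -/
theorem deg_le (hE : FR E) (n : ℕ) (f : Fin n → E[X]) (M : ℕ)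
    (h : (∑ i, f i ^ 2).natDegree ≤ 2 * M) (i : Fin n) : (f i).natDegree ≤ M := by
  by_contra hcon
  have hcon : M < (f i).natDegree := not_le.mp hcon
  obtain ⟨j, -, hj⟩ := Finset.exists_max_image Finset.univ (fun i => (f i).natDegree)
    ⟨i, Finset.mem_univ i⟩
  have hN : M < (f j).natDegree := lt_of_lt_of_le hcon (hj i (Finset.mem_univ i))
  have hc : (∑ i, f i ^ 2).coeff (2 * (f j).natDegree) = 0 :=
    coeff_eq_zero_of_natDegree_lt (by omega)
  rw [finsetSum_coeff] at hc
  have h2 : ∀ l, (f l ^ 2).coeff (2 * (f j).natDegree) = (f l).coeff (f j).natDegree ^ 2 :=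
    fun l => coeff_pow_of_natDegree_le (hj l (Finset.mem_univ l))
  rw [Finset.sum_congr rfl (fun l _ => h2 l)] at hc
  have h3 := congrFun (hE n _ hc) j
  simp only [coeff_natDegree, Pi.zero_apply, leadingCoeff_eq_zero] at h3
  rw [h3] at hN
  simp at hN

theorem poly_aniso (hE : FR E) (n : ℕ) (f : Fin n → E[X]) (h : ∑ i, f i ^ 2 = 0) : f = 0 := by
  have h1 : ∀ i, (f i).natDegree ≤ 0 := deg_le hE n f 0 (by rw [h]; simp)
  have h2 : ∀ i, f i = C ((f i).coeff 0) := fun i => eq_C_of_natDegree_le_zero (h1 i)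
  have h3 : ∑ i, (f i).coeff 0 ^ 2 = 0 := by
    have h4 : (∑ i, f i ^ 2).coeff 0 = 0 := by rw [h]; simp
    rw [finsetSum_coeff] at h4
    rw [← h4]
    refine Finset.sum_congr rfl fun i _ => ?_
    rw [h2 i, ← C_pow, coeff_C_zero, coeff_C_zero]
  have h5 := hE n _ h3
  funext i
  rw [h2 i, congrFun h5 i]
  simp

/-- Cassels' descent -/
theorem descent (hE : FR E) (n : ℕ) (p : E[X]) : ∀ (N : ℕ) (g : E[X]) (f : Fin n → E[X]),
    g.natDegree ≤ N → g ≠ 0 → p * g ^ 2 = ∑ i, f i ^ 2 → ∃ h : Fin n → E[X], p = ∑ i, h i ^ 2 := by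
  intro N
  induction N with
  | zero =>
    intro g f hg hg0 h
    obtain ⟨c, hc⟩ : ∃ c, g = C c := ⟨_, eq_C_of_natDegree_le_zero hg⟩
    have hc0 : c ≠ 0 := by
      rintro rfl
      exact hg0 (by rw [hc]; simp)
    refine ⟨fun i => C c⁻¹ * f i, ?_⟩
    have h1 : ∑ i, (C c⁻¹ * f i) ^ 2 = C c⁻¹ ^ 2 * ∑ i, f i ^ 2 := by
      rw [Finset.mul_sum]
      refine Finset.sum_congr rfl fun i _ => ?_
      ring
    rw [h1, ← h, hc]
    have h2 : C c⁻¹ * C c = (1 : E[X]) := by
      rw [← C_mul, inv_mul_cancel₀ hc0, C_1]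
    have h3 : C c⁻¹ ^ 2 * (p * C c ^ 2) = p * (C c⁻¹ * C c) ^ 2 := by ring
    rw [h3, h2]
    ring
  | succ N ih =>
    intro g f hg hg0 h
    by_cases hgN : g.natDegree ≤ N
    · exact ih g f hgN hg0 h
    set q : Fin n → E[X] := fun i => f i / g with hq
    set r : Fin n → E[X] := fun i => f i % g with hr
    have hdiv : ∀ i, f i = g * q i + r i := fun i => (EuclideanDomain.div_add_mod (f i) g).symm
    have hrd : ∀ i, (r i).natDegree ≤ N := by
      intro i
      have h1 : (f i % g).natDegree < g.natDegree := natDegree_mod_lt (f i) (by omega)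
      have h2 : (r i).natDegree < g.natDegree := h1
      omega
    by_cases hr0 : ∑ i, r i ^ 2 = 0
    · have h1 := poly_aniso hE n r hr0
      refine ⟨q, ?_⟩
      have h2 : ∑ i, f i ^ 2 = g ^ 2 * ∑ i, q i ^ 2 := by
        rw [Finset.mul_sum]
        refine Finset.sum_congr rfl fun i _ => ?_
        rw [hdiv i, congrFun h1 i]
        simp only [Pi.zero_apply]
        ring
      have h3 : g ^ 2 * p = g ^ 2 * ∑ i, q i ^ 2 := by rw [← h2, ← h]; ring
      exact mul_left_cancel₀ (pow_ne_zero 2 hg0) h3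
    · set Q : E[X] := ∑ i, q i ^ 2 - p with hQ
      set B : E[X] := ∑ i, f i * q i - p * g with hB
      have key : g * (Q * g - 2 * B) = ∑ i, r i ^ 2 := by
        have e1 : ∑ i, r i ^ 2 = ∑ i, f i ^ 2 - 2 * g * ∑ i, f i * q i + g ^ 2 * ∑ i, q i ^ 2 := by
          rw [Finset.mul_sum, Finset.mul_sum, ← Finset.sum_sub_distrib, ← Finset.sum_add_distrib]
          refine Finset.sum_congr rfl fun i _ => ?_
          have : r i = f i - g * q i := by rw [hdiv i]; ring
          rw [this]
          ring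
        rw [e1, ← h, hQ, hB]
        ring
      have hg' : Q * g - 2 * B ≠ 0 := by
        intro h0
        rw [h0, mul_zero] at key
        exact hr0 key.symm
      refine ih (Q * g - 2 * B) (fun i => Q * f i - 2 * B * q i) ?_ hg' ?_
      · have h1 : (g * (Q * g - 2 * B)).natDegree = g.natDegree + (Q * g - 2 * B).natDegree :=
          natDegree_mul hg0 hg'
        have h2 : (∑ i, r i ^ 2).natDegree ≤ 2 * N := by
          refine natDegree_sum_le_of_forall_le _ _ fun i _ => ?_
          exact le_trans natDegree_pow_le (Nat.mul_le_mul_left 2 (hrd i))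
        rw [key] at h1
        omega
      · have e1 : ∑ i, (Q * f i - 2 * B * q i) ^ 2
            = Q ^ 2 * ∑ i, f i ^ 2 - 4 * Q * B * ∑ i, f i * q i + 4 * B ^ 2 * ∑ i, q i ^ 2 := by
          rw [Finset.mul_sum, Finset.mul_sum, Finset.mul_sum, ← Finset.sum_sub_distrib,
            ← Finset.sum_add_distrib]
          refine Finset.sum_congr rfl fun i _ => ?_
          ring
        rw [e1, ← h]
        have e2 : ∑ i, q i ^ 2 = Q + p := by rw [hQ]; ring
        have e3 : ∑ i, f i * q i = B + p * g := by rw [hB]; ring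
        rw [e2, e3]
        ring

theorem cleared {n : ℕ} (x : Fin n → RatFunc E) : ∃ (g : E[X]) (f : Fin n → E[X]), g ≠ 0 ∧
    ∀ i, algebraMap E[X] (RatFunc E) (f i) = algebraMap E[X] (RatFunc E) g * x i := by
  obtain ⟨b, hb⟩ := IsLocalization.exist_integer_multiples_of_finite (nonZeroDivisors E[X]) x
  choose f hf using hb
  refine ⟨b, f, nonZeroDivisors.coe_ne_zero b, fun i => ?_⟩
  rw [hf i, Algebra.smul_def]

end STaux

theorem FR_ratfunc {E : Type} [Field E] (hE : FR E) : FR (RatFunc E) := by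
  intro n x hx
  obtain ⟨g, f, hg, hf⟩ := STaux.cleared x
  have hinj : Function.Injective (algebraMap E[X] (RatFunc E)) := IsFractionRing.injective _ _
  have h1 : ∑ i, f i ^ 2 = 0 := by
    apply hinj
    rw [map_sum, map_zero]
    have h2 : ∑ i, algebraMap E[X] (RatFunc E) (f i ^ 2)
        = algebraMap E[X] (RatFunc E) g ^ 2 * ∑ i, x i ^ 2 := by
      rw [Finset.mul_sum]
      refine Finset.sum_congr rfl fun i _ => ?_
      rw [map_pow, hf i]
      ring
    rw [h2, hx, mul_zero]
  have h2 := STaux.poly_aniso hE n f h1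
  have hg' : algebraMap E[X] (RatFunc E) g ≠ 0 := by
    rw [Ne, map_eq_zero_iff _ hinj]
    exact hg
  funext i
  have h3 := hf i
  rw [congrFun h2 i] at h3
  simp only [Pi.zero_apply, map_zero] at h3
  rcases mul_eq_zero.mp h3.symm with h4 | h4
  · exact absurd h4 hg'
  · exact h4

theorem ST {E : Type} [Field E] (hE : FR E) (m : ℕ) (d : E)
    (h : SS (m + 1) ((RatFunc.X : RatFunc E) ^ 2 + RatFunc.C d)) : SS m d := by
  obtain ⟨x, hx⟩ := h
  obtain ⟨g, f, hg, hf⟩ := STaux.cleared x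
  have hinj : Function.Injective (algebraMap E[X] (RatFunc E)) := IsFractionRing.injective _ _
  have h1 : (X ^ 2 + C d) * g ^ 2 = ∑ i, f i ^ 2 := by
    apply hinj
    rw [map_sum]
    have h2 : ∑ i, algebraMap E[X] (RatFunc E) (f i ^ 2)
        = algebraMap E[X] (RatFunc E) g ^ 2 * ∑ i, x i ^ 2 := by
      rw [Finset.mul_sum]
      refine Finset.sum_congr rfl fun i _ => ?_
      rw [map_pow, hf i]
      ring
    rw [h2, ← hx, map_mul, map_add, map_pow, map_pow, RatFunc.algebraMap_X, RatFunc.algebraMap_C]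
    ring
  obtain ⟨p, hp⟩ := STaux.descent hE (m + 1) (X ^ 2 + C d) g.natDegree g f le_rfl hg h1
  have hdeg : ∀ i, (p i).natDegree ≤ 1 := by
    apply STaux.deg_le hE
    rw [← hp]
    have : (X ^ 2 + C d : E[X]).natDegree ≤ 2 := by compute_degree
    omega
  have hev : ∀ c : E, c ^ 2 + d = ∑ i, (p i).eval c ^ 2 := by
    intro c
    have h2 := congrArg (eval c) hp
    rw [eval_finsetSum] at h2
    simpa using h2
  have h0 : ∀ c : E, (p 0).eval c = (p 0).coeff 1 * c + (p 0).coeff 0 := by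
    intro c
    conv_lhs => rw [eq_X_add_C_of_natDegree_le_one (hdeg 0)]
    simp
  have h2 : (2 : E) ≠ 0 := STaux.two_ne hE
  obtain ⟨c, hc⟩ : ∃ c : E, (p 0).eval c ^ 2 = c ^ 2 := by
    by_cases hb : (p 0).coeff 1 = 1
    · refine ⟨-(p 0).coeff 0 / 2, ?_⟩
      rw [h0, hb]
      field_simp
      ring
    · have hb' : 1 - (p 0).coeff 1 ≠ 0 := sub_ne_zero.mpr (Ne.symm hb)
      refine ⟨(p 0).coeff 0 / (1 - (p 0).coeff 1), ?_⟩
      have : (p 0).coeff 1 * ((p 0).coeff 0 / (1 - (p 0).coeff 1)) + (p 0).coeff 0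
          = (p 0).coeff 0 / (1 - (p 0).coeff 1) := by
        field_simp
        ring
      rw [h0, this]
  refine ⟨fun i => (p i.succ).eval c, ?_⟩
  have h3 := hev c
  rw [Fin.sum_univ_succ, hc] at h3
  exact add_left_cancel h3

end Pool.Agent.PDF.Rows
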