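import Pool.Agent.PDF.PF
import Pool.Agent.PDF.NP
import Pool.Agent.PDF.TLI
import Pool.Agent.PDF.MS
import Pool.Agent.PDF.ST
import Pool.Agent.PDF.HE
import Pool.Agent.PDF.SG

/-!
# The engine: from the heart to sums of squares
-/

set_option autoImplicit false

namespace Pool.Agent.PDF

open Polynomial

theorem FR.two {K : Type} [Field K] (hK : FR K) : (2 : K) ≠ 0 := by
  intro h
  have := hK 2 ![1, 1] (by simp [Fin.sum_univ_two]; rw [one_add_one_eq_two, h])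
  simpa using congrFun this 0

/-- level of `L` -/
theorem E1 {k L : Type} [Field k] [Field L] (φ : k →+* L) (h2 : (2 : L) ≠ 0) (l : List k)
    (hl : ∀ a ∈ l, a ≠ 0) (P : k[X]) (hP : P.Monic) (c : k) (hc : P.eval c ≠ 0)
    (hσ : -(P.eval c) ∈ D l)
    (hiso : ∀ q : L[X], Irreducible q → q ∣ P.map φ → IsoMod (wt (l.map φ)) q) :
    (-1 : L) ∈ D (l.map φ) := by
  have hl' : ∀ a ∈ l.map φ, a ≠ 0 := by
    intro a ha
    obtain ⟨b, hb, rfl⟩ := List.mem_map.1 ha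
    exact (map_ne_zero φ).2 (hl b hb)
  by_cases hA : Aniso (wt (l.map φ))
  · have h1 : Rep (wt (l.map φ)) ((P.map φ).eval (φ c)) := by
      refine NP _ hA ((D_wt _ _).1 (D_one _)) (mulC_wt _) _ (hP.map φ) hiso _ ?_
      rw [eval_map_apply]
      exact (map_ne_zero φ).2 hc
    rw [eval_map_apply, ← D_wt] at h1
    have hmap : ∀ (l : List k) (a : k), a ∈ D l → φ a ∈ D (l.map φ) := by
      intro l
      induction l with
      | nil => rintro a ⟨x, rfl⟩; exact ⟨φ x, by simp⟩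
      | cons b l ih =>
        rintro a ⟨s, hs, t, ht, rfl⟩
        exact ⟨_, ih s hs, _, ih t ht, by simp⟩
    have h3 := hmap l _ hσ
    have h4 := D_div _ h3 h1
    rw [map_neg, neg_div, div_self ((map_ne_zero φ).2 hc)] at h4
    exact h4
  · exact D_univ h2 _ hl' hA _

/-- existence of `K(√-F)` -/
theorem E0 {K : Type} [Field K] (F : K) : ∃ (L : Type) (_ : Field L) (ψ : K →+* L) (e : L),
    e ^ 2 = - ψ F ∧ ∀ z : L, ∃ a b : K, z = ψ a + e * ψ b := by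
  by_cases h : ∃ s : K, s ^ 2 = - F
  · obtain ⟨s, hs⟩ := h
    exact ⟨K, inferInstance, RingHom.id K, s, hs, fun z => ⟨z, 0, by simp⟩⟩
  · have hm : (X ^ 2 + C F : K[X]).Monic := monic_X_pow_add_C F two_ne_zero
    have hd : (X ^ 2 + C F : K[X]).natDegree = 2 := natDegree_X_pow_add_C
    have hirr : Irreducible (X ^ 2 + C F : K[X]) := by
      refine irreducible_of_degree_le_three_of_not_isRoot ?_ ?_
      · rw [hd]; decide
      · intro x hx
        apply h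
        refine ⟨x, ?_⟩
        rw [IsRoot, eval_add, eval_pow, eval_X, eval_C] at hx
        linear_combination hx
    have : Fact (Irreducible (X ^ 2 + C F : K[X])) := ⟨hirr⟩
    refine ⟨AdjoinRoot (X ^ 2 + C F : K[X]), inferInstance, AdjoinRoot.of _, AdjoinRoot.root _,
      ?_, ?_⟩
    · have h1 := AdjoinRoot.eval₂_root (X ^ 2 + C F : K[X])
      rw [eval₂_add, eval₂_pow, eval₂_X, eval₂_C] at h1
      linear_combination h1
    · intro z
      obtain ⟨p, rfl⟩ := AdjoinRoot.mk_surjective z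
      have h1 : AdjoinRoot.mk (X ^ 2 + C F : K[X]) p =
          AdjoinRoot.mk (X ^ 2 + C F : K[X]) (p %ₘ (X ^ 2 + C F)) := by
        rw [AdjoinRoot.mk_eq_mk]
        have := modByMonic_add_div p (X ^ 2 + C F : K[X])
        exact ⟨p /ₘ (X ^ 2 + C F), by linear_combination (-1 : K[X]) * this⟩
      have h2 : (p %ₘ (X ^ 2 + C F)).natDegree ≤ 1 := by
        have := natDegree_modByMonic_lt p hm (by
          intro h
          rw [h, natDegree_one] at hd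
          omega)
        omega
      refine ⟨(p %ₘ (X ^ 2 + C F)).coeff 0, (p %ₘ (X ^ 2 + C F)).coeff 1, ?_⟩
      rw [h1]
      conv_lhs => rw [eq_X_add_C_of_natDegree_le_one h2]
      simp only [map_add, map_mul, AdjoinRoot.mk_X, AdjoinRoot.mk_C]
      ring


/-- the heart -/
theorem HE (n m : ℕ) (hm : 0 < m) (f : MvPolynomial (Fin (n + 2)) ℝ) (hf : PD n m f) :
    ∃ (P : (kk n)[X]) (A B : (kk n)[X][X]) (c : kk n), P.Monic ∧
      C P ∣ (Fk n f).map C - A ^ 2 - C (C (rr n)) * B ^ 2 ∧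
      P.eval c ≠ 0 ∧ IsSumSq (-(P.eval c)) :=
  HE_of n m f (Fk_monic n m f hf).1 (Fk_monic n m f hf).2 (SG n m hm f hf)

/-! ### from the level of `K(√-F)` to sums of squares -/

theorem SS_zero_val {K : Type} [Field K] (n : ℕ) : SS n (0 : K) := ⟨0, by simp⟩

theorem SS_map {K L : Type} [Field K] [Field L] (φ : K →+* L) {n : ℕ} {a : K} (h : SS n a) :
    SS n (φ a) := by
  obtain ⟨x, rfl⟩ := h
  exact ⟨fun i => φ (x i), by rw [map_sum]; simp⟩

theorem SS_sq_mul {K : Type} [Field K] {n : ℕ} {a : K} (h : SS n a) (c : K) :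
    SS n (c ^ 2 * a) := by
  obtain ⟨x, rfl⟩ := h
  refine ⟨fun i => c * x i, ?_⟩
  rw [Finset.mul_sum]
  exact Finset.sum_congr rfl fun i _ => by ring

theorem E2 {K L : Type} [Field K] [Field L] (hK : FR K) (ψ : K →+* L) (F : K) (e : L)
    (he : e ^ 2 = - ψ F) (hs : ∀ z : L, ∃ a b : K, z = ψ a + e * ψ b) (j : ℕ)
    (hL : SS (2 ^ j) (-1 : L)) : SS (2 ^ (j + 1) - 1) F := by
  have h2 := hK.two
  obtain ⟨z, hz⟩ := hL
  choose a b hab using fun i => hs (z i)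
  have hψ := ψ.injective
  by_cases hcase : ∃ s, ψ s = e
  · exfalso
    obtain ⟨s, rfl⟩ := hcase
    have h3 : ψ (∑ i, (a i + s * b i) ^ 2 + 1) = 0 := by
      rw [map_add, map_one, map_sum]
      have : ∑ i, ψ ((a i + s * b i) ^ 2) = ∑ i, z i ^ 2 := by
        refine Finset.sum_congr rfl fun i _ => ?_
        rw [hab i]; simp
      rw [this, ← hz]; ring
    have h4 : ∑ i, (a i + s * b i) ^ 2 + 1 = 0 := hψ (by rw [h3, map_zero])
    have h5 := hK (2 ^ j + 1) (Fin.snoc (fun i => a i + s * b i) 1) (by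
      rw [Fin.sum_univ_castSucc]
      simpa using h4)
    have h6 := congrFun h5 (Fin.last _)
    simp at h6
  have hind : ∀ u v : K, ψ u + e * ψ v = 0 → u = 0 ∧ v = 0 := by
    intro u v h
    have hv : v = 0 := by
      by_contra hv
      apply hcase
      refine ⟨-(u / v), ?_⟩
      have : ψ v ≠ 0 := (map_ne_zero ψ).2 hv
      rw [map_neg, map_div₀]
      field_simp
      linear_combination -h
    subst hv
    rw [map_zero, mul_zero, add_zero] at h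
    exact ⟨hψ (by rw [h, map_zero]), rfl⟩
  have key : ψ ((∑ i, a i ^ 2 + 1) - F * ∑ i, b i ^ 2) + e * ψ (2 * ∑ i, a i * b i) = 0 := by
    have h3 : ∑ i, z i ^ 2 = ψ (∑ i, a i ^ 2) - ψ F * ψ (∑ i, b i ^ 2) +
        e * ψ (2 * ∑ i, a i * b i) := by
      simp only [map_sum, map_mul, map_pow, map_ofNat, Finset.mul_sum]
      rw [← Finset.sum_sub_distrib, ← Finset.sum_add_distrib]
      refine Finset.sum_congr rfl fun i _ => ?_
      rw [hab i]
      linear_combination (ψ (b i)) ^ 2 * he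
    simp only [map_add, map_sub, map_one, map_mul] at h3 ⊢
    linear_combination -h3 - hz
  obtain ⟨k1, k2⟩ := hind _ _ key
  have k3 : ∑ i, a i * b i = 0 := by
    rcases mul_eq_zero.1 k2 with h | h
    · exact absurd h h2
    · exact h
  have k4 : ∑ i, a i ^ 2 + 1 = F * ∑ i, b i ^ 2 := sub_eq_zero.1 k1
  -- vectors of length `2 ^ (j+1)`
  have hlen : 2 ^ (j + 1) = 2 ^ j + 2 ^ j := by rw [pow_succ, mul_two]
  have hpos : 0 < 2 ^ j := by positivity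
  obtain ⟨w, hw0, hw⟩ := MS hK (j + 1)
    (fun i => Fin.append a (Pi.single (⟨0, hpos⟩ : Fin (2 ^ j)) (1 : K)) (Fin.cast hlen i))
    (fun i => Fin.append b (0 : Fin (2 ^ j) → K) (Fin.cast hlen i))
  have hsum : ∀ g : Fin (2 ^ j + 2 ^ j) → K,
      ∑ i : Fin (2 ^ (j + 1)), g (Fin.cast hlen i) = ∑ i, g i := by
    intro g
    exact Fintype.sum_equiv (finCongr hlen) _ _ (fun i => rfl)
  rw [hsum (fun i => Fin.append a (Pi.single (⟨0, hpos⟩ : Fin (2 ^ j)) (1 : K)) i *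
    Fin.append b (0 : Fin (2 ^ j) → K) i), Fin.sum_univ_add] at hw0
  rw [hsum (fun i => Fin.append a (Pi.single (⟨0, hpos⟩ : Fin (2 ^ j)) (1 : K)) i ^ 2),
    hsum (fun i => Fin.append b (0 : Fin (2 ^ j) → K) i ^ 2), Fin.sum_univ_add,
    Fin.sum_univ_add] at hw
  simp only [Fin.append_left, Fin.append_right, Pi.zero_apply, mul_zero, Finset.sum_const_zero,
    add_zero, k3] at hw0
  have hsing : ∑ i : Fin (2 ^ j), (Pi.single (⟨0, hpos⟩ : Fin (2 ^ j)) (1 : K) :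
      Fin (2 ^ j) → K) i ^ 2 = 1 := by
    rw [Finset.sum_eq_single (⟨0, hpos⟩ : Fin (2 ^ j))]
    · simp
    · intro b _ hb
      rw [Pi.single_eq_of_ne hb]
      simp
    · simp
  simp only [Fin.append_left, Fin.append_right, Pi.zero_apply, ne_eq, OfNat.ofNat_ne_zero,
    not_false_eq_true, zero_pow, Finset.sum_const_zero, add_zero, hsing, k4] at hw
  set B := ∑ i, b i ^ 2 with hB
  have hB0 : B ≠ 0 := by
    intro h
    rw [h, mul_zero] at k4
    have h5 := hK (2 ^ j + 1) (Fin.snoc a 1) (by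
      rw [Fin.sum_univ_castSucc]
      simpa using k4)
    have h6 := congrFun h5 (Fin.last _)
    simp at h6
  -- drop the first coordinate
  have hlen2 : 2 ^ (j + 1) = (2 ^ (j + 1) - 1) + 1 := by
    have : 0 < 2 ^ (j + 1) := by positivity
    omega
  have h7 : ∑ i : Fin ((2 ^ (j + 1) - 1) + 1), w (Fin.cast hlen2.symm i) ^ 2 = F * B * B := by
    rw [← hw]
    exact (Fintype.sum_equiv (finCongr hlen2) _ _ (fun i => rfl)).symm
  rw [Fin.sum_univ_succ] at h7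
  have h8 : w (Fin.cast hlen2.symm 0) = 0 := by
    rw [← hw0]
    congr 1
  rw [h8] at h7
  have h9 : F = (B⁻¹) ^ 2 * ∑ i : Fin (2 ^ (j + 1) - 1), w (Fin.cast hlen2.symm i.succ) ^ 2 := by
    have : ∑ i : Fin (2 ^ (j + 1) - 1), w (Fin.cast hlen2.symm i.succ) ^ 2 = F * B * B := by
      linear_combination h7
    rw [this]
    field_simp
  rw [h9]
  exact SS_sq_mul ⟨_, rfl⟩ _

/-! ### stripping -/

theorem E5 {K : Type} [Field K] (hK : FR K) (F : K) (t M : ℕ)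
    (h : ∀ (K' : Type) [Field K'] (_ : FR K') (φ : K →+* K') (x : Fin t → K'),
      SS (M + t) (φ F + ∑ i, x i ^ 2)) : SS M F := by
  induction t with
  | zero =>
    have := h K hK (RingHom.id K) (fun i => i.elim0)
    simpa using this
  | succ t ih =>
    apply ih
    intro K' _ hK' φ x
    apply Rows.ST hK'
    have h1 := h (RatFunc K') (Rows.FR_ratfunc hK') ((RatFunc.C (K := K')).comp φ)
      (Fin.cons RatFunc.X (fun i => RatFunc.C (x i)))
    rw [Fin.sum_univ_succ] at h1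
    simp only [Fin.cons_zero, Fin.cons_succ] at h1
    have h2 : (RatFunc.X : RatFunc K') ^ 2 + RatFunc.C (φ F + ∑ i, x i ^ 2) =
        ((RatFunc.C (K := K')).comp φ) F + (RatFunc.X ^ 2 + ∑ i, RatFunc.C (x i) ^ 2) := by
      rw [map_add, map_sum, RingHom.comp_apply]
      simp only [map_pow]
      ring
    rw [h2]
    exact h1


/-! ### the vectors over `L[X]/(q)` -/

theorem card_Ix (n : ℕ) : Fintype.card (Ix n) = 2 ^ n := by
  induction n with
  | zero => rfl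
  | succ n ih =>
    show Fintype.card (Ix n ⊕ Ix n) = 2 ^ (n + 1)
    rw [Fintype.card_sum, ih, pow_succ, mul_two]

theorem wt_one {K : Type} [Field K] (l : List K) (hl : ∀ a ∈ l, a = 1) (i : Ix l.length) :
    wt l i = 1 := by
  induction l with
  | nil => rfl
  | cons a l ih =>
    change Ix l.length ⊕ Ix l.length at i
    show (Sum.elim (wt l) (fun i => a * wt l i)) i = 1
    have hl' : ∀ b ∈ l, b = 1 := fun b hb => hl b (List.mem_cons_of_mem _ hb)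
    rcases i with i | i
    · exact ih hl' i
    · show a * wt l i = 1
      rw [ih hl', hl a List.mem_cons_self, one_mul]

theorem iso_one {κ L : Type} [Fintype κ] [Field L] (l : List L) (hl : ∀ a ∈ l, a = 1)
    (hκ : Fintype.card κ = 2 ^ l.length) (q : L[X]) (v : κ → L[X]) (hv : ∃ i, ¬ q ∣ v i)
    (hq : q ∣ ∑ i, v i ^ 2) : IsoMod (wt l) q := by
  have hc : Fintype.card (Ix l.length) = Fintype.card κ := by rw [card_Ix, hκ]
  let e : Ix l.length ≃ κ := Fintype.equivOfCardEq hc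
  refine ⟨fun i => v (e i), ?_, ?_⟩
  · obtain ⟨i, hi⟩ := hv
    exact ⟨e.symm i, by simpa using hi⟩
  · have : ∑ i, C (wt l i) * v (e i) ^ 2 = ∑ i, v i ^ 2 := by
      rw [← Equiv.sum_comp e]
      refine Finset.sum_congr rfl fun i _ => ?_
      rw [wt_one l hl, C_1, one_mul]
    rw [this]
    exact hq

theorem SPn (n : ℕ) (l : List (kk n)) (hn : l.length = n) (hl : ∀ a ∈ l, a ≠ 0) (b : kk n)
    (hb : IsSumSq b) : b ∈ D l := by
  obtain ⟨K', _, φ, I, hI, hs, hU⟩ := TLI n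
  exact SP (FR_kk n) φ I hI hs n hU l hn hl b hb

/-- evaluation of the identity of the heart -/
theorem heart_eval' {k L : Type} [Field k] [Field L] (F : k[X]) (P : k[X]) (r : k)
    (A B : k[X][X]) (hP : C P ∣ F.map C - A ^ 2 - C (C r) * B ^ 2)
    (φ : k →+* L) (y : L) :
    ∃ A' B' : L[X], P.map φ ∣ C (F.eval₂ φ y) - A' ^ 2 - C (φ r) * B' ^ 2 := by
  let θ : k[X][X] →+* L[X] := eval₂RingHom (mapRingHom φ) (C y)
  refine ⟨θ A, θ B, ?_⟩
  have h1 := map_dvd θ hP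
  have h2 : θ (C P) = P.map φ := by
    show eval₂ (mapRingHom φ) (C y) (C P) = _
    rw [eval₂_C]; rfl
  have h3 : θ (F.map C) = C (F.eval₂ φ y) := by
    show eval₂ (mapRingHom φ) (C y) (F.map C) = _
    rw [eval₂_map, hom_eval₂]
    congr 1
    ext x
    simp
  have h4 : θ (C (C r)) = C (φ r) := by
    show eval₂ (mapRingHom φ) (C y) (C (C r)) = _
    rw [eval₂_C]; simp
  rw [h2, map_sub, map_sub, map_mul, map_pow, map_pow, h3, h4] at h1
  exact h1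

theorem heart_eval (n : ℕ) (f : MvPolynomial (Fin (n + 2)) ℝ) (P : (kk n)[X])
    (A B : (kk n)[X][X]) (hP : C P ∣ (Fk n f).map C - A ^ 2 - C (C (rr n)) * B ^ 2)
    {L : Type} [Field L] (φ : kk n →+* L) (y : L) :
    ∃ A' B' : L[X], P.map φ ∣ C ((Fk n f).eval₂ φ y) - A' ^ 2 - C (φ (rr n)) * B' ^ 2 :=
  heart_eval' (Fk n f) P (rr n) A B hP φ y

/-- `n ≥ 3`: the sum with `2 ^ n - n - 3` additional squares -/
theorem E3 (n m : ℕ) (hn : 3 ≤ n) (hm : 0 < m) (f : MvPolynomial (Fin (n + 2)) ℝ) (hf : PD n m f)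
    {K : Type} [Field K] (hK : FR K) (φ : kk n →+* K) (y : K) (x : Fin (2 ^ n - n - 3) → K) :
    SS (2 ^ (n + 1) - 1) ((Fk n f).eval₂ φ y + ∑ i, x i ^ 2) := by
  obtain ⟨P, A, B, c, hPm, hP, hc, hσ⟩ := HE n m hm f hf
  set F := (Fk n f).eval₂ φ y + ∑ i, x i ^ 2 with hF
  by_cases hF0 : F = 0
  · rw [hF0]; exact SS_zero_val _
  obtain ⟨L, _, ψ, e, he, hs⟩ := E0 F
  have he0 : e ≠ 0 := by
    rintro rfl
    rw [zero_pow two_ne_zero] at he
    exact hF0 ((map_eq_zero ψ).1 (neg_eq_zero.1 he.symm))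
  refine E2 hK ψ F e he hs n ?_
  have h2 : (2 : L) ≠ 0 := by
    have := (map_ne_zero ψ).2 hK.two
    rwa [map_ofNat] at this
  have h1 : ∀ a ∈ List.replicate n (1 : kk n), a ≠ 0 := by
    intro a ha
    rw [List.eq_of_mem_replicate ha]
    exact one_ne_zero
  have hmap : (List.replicate n (1 : kk n)).map (ψ.comp φ) = List.replicate n (1 : L) := by
    rw [List.map_replicate, map_one]
  have h3 := E1 (ψ.comp φ) h2 (List.replicate n 1) h1 P hPm c hc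
    (SPn n _ (List.length_replicate) h1 _ hσ) ?_
  · rw [hmap] at h3
    exact (SS_iff_D n _).2 h3
  intro q hq hqP
  rw [hmap]
  obtain ⟨A', B', hAB⟩ := heart_eval n f P A B hP (ψ.comp φ) (ψ y)
  have hcard : 2 ^ n ≥ n + 3 := by
    obtain ⟨j, rfl⟩ := Nat.exists_eq_add_of_le hn
    clear * -
    induction j with
    | zero => norm_num
    | succ j ih => rw [← add_assoc, pow_succ]; omega
  refine iso_one (κ := (Unit ⊕ Fin (n + 1)) ⊕ (Fin (2 ^ n - n - 3) ⊕ Unit)) _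
    (fun a ha => List.eq_of_mem_replicate ha) ?_ q
    (Sum.elim (Sum.elim (fun _ => A') (fun i => C (ψ (φ (vv n i))) * B'))
      (Sum.elim (fun i => C (ψ (x i))) (fun _ => C e))) ?_ ?_
  · simp only [Fintype.card_sum, Fintype.card_unit, Fintype.card_fin, List.length_replicate]
    omega
  · refine ⟨Sum.inr (Sum.inr ()), ?_⟩
    intro h
    exact hq.not_isUnit (isUnit_of_dvd_unit h (isUnit_C.2 (isUnit_iff_ne_zero.2 he0)))
  · rw [Fintype.sum_sum_type, Fintype.sum_sum_type, Fintype.sum_sum_type]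
    simp only [Sum.elim_inl, Sum.elim_inr, Finset.univ_unique, Finset.sum_singleton]
    have h5 := dvd_neg.2 (hqP.trans hAB)
    have h6 : ψ ((Fk n f).eval₂ φ y) = (Fk n f).eval₂ (ψ.comp φ) (ψ y) := hom_eval₂ _ _ _ _
    have h7 : C ((Fk n f).eval₂ (ψ.comp φ) (ψ y)) = -(C e) ^ 2 - ∑ i, C (ψ (x i)) ^ 2 := by
      have h8 : ψ F = ψ ((Fk n f).eval₂ φ y) + ∑ i, ψ (x i) ^ 2 := by
        rw [hF, map_add, map_sum]; simp
      rw [← h6, ← C_pow, he, h8]
      simp only [C_neg, C_add, map_sum, C_pow]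
      ring
    have h9 : C ((ψ.comp φ) (rr n)) * B' ^ 2 = ∑ i, (C (ψ (φ (vv n i))) * B') ^ 2 := by
      rw [rr, map_sum, map_sum, Finset.sum_mul]
      refine Finset.sum_congr rfl fun i _ => ?_
      simp only [map_pow, RingHom.comp_apply]
      ring
    rw [h7, h9] at h5
    convert h5 using 1
    ring

theorem rr_ne (n : ℕ) : rr n ≠ 0 := by
  intro h
  have h1 := FR_kk n (n + 1) (vv n) h
  have h2 := congrFun h1 0
  simp [vv] at h2

/-- `n = 2` -/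
theorem E4 (m : ℕ) (hm : 0 < m) (f : MvPolynomial (Fin (2 + 2)) ℝ) (hf : PD 2 m f)
    {K : Type} [Field K] (hK : FR K) (φ : kk 2 →+* K) (y : K) :
    SS 7 ((Fk 2 f).eval₂ φ y) := by
  obtain ⟨P, A, B, c, hPm, hP, hc, hσ⟩ := HE 2 m hm f hf
  set F := (Fk 2 f).eval₂ φ y with hF
  by_cases hF0 : F = 0
  · rw [hF0]; exact SS_zero_val _
  obtain ⟨L, _, ψ, e, he, hs⟩ := E0 F
  have he0 : e ≠ 0 := by
    rintro rfl
    rw [zero_pow two_ne_zero] at he
    exact hF0 ((map_eq_zero ψ).1 (neg_eq_zero.1 he.symm))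
  refine E2 hK ψ F e he hs 2 ?_
  have h2 : (2 : L) ≠ 0 := by
    have := (map_ne_zero ψ).2 hK.two
    rwa [map_ofNat] at this
  have h1 : ∀ a ∈ [(1 : kk 2), rr 2], a ≠ 0 := by
    intro a ha
    rcases List.mem_cons.1 ha with rfl | ha
    · exact one_ne_zero
    · rw [List.mem_singleton.1 ha]; exact rr_ne 2
  set ρ := (ψ.comp φ) (rr 2) with hρ
  have hmap : [(1 : kk 2), rr 2].map (ψ.comp φ) = [(1 : L), ρ] := by
    simp [hρ]
  have h3 := E1 (ψ.comp φ) h2 [1, rr 2] h1 P hPm c hc (SPn 2 _ rfl h1 _ hσ) ?_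
  · rw [hmap] at h3
    rw [SS_iff_D]
    show (-1 : L) ∈ D [(1 : L), 1]
    -- `ρ` is a sum of four squares
    have hρ4 : ρ ∈ D [(1 : L), 1] := by
      have : ρ = (ψ (φ (vv 2 0)) ^ 2 + 1 * ψ (φ (vv 2 1)) ^ 2) +
          1 * (ψ (φ (vv 2 2)) ^ 2 + 1 * 0 ^ 2) := by
        rw [hρ, rr, Fin.sum_univ_three]
        simp only [map_add, map_pow, RingHom.comp_apply]
        ring
      rw [this]
      exact ⟨_, ⟨_, ⟨_, rfl⟩, _, ⟨_, rfl⟩, rfl⟩, _, ⟨_, ⟨_, rfl⟩, _, ⟨_, rfl⟩, rfl⟩, rfl⟩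
    obtain ⟨s, ⟨s0, ⟨x1, rfl⟩, s1, ⟨y1, rfl⟩, rfl⟩, t, ⟨t0, ⟨x2, rfl⟩, t1, ⟨y2, rfl⟩, rfl⟩, hst⟩ := h3
    have hy : y1 ^ 2 + y2 ^ 2 ∈ D [(1 : L), 1] :=
      ⟨y1 ^ 2 + 1 * y2 ^ 2, ⟨_, ⟨_, rfl⟩, _, ⟨_, rfl⟩, rfl⟩, 0, D_zero _, by ring⟩
    obtain ⟨a0, ⟨b0, ⟨c1, rfl⟩, b1, ⟨c2, rfl⟩, rfl⟩, a1, ⟨b2, ⟨c3, rfl⟩, b3, ⟨c4, rfl⟩, rfl⟩, hc4⟩ :=
      D_mul _ hρ4 hy
    have hsum : (1 + x1 ^ 2 + 1 * (x2 ^ 2 + 1 * c1 ^ 2)) + (c2 ^ 2 + c3 ^ 2 + c4 ^ 2) = 0 := by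
      linear_combination -hst - hc4
    have hS1 : 1 + x1 ^ 2 + 1 * (x2 ^ 2 + 1 * c1 ^ 2) ∈ D [(1 : L), 1] :=
      ⟨1 + x1 ^ 2, ⟨1, ⟨1, by ring⟩, x1 ^ 2, ⟨x1, rfl⟩, by ring⟩, x2 ^ 2 + 1 * c1 ^ 2,
        ⟨_, ⟨_, rfl⟩, _, ⟨_, rfl⟩, rfl⟩, rfl⟩
    have hS2 : c2 ^ 2 + c3 ^ 2 + c4 ^ 2 ∈ D [(1 : L), 1] :=
      ⟨c2 ^ 2 + 1 * c3 ^ 2, ⟨_, ⟨_, rfl⟩, _, ⟨_, rfl⟩, rfl⟩, c4 ^ 2 + 1 * 0 ^ 2,
        ⟨_, ⟨_, rfl⟩, _, ⟨_, rfl⟩, rfl⟩, by ring⟩
    by_cases h0 : c2 ^ 2 + c3 ^ 2 + c4 ^ 2 = 0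
    · by_cases h00 : 1 + x1 ^ 2 = 0
      · have : (-1 : L) = x1 ^ 2 := by linear_combination -h00
        rw [this]; exact D_sq _ _
      · refine D_univ_of h2 (s := 1 + x1 ^ 2) (t := x2 ^ 2 + 1 * c1 ^ 2) ?_ ?_ ?_ ?_ h00 _
        · intro b hb
          simp only [List.mem_cons, List.not_mem_nil, or_false, or_self] at hb
          rw [hb]; exact one_ne_zero
        · exact ⟨1, ⟨1, by ring⟩, x1 ^ 2, ⟨x1, rfl⟩, by ring⟩
        · exact ⟨_, ⟨_, rfl⟩, _, ⟨_, rfl⟩, rfl⟩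
        · linear_combination hsum - h0
    · have h5 := D_div _ hS1 hS2
      have h6 : (1 + x1 ^ 2 + 1 * (x2 ^ 2 + 1 * c1 ^ 2)) / (c2 ^ 2 + c3 ^ 2 + c4 ^ 2) = -1 := by
        rw [div_eq_iff h0]
        linear_combination hsum
      rw [h6] at h5
      exact h5
  intro q hq hqP
  rw [hmap]
  obtain ⟨A', B', hAB⟩ := heart_eval 2 f P A B hP (ψ.comp φ) (ψ y)
  refine ⟨Sum.elim (Sum.elim (fun _ => A') (fun _ => B')) (Sum.elim (fun _ => C e) (fun _ => 0)),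
    ⟨Sum.inr (Sum.inl ()), ?_⟩, ?_⟩
  · intro h
    exact hq.not_isUnit (isUnit_of_dvd_unit h (isUnit_C.2 (isUnit_iff_ne_zero.2 he0)))
  · have hsum : ∑ i : Ix [(1 : L), ρ].length, C (wt [(1 : L), ρ] i) *
        (Sum.elim (Sum.elim (fun _ => A') (fun _ => B')) (Sum.elim (fun _ => C e) (fun _ => 0)) :
          (Unit ⊕ Unit) ⊕ (Unit ⊕ Unit) → L[X]) i ^ 2 = A' ^ 2 + C ρ * B' ^ 2 + C e ^ 2 := by
      show ∑ i : (Unit ⊕ Unit) ⊕ (Unit ⊕ Unit), C ((Sum.elim (Sum.elim (fun _ => (1 : L))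
        (fun _ => ρ * 1)) (fun i => 1 * (Sum.elim (fun _ => (1 : L)) (fun _ => ρ * 1) :
          Unit ⊕ Unit → L) i) : (Unit ⊕ Unit) ⊕ (Unit ⊕ Unit) → L) i) * _ = _
      rw [Fintype.sum_sum_type, Fintype.sum_sum_type, Fintype.sum_sum_type]
      simp
    have h5 := dvd_neg.2 (hqP.trans hAB)
    have h6 : ψ ((Fk 2 f).eval₂ φ y) = (Fk 2 f).eval₂ (ψ.comp φ) (ψ y) := hom_eval₂ _ _ _ _
    have h7 : C ((Fk 2 f).eval₂ (ψ.comp φ) (ψ y)) = -(C e) ^ 2 := by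
      rw [← h6, ← C_pow, he, ← hF, C_neg, neg_neg]
    rw [h7] at h5
    have h9 : q ∣ A' ^ 2 + C ρ * B' ^ 2 + C e ^ 2 := by
      have h10 : A' ^ 2 + C ρ * B' ^ 2 + C e ^ 2 =
          -(-C e ^ 2 - A' ^ 2 - C ((ψ.comp φ) (rr 2)) * B' ^ 2) := by
        rw [hρ]; ring
      rw [h10]
      exact h5
    rw [← hsum] at h9
    exact h9

end Pool.Agent.PDF
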