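import Pool.Agent.PDF.E

/-!
# Positive definite forms in `N + 1 ≥ 4` variables: better than Pfister's bound
-/

set_option autoImplicit false

namespace Pool.Agent.PDF

/-! ### the final theorem -/

section final

open MvPolynomial

/-- the embedding `ℝ(X₁,…,X_n) → ℝ(X₀,…,X_n)` -/
theorem exists_embed (n : ℕ) : ∃ φ : kk n →+* kk (n + 1), ∀ p : MvPolynomial (Fin n) ℝ,
    φ (algebraMap _ _ p) = algebraMap _ _ (rename Fin.succ p) := by
  let g : MvPolynomial (Fin n) ℝ →+* kk (n + 1) :=
    (algebraMap (MvPolynomial (Fin (n + 1)) ℝ) (kk (n + 1))).comp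
      (rename Fin.succ : MvPolynomial (Fin n) ℝ →ₐ[ℝ] _).toRingHom
  have hg : Function.Injective g :=
    (IsFractionRing.injective _ _).comp (rename_injective _ (Fin.succ_injective n))
  refine ⟨IsFractionRing.lift hg, fun p => ?_⟩
  rw [IsFractionRing.lift_algebraMap]
  rfl

theorem hom_smul {σ : Type} [Fintype σ] {f : MvPolynomial σ ℝ} {d : ℕ} (hf : f.IsHomogeneous d)
    (c : ℝ) (v : σ → ℝ) : eval (fun i => c * v i) f = c ^ d * eval v f := by
  rw [eval_eq', eval_eq', Finset.mul_sum]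
  refine Finset.sum_congr rfl fun s hs => ?_
  have h1 : ∑ i, s i = d := by
    have := hf (mem_support_iff.1 hs)
    rw [← this, Finsupp.weight_apply, Finsupp.sum_fintype]
    · simp
    · simp
  have h2 : ∏ i, (c * v i) ^ s i = c ^ d * ∏ i, v i ^ s i := by
    simp_rw [mul_pow]
    rw [Finset.prod_mul_distrib, Finset.prod_pow_eq_pow_sum, h1]
  rw [h2]
  ring

/-- the vector `(X₀, 1, X₁, …, X_n)` -/
noncomputable def uu (n : ℕ) : Fin (n + 2) → MvPolynomial (Fin (n + 1)) ℝ :=
  Fin.cons (X 0) (Fin.cons 1 (fun i : Fin n => X i.succ))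

/-- `F` evaluated at the new variable -/
theorem Fk_eval (n : ℕ) (φ : kk n →+* kk (n + 1)) (hφ : ∀ p : MvPolynomial (Fin n) ℝ,
    φ (algebraMap _ _ p) = algebraMap _ _ (rename Fin.succ p)) (f : MvPolynomial (Fin (n + 2)) ℝ) :
    (Fk n f).eval₂ φ (algebraMap (MvPolynomial (Fin (n + 1)) ℝ) _ (X 0)) =
      algebraMap (MvPolynomial (Fin (n + 1)) ℝ) (kk (n + 1))
        (aeval (uu n) f) := by
  set y : kk (n + 1) := algebraMap (MvPolynomial (Fin (n + 1)) ℝ) _ (X 0) with hy
  have hC : ∀ a : ℝ, φ (algebraMap ℝ (kk n) a) = algebraMap ℝ (kk (n + 1)) a := by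
    intro a
    have := hφ (C a)
    rw [rename_C] at this
    rw [IsScalarTower.algebraMap_apply ℝ (MvPolynomial (Fin n) ℝ) (kk n),
      IsScalarTower.algebraMap_apply ℝ (MvPolynomial (Fin (n + 1)) ℝ) (kk (n + 1)),
      MvPolynomial.algebraMap_eq, MvPolynomial.algebraMap_eq]
    exact this
  have hX : ∀ i : Fin n, φ (algebraMap (MvPolynomial (Fin n) ℝ) (kk n) (X i)) =
      algebraMap (MvPolynomial (Fin (n + 1)) ℝ) (kk (n + 1)) (X i.succ) := by
    intro i
    rw [hφ, rename_X]
  show Polynomial.eval₂ φ y (Polynomial.map (aeval (vv n)).toRingHom (finSuccEquiv ℝ (n + 1) f)) = _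
  rw [Polynomial.eval₂_map]
  induction f using MvPolynomial.induction_on with
  | C a =>
    rw [finSuccEquiv_apply]
    simp only [coe_eval₂Hom, eval₂_C, RingHom.comp_apply, Polynomial.eval₂_C]
    show φ (aeval (vv n) (C a)) = _
    rw [aeval_C, hC, aeval_C, MvPolynomial.algebraMap_eq,
      IsScalarTower.algebraMap_apply ℝ (MvPolynomial (Fin (n + 1)) ℝ) (kk (n + 1)),
      MvPolynomial.algebraMap_eq]
  | add p q hp hq => rw [map_add, Polynomial.eval₂_add, hp, hq, map_add, map_add]
  | mul_X p i hp =>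
    rw [map_mul, Polynomial.eval₂_mul, hp, map_mul, map_mul]
    have hx : Polynomial.eval₂ (φ.comp ((aeval (vv n) :
        MvPolynomial (Fin (n + 1)) ℝ →ₐ[ℝ] kk n)).toRingHom) y
        (finSuccEquiv ℝ (n + 1) (X i)) = algebraMap (MvPolynomial (Fin (n + 1)) ℝ) (kk (n + 1))
          (aeval (uu n) (X i : MvPolynomial (Fin (n + 2)) ℝ)) := by
      rw [aeval_X]
      cases i using Fin.cases with
      | zero =>
        rw [finSuccEquiv_X_zero, Polynomial.eval₂_X]
        rfl
      | succ j =>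
        rw [finSuccEquiv_X_succ, Polynomial.eval₂_C]
        show φ (aeval (vv n) (X j)) = _
        rw [aeval_X]
        cases j using Fin.cases with
        | zero => simp [vv, uu]
        | succ j => simp [vv, uu, hX]
    rw [hx]

theorem final_aux (n : ℕ) (hn : 2 ≤ n) (d : ℕ) (f : MvPolynomial (Fin (n + 2)) ℝ)
    (hf : f.IsHomogeneous d) (hpos : ∀ v : Fin (n + 2) → ℝ, v ≠ 0 → 0 < eval v f) :
    SS (if n = 2 then 7 else 2 ^ n + n + 2) (algebraMap (MvPolynomial (Fin (n + 1)) ℝ) (kk (n + 1))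
      (aeval (Fin.cons 1 X : Fin (n + 2) → MvPolynomial (Fin (n + 1)) ℝ) f)) := by
  -- the degree is even
  obtain ⟨m, rfl⟩ : ∃ m, d = 2 * m := by
    rcases Nat.even_or_odd' d with ⟨m, hm | hm⟩
    · exact ⟨m, hm⟩
    · exfalso
      have h1 : (fun _ => (1 : ℝ) : Fin (n + 2) → ℝ) ≠ 0 := fun h => by
        simpa using congrFun h 0
      have h2 : (fun _ => (-1 : ℝ) * 1 : Fin (n + 2) → ℝ) ≠ 0 := fun h => by
        simpa using congrFun h 0
      have h3 := hpos _ h1
      have h4 := hpos _ h2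
      have h5 := hom_smul hf (-1) (fun _ => (1 : ℝ))
      rw [hm, pow_succ, pow_mul] at h5
      norm_num at h5
      norm_num at h4
      linarith
  -- the swapped form
  let σ : Equiv.Perm (Fin (n + 2)) := Equiv.swap 0 1
  set c := eval ((Fin.cons 1 0 : Fin (n + 2) → ℝ) ∘ σ) f with hc
  have hcpos : 0 < c := by
    refine hpos _ fun h => ?_
    have := congrFun h 1
    simp [σ] at this
  set f' : MvPolynomial (Fin (n + 2)) ℝ := C (c⁻¹) * rename σ f with hf'
  have hPD : PD n m f' := by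
    refine ⟨?_, ?_, ?_⟩
    · exact (hf.rename_isHomogeneous).C_mul _
    · intro v hv
      rw [hf', map_mul, eval_C, eval_rename]
      refine mul_pos (inv_pos.2 hcpos) (hpos _ fun h => hv ?_)
      funext i
      have := congrFun h (σ.symm i)
      simpa using this
    · rw [hf', map_mul, eval_C, eval_rename, ← hc]
      exact inv_mul_cancel₀ hcpos.ne'
  -- relation of the values
  have hval : aeval (Fin.cons 1 X : Fin (n + 2) → MvPolynomial (Fin (n + 1)) ℝ) f =
      C c * aeval (uu n) f' := by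
    rw [hf', map_mul, aeval_C, MvPolynomial.algebraMap_eq, ← mul_assoc, ← C_mul,
      mul_inv_cancel₀ hcpos.ne', C_1, one_mul, aeval_rename]
    congr 1
    congr 1
    funext i
    refine Fin.cases ?_ (fun j => ?_) i
    · simp [σ, uu]
    · refine Fin.cases ?_ (fun j => ?_) j
      · simp [σ, uu]
      · have h1 : σ j.succ.succ = j.succ.succ := by
          apply Equiv.swap_apply_of_ne_of_ne
          · exact Fin.succ_ne_zero _
          · intro h
            have := congrArg Fin.val h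
            simp at this
        rw [Function.comp_apply, h1]
        simp [uu]
  have hsq : ∀ a : kk (n + 1), C c = (C (Real.sqrt c) : MvPolynomial (Fin (n + 1)) ℝ) ^ 2 := by
    intro _
    rw [← C_pow, Real.sq_sqrt hcpos.le]
  rw [hval, map_mul, hsq 0, map_pow]
  refine SS_sq_mul ?_ _
  obtain ⟨φ, hφ⟩ := exists_embed n
  rw [← Fk_eval n φ hφ f']
  set y : kk (n + 1) := algebraMap (MvPolynomial (Fin (n + 1)) ℝ) _ (X 0) with hy
  rcases Nat.eq_zero_or_pos m with rfl | hm
  · -- constant polynomial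
    have h0 : f' = 1 := by
      have h1 : f'.totalDegree = 0 := by
        have := hPD.hom.totalDegree_le
        omega
      rw [totalDegree_eq_zero_iff_eq_C] at h1
      have h2 := hPD.monic
      rw [h1, eval_C] at h2
      rw [h1, h2, C_1]
    have h3 : (Fk n f').eval₂ φ y = 1 := by
      rw [h0, Fk, map_one, Polynomial.map_one, Polynomial.eval₂_one]
    rw [h3]
    have h4 : ∀ M : ℕ, 0 < M → SS M (1 : kk (n + 1)) := by
      intro M hM
      refine ⟨Pi.single ⟨0, hM⟩ 1, ?_⟩
      rw [Finset.sum_eq_single (⟨0, hM⟩ : Fin M)]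
      · simp
      · intro b _ hb
        rw [Pi.single_eq_of_ne hb]; simp
      · simp
    apply h4
    split_ifs <;> positivity
  by_cases h2 : n = 2
  · subst h2
    rw [if_pos rfl]
    exact E4 m hm f' hPD (FR_kk 3) φ y
  · rw [if_neg h2]
    have hn3 : 3 ≤ n := by omega
    have hcard : 2 ^ n ≥ n + 3 := by
      obtain ⟨j, rfl⟩ := Nat.exists_eq_add_of_le hn3
      clear * -
      induction j with
      | zero => norm_num
      | succ j ih => rw [← add_assoc, pow_succ]; omega
    refine E5 (FR_kk (n + 1)) _ (2 ^ n - n - 3) _ ?_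
    intro K' _ hK' ψ x
    have h5 := E3 n m hn3 hm f' hPD hK' (ψ.comp φ) (ψ y) x
    rw [← Polynomial.hom_eval₂] at h5
    have h6 : 2 ^ n + n + 2 + (2 ^ n - n - 3) = 2 ^ (n + 1) - 1 := by
      rw [pow_succ]; omega
    rw [h6]
    exact h5

theorem final (N : ℕ) (hN : 3 ≤ N) (d : ℕ) (f : MvPolynomial (Fin (N + 1)) ℝ)
    (hf : f.IsHomogeneous d) (hpos : ∀ v : Fin (N + 1) → ℝ, v ≠ 0 → 0 < MvPolynomial.eval v f) :
    ∃ g : Fin (if N = 3 then 7 else 2 ^ (N - 1) + N + 1) →
        FractionRing (MvPolynomial (Fin N) ℝ),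
      algebraMap (MvPolynomial (Fin N) ℝ) (FractionRing (MvPolynomial (Fin N) ℝ))
        (MvPolynomial.aeval (Fin.cons 1 MvPolynomial.X) f) = ∑ i, g i ^ 2 := by
  obtain ⟨n, rfl⟩ : ∃ n, N = n + 1 := ⟨N - 1, by omega⟩
  have h1 := final_aux n (by omega) d f hf hpos
  have h2 : (if n = 2 then 7 else 2 ^ n + n + 2) =
      (if n + 1 = 3 then 7 else 2 ^ (n + 1 - 1) + (n + 1) + 1) := by
    by_cases h : n = 2
    · rw [if_pos h, if_pos (by omega)]
    · rw [if_neg h, if_neg (by omega), Nat.add_sub_cancel]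
      ring
  rw [h2] at h1
  exact h1

end final

end Pool.Agent.PDF
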