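import Pool.Agent.PDF.Defs

/-!
# Pfister forms through their value sets
-/

set_option autoImplicit false

namespace Pool.Agent.PDF

section basic

variable {K : Type} [Field K]

theorem D_nil {c : K} : c ∈ D ([] : List K) ↔ ∃ x, c = x ^ 2 := Iff.rfl

theorem D_cons {a : K} {l : List K} {c : K} :
    c ∈ D (a :: l) ↔ ∃ s ∈ D l, ∃ t ∈ D l, c = s + a * t := Iff.rfl

theorem D_sq_mul (l : List K) {a : K} (ha : a ∈ D l) (x : K) : x ^ 2 * a ∈ D l := by
  induction l generalizing a with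
  | nil => obtain ⟨y, rfl⟩ := ha; exact ⟨x * y, by ring⟩
  | cons b l ih =>
    obtain ⟨s, hs, t, ht, rfl⟩ := ha
    exact ⟨_, ih hs, _, ih ht, by ring⟩

theorem D_zero (l : List K) : (0 : K) ∈ D l := by
  induction l with
  | nil => exact ⟨0, by ring⟩
  | cons b l ih => exact ⟨0, ih, 0, ih, by ring⟩

theorem D_one (l : List K) : (1 : K) ∈ D l := by
  induction l with
  | nil => exact ⟨1, by ring⟩
  | cons b l ih => exact ⟨1, ih, 0, D_zero l, by ring⟩

theorem D_sq (l : List K) (x : K) : x ^ 2 ∈ D l := by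
  simpa using D_sq_mul l (D_one l) x

theorem D_le_cons {a : K} {l : List K} {c : K} (h : c ∈ D l) : c ∈ D (a :: l) :=
  ⟨c, h, 0, D_zero l, by ring⟩

/-- the parallelogram property -/
theorem D_gram (l : List K) {u v : K} (hu : u ∈ D l) (hv : v ∈ D l) :
    ∃ β : K, ∀ α γ : K, α ^ 2 * u + 2 * α * γ * β + γ ^ 2 * v ∈ D l := by
  induction l generalizing u v with
  | nil =>
    obtain ⟨x, rfl⟩ := hu
    obtain ⟨y, rfl⟩ := hv
    exact ⟨x * y, fun α γ => ⟨α * x + γ * y, by ring⟩⟩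
  | cons b l ih =>
    obtain ⟨s, hs, t, ht, rfl⟩ := hu
    obtain ⟨s', hs', t', ht', rfl⟩ := hv
    obtain ⟨β₁, h1⟩ := ih hs hs'
    obtain ⟨β₂, h2⟩ := ih ht ht'
    exact ⟨β₁ + b * β₂, fun α γ => ⟨_, h1 α γ, _, h2 α γ, by ring⟩⟩

theorem D_mul (l : List K) {a b : K} (ha : a ∈ D l) (hb : b ∈ D l) : a * b ∈ D l := by
  induction l generalizing a b with
  | nil =>
    obtain ⟨x, rfl⟩ := ha
    obtain ⟨y, rfl⟩ := hb
    exact ⟨x * y, by ring⟩
  | cons c l ih =>
    obtain ⟨s, hs, t, ht, rfl⟩ := ha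
    obtain ⟨s', hs', t', ht', rfl⟩ := hb
    by_cases hs0 : s = 0
    · subst hs0
      refine ⟨_, D_sq_mul l (ih ht ht') c, _, ih ht hs', by ring⟩
    by_cases ht0 : t = 0
    · subst ht0
      exact ⟨_, ih hs hs', _, ih hs ht', by ring⟩
    have hp : s' / s ∈ D l := by
      have := D_sq_mul l (ih hs hs') (s⁻¹)
      convert this using 1
      field_simp
    have hq : t' / t ∈ D l := by
      have := D_sq_mul l (ih ht ht') (t⁻¹)
      convert this using 1
      field_simp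
    obtain ⟨β, hβ⟩ := D_gram l hp hq
    have h1 := hβ s (c * t)
    have h2 := ih (ih hs ht) (hβ 1 (-1))
    refine ⟨_, h1, _, h2, ?_⟩
    field_simp
    ring

theorem D_inv (l : List K) {a : K} (ha : a ∈ D l) : a⁻¹ ∈ D l := by
  by_cases h : a = 0
  · rw [h, inv_zero]; exact D_zero l
  · have := D_sq_mul l ha (a⁻¹)
    convert this using 1
    field_simp

theorem D_div (l : List K) {a b : K} (ha : a ∈ D l) (hb : b ∈ D l) : a / b ∈ D l := by
  rw [div_eq_mul_inv]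
  exact D_mul l ha (D_inv l hb)

theorem D_wt (l : List K) (c : K) : c ∈ D l ↔ Rep (wt l) c := by
  induction l generalizing c with
  | nil =>
    constructor
    · rintro ⟨x, rfl⟩
      refine ⟨fun _ => x, ?_⟩
      show ∑ i : Unit, (1 : K) * x ^ 2 = x ^ 2
      simp
    · rintro ⟨x, rfl⟩
      refine ⟨x (), ?_⟩
      show ∑ i : Unit, (1 : K) * x i ^ 2 = x () ^ 2
      simp
  | cons a l ih =>
    constructor
    · rintro ⟨s, hs, t, ht, rfl⟩
      obtain ⟨x, rfl⟩ := (ih s).1 hs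
      obtain ⟨y, rfl⟩ := (ih t).1 ht
      refine ⟨Sum.elim x y, ?_⟩
      show ∑ i : Ix l.length ⊕ Ix l.length, (Sum.elim (wt l) (fun i => a * wt l i)) i *
        (Sum.elim x y) i ^ 2 = _
      rw [Fintype.sum_sum_type, Finset.mul_sum]
      simp [mul_assoc]
    · rintro ⟨z, rfl⟩
      refine ⟨_, (ih _).2 ⟨fun i => z (Sum.inl i), rfl⟩, _, (ih _).2 ⟨fun i => z (Sum.inr i), rfl⟩,
        ?_⟩
      show ∑ i : Ix l.length ⊕ Ix l.length, (Sum.elim (wt l) (fun i => a * wt l i)) i *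
        z i ^ 2 = _
      rw [Fintype.sum_sum_type, Finset.mul_sum]
      simp [mul_assoc]

theorem wt_ne (l : List K) (hl : ∀ a ∈ l, a ≠ 0) (i : Ix l.length) : wt l i ≠ 0 := by
  induction l with
  | nil => exact one_ne_zero
  | cons a l ih =>
    have hl' : ∀ b ∈ l, b ≠ 0 := fun b hb => hl b (List.mem_cons_of_mem _ hb)
    change Ix l.length ⊕ Ix l.length at i
    show (Sum.elim (wt l) (fun i => a * wt l i)) i ≠ 0
    rcases i with i | i
    · exact ih hl' i
    · exact mul_ne_zero (hl a List.mem_cons_self) (ih hl' i)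

theorem mulC_wt (l : List K) : MulC (wt l) := by
  intro a b ha hb
  rw [← D_wt] at ha hb ⊢
  exact D_mul l ha hb

end basic

theorem iso_univ {ι K : Type} [Fintype ι] [Field K] (h2 : (2 : K) ≠ 0) (w : ι → K)
    (hw : ∀ i, w i ≠ 0) (h : ¬ Aniso w) (c : K) : Rep w c := by
  classical
  unfold Aniso at h
  push Not at h
  obtain ⟨x, hx, hx0⟩ := h
  obtain ⟨i, hi⟩ : ∃ i, x i ≠ 0 := by
    by_contra hcon
    push Not at hcon
    exact hx0 (funext hcon)
  have key : ∀ μ : K, ∑ j, w j * (μ * x j + (Pi.single i (1 : K) : ι → K) j) ^ 2 =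
      2 * μ * w i * x i + w i := by
    intro μ
    have h1 : ∀ j, w j * (μ * x j + (Pi.single i (1 : K) : ι → K) j) ^ 2 =
        μ ^ 2 * (w j * x j ^ 2) + (2 * μ * w j * x j + w j) *
          (Pi.single i (1 : K) : ι → K) j := by
      intro j
      by_cases hj : j = i
      · subst hj
        simp
        ring
      · simp [hj]
        ring
    rw [Finset.sum_congr rfl (fun j _ => h1 j), Finset.sum_add_distrib, ← Finset.mul_sum, hx]
    simp [Pi.single_apply]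
  refine ⟨fun j => ((c - w i) / (2 * w i * x i)) * x j + (Pi.single i (1 : K) : ι → K) j, ?_⟩
  rw [key]
  have := hw i
  field_simp
  ring

theorem D_univ {K : Type} [Field K] (h2 : (2 : K) ≠ 0) (l : List K) (hl : ∀ a ∈ l, a ≠ 0)
    (h : ¬ Aniso (wt l)) (c : K) : c ∈ D l :=
  (D_wt l c).2 (iso_univ h2 (wt l) (wt_ne l hl) h c)

/-- if `0 = s + a t` with `s`, `t` values and `t ≠ 0` then the form `a :: l` is universal -/
theorem D_univ_of {K : Type} [Field K] (h2 : (2 : K) ≠ 0) {a : K} {l : List K}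
    (hl : ∀ b ∈ a :: l, b ≠ 0) {s t : K} (hs : s ∈ D l) (ht : t ∈ D l) (h0 : s + a * t = 0)
    (hst : s ≠ 0) (c : K) : c ∈ D (a :: l) := by
  refine D_univ h2 _ hl ?_ c
  intro hA
  obtain ⟨x, hx⟩ := (D_wt l s).1 hs
  obtain ⟨y, hy⟩ := (D_wt l t).1 ht
  have := hA (Sum.elim x y) (by
    show ∑ i : Ix l.length ⊕ Ix l.length, (Sum.elim (wt l) (fun i => a * wt l i)) i *
        (Sum.elim x y) i ^ 2 = 0
    rw [Fintype.sum_sum_type]
    simp only [Sum.elim_inl, Sum.elim_inr, mul_assoc]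
    rw [← Finset.mul_sum, hx, hy, h0])
  apply hst
  rw [← hx]
  refine Finset.sum_eq_zero fun i _ => ?_
  have h1 : x i = 0 := congrFun this (Sum.inl i)
  rw [h1]
  ring

/-! ### the pure subform theorem -/

section pure

variable {K : Type} [Field K]

/-- values of the pure part -/
def Dp : List K → Set K
  | [] => {0}
  | a :: l => {c | ∃ s ∈ Dp l, ∃ t ∈ D l, c = s + a * t}

theorem D_iff_Dp (l : List K) (c : K) : c ∈ D l ↔ ∃ x : K, ∃ c' ∈ Dp l, c = x ^ 2 + c' := by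
  induction l generalizing c with
  | nil =>
    constructor
    · rintro ⟨x, rfl⟩
      exact ⟨x, 0, rfl, by ring⟩
    · rintro ⟨x, c', hc', rfl⟩
      rw [show c' = 0 from hc']
      exact ⟨x, by ring⟩
  | cons a l ih =>
    constructor
    · rintro ⟨s, hs, t, ht, rfl⟩
      obtain ⟨x, c', hc', rfl⟩ := (ih s).1 hs
      exact ⟨x, c' + a * t, ⟨c', hc', t, ht, rfl⟩, by ring⟩
    · rintro ⟨x, c', ⟨s, hs, t, ht, rfl⟩, rfl⟩
      exact ⟨x ^ 2 + s, (ih _).2 ⟨x, s, hs, rfl⟩, t, ht, by ring⟩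

theorem Dp_le (l : List K) {c : K} (h : c ∈ Dp l) : c ∈ D l :=
  (D_iff_Dp l c).2 ⟨0, c, h, by ring⟩

theorem D_scale {l : List K} {y : K} (hy : y ∈ D l) (hy0 : y ≠ 0) (a : K) :
    D (a :: l) = D ((a * y) :: l) := by
  ext c
  constructor
  · rintro ⟨s, hs, t, ht, rfl⟩
    exact ⟨s, hs, t / y, D_div l ht hy, by field_simp⟩
  · rintro ⟨s, hs, t, ht, rfl⟩
    exact ⟨s, hs, y * t, D_mul l hy ht, by ring⟩

theorem D_congr {l l' : List K} (h : D l = D l') (a : K) : D (a :: l) = D (a :: l') := by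
  show {c | ∃ s ∈ D l, ∃ t ∈ D l, c = s + a * t} = {c | ∃ s ∈ D l', ∃ t ∈ D l', c = s + a * t}
  rw [h]

theorem D_swap (l : List K) (a b : K) : D (a :: b :: l) = D (b :: a :: l) := by
  have key : ∀ a b : K, D (a :: b :: l) ⊆ D (b :: a :: l) := by
    rintro a b c ⟨s, ⟨s1, h1, s2, h2, rfl⟩, t, ⟨t1, h3, t2, h4, rfl⟩, rfl⟩
    exact ⟨s1 + a * t1, ⟨s1, h1, t1, h3, rfl⟩, s2 + a * t2, ⟨s2, h2, t2, h4, rfl⟩, by ring⟩
  exact Set.Subset.antisymm (key a b) (key b a)

/-- `⟨⟨x, z⟩⟩ = ⟨⟨x + z, x z⟩⟩` -/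
theorem D_chain (l : List K) (x z : K) (hxz : x + z ≠ 0) :
    D (z :: x :: l) = D ((x + z) :: (x * z) :: l) := by
  ext c
  constructor
  · rintro ⟨s, ⟨s1, h1, u, h2, rfl⟩, t, ⟨v, h3, t2, h4, rfl⟩, rfl⟩
    obtain ⟨β, hβ⟩ := D_gram l h2 h3
    have e1 := hβ (x / (x + z)) (z / (x + z))
    have e2 := hβ (1 / (x + z)) (-(1 / (x + z)))
    refine ⟨s1 + (x * z) * t2, ⟨s1, h1, t2, h4, rfl⟩, _, ⟨_, e1, _, e2, rfl⟩, ?_⟩
    field_simp
    ring
  · rintro ⟨s, ⟨s1, h1, t2, h4, rfl⟩, t, ⟨u, h2, v, h3, rfl⟩, rfl⟩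
    obtain ⟨β, hβ⟩ := D_gram l h2 h3
    have e1 := hβ 1 z
    have e2 := hβ 1 (-x)
    refine ⟨_, ⟨s1, h1, _, e1, rfl⟩, _, ⟨_, e2, t2, h4, rfl⟩, ?_⟩
    ring

theorem pure_subform (l : List K) (hl : ∀ a ∈ l, a ≠ 0) {c : K} (hc : c ∈ Dp l) (hc0 : c ≠ 0) :
    ∃ l₁ : List K, l₁.length + 1 = l.length ∧ (∀ a ∈ l₁, a ≠ 0) ∧ D l = D (c :: l₁) := by
  induction l generalizing c with
  | nil => exact absurd hc hc0
  | cons a l ih =>
    have hl' : ∀ b ∈ l, b ≠ 0 := fun b hb => hl b (List.mem_cons_of_mem _ hb)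
    have ha : a ≠ 0 := hl a List.mem_cons_self
    obtain ⟨x, hx, y, hy, rfl⟩ := hc
    by_cases hy0 : y = 0
    · subst hy0
      have hx0 : x ≠ 0 := by intro h; apply hc0; rw [h]; ring
      obtain ⟨l₁, h1, h2, h3⟩ := ih hl' hx hx0
      refine ⟨a :: l₁, by simp [h1], ?_, ?_⟩
      · intro b hb
        rcases List.mem_cons.1 hb with rfl | hb
        · exact ha
        · exact h2 b hb
      · rw [mul_zero, add_zero, D_congr h3 a, D_swap]
    by_cases hx0 : x = 0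
    · subst hx0
      refine ⟨l, rfl, hl', ?_⟩
      rw [zero_add]
      exact D_scale hy hy0 a
    obtain ⟨l₁, h1, h2, h3⟩ := ih hl' hx hx0
    refine ⟨(x * (a * y)) :: l₁, by simp [h1], ?_, ?_⟩
    · intro b hb
      rcases List.mem_cons.1 hb with rfl | hb
      · exact mul_ne_zero hx0 (mul_ne_zero ha hy0)
      · exact h2 b hb
    · rw [D_scale hy hy0 a, D_congr h3 (a * y), D_chain l₁ x (a * y) hc0]

end pure

/-! ### the strong Pfister theorem -/

/-- Gram triples -/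
def G3 {K : Type} [Field K] : List K → Set (K × K × K)
  | [] => {p | ∃ x y : K, p = (x ^ 2, x * y, y ^ 2)}
  | a :: l => {p | ∃ s ∈ G3 l, ∃ t ∈ G3 l, p = (s.1 + a * t.1, s.2.1 + a * t.2.1, s.2.2 + a * t.2.2)}

theorem G3_D {K : Type} [Field K] (l : List K) {p : K × K × K} (hp : p ∈ G3 l) (α γ : K) :
    α ^ 2 * p.1 + 2 * α * γ * p.2.1 + γ ^ 2 * p.2.2 ∈ D l := by
  induction l generalizing p with
  | nil =>
    obtain ⟨x, y, rfl⟩ := hp
    exact ⟨α * x + γ * y, by ring⟩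
  | cons a l ih =>
    obtain ⟨s, hs, t, ht, rfl⟩ := hp
    exact ⟨_, ih hs, _, ih ht, by ring⟩

theorem D_map_G3 {k K' : Type} [Field k] [Field K'] (φ : k →+* K') (I : K')
    (hI : I ^ 2 = -1) (hs : ∀ z : K', ∃ u v : k, z = φ u + I * φ v) (l : List k) {z : K'}
    (hz : z ∈ D (l.map φ)) :
    ∃ p ∈ G3 l, z = φ (p.1 - p.2.2) + I * φ (2 * p.2.1) := by
  induction l generalizing z with
  | nil =>
    obtain ⟨x, rfl⟩ := hz
    obtain ⟨u, v, rfl⟩ := hs x
    refine ⟨(u ^ 2, u * v, v ^ 2), ⟨u, v, rfl⟩, ?_⟩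
    simp only [map_sub, map_pow, map_mul, map_ofNat]
    linear_combination (φ v) ^ 2 * hI
  | cons a l ih =>
    obtain ⟨s, hs', t, ht, rfl⟩ := hz
    obtain ⟨p, hp, rfl⟩ := ih hs'
    obtain ⟨q, hq, rfl⟩ := ih ht
    refine ⟨_, ⟨p, hp, q, hq, rfl⟩, ?_⟩
    simp only [map_sub, map_add, map_mul, map_ofNat]
    ring

theorem two_sq {k K' : Type} [Field k] [Field K'] (φ : k →+* K') (I : K')
    (hI : I ^ 2 = -1) (hs : ∀ z : K', ∃ u v : k, z = φ u + I * φ v) (hk : FR k) (l : List k)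
    (hU : ∀ z : K', z ∈ D (l.map φ)) (a b : k) : a ^ 2 + b ^ 2 ∈ D l := by
  obtain ⟨p, hp, hz⟩ := D_map_G3 φ I hI hs l (hU (φ a + I * φ b))
  have hφ : Function.Injective φ := φ.injective
  -- `1, I` are independent
  have hind : ∀ u v : k, φ u + I * φ v = 0 → u = 0 ∧ v = 0 := by
    intro u v h
    have h1 : φ (u ^ 2 + v ^ 2) = 0 := by
      rw [map_add, map_pow, map_pow]
      have h2 : (φ u + I * φ v) * (φ u - I * φ v) = 0 := by rw [h, zero_mul]
      linear_combination h2 + (φ v) ^ 2 * hI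
    have h2 : u ^ 2 + v ^ 2 = 0 := hφ (by rw [h1, map_zero])
    have h3 := hk 2 ![u, v] (by simpa [Fin.sum_univ_two] using h2)
    exact ⟨by simpa using congrFun h3 0, by simpa using congrFun h3 1⟩
  have h12 := hind (a - (p.1 - p.2.2)) (b - 2 * p.2.1) (by
    rw [map_sub φ a, map_sub φ b]
    linear_combination hz)
  have ha : a = p.1 - p.2.2 := sub_eq_zero.1 h12.1
  have hb : b = 2 * p.2.1 := sub_eq_zero.1 h12.2
  obtain ⟨U, β, V⟩ := p
  simp only at ha hb hp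
  subst ha hb
  by_cases hU0 : U = 0
  · by_cases hV0 : V = 0
    · subst hU0 hV0
      have := D_sq l (2 * β)
      convert this using 1
      ring
    · have h1 := G3_D l hp (2 * β) (-(U - V))
      have h2 : V ∈ D l := by simpa using G3_D l hp 0 1
      have h3 := D_div l h1 h2
      convert h3 using 1
      subst hU0
      field_simp
      ring
  · have h1 := G3_D l hp (U - V) (2 * β)
    have h2 : U ∈ D l := by simpa using G3_D l hp 1 0
    have h3 := D_div l h1 h2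
    convert h3 using 1
    field_simp
    ring

theorem SP {k K' : Type} [Field k] [Field K'] (hk : FR k) (φ : k →+* K') (I : K')
    (hI : I ^ 2 = -1) (hs : ∀ z : K', ∃ u v : k, z = φ u + I * φ v) (n : ℕ)
    (hU : ∀ l : List k, l.length = n → (∀ a ∈ l, a ≠ 0) → ∀ z : K', z ∈ D (l.map φ)) :
    ∀ l : List k, l.length = n → (∀ a ∈ l, a ≠ 0) → ∀ b : k, IsSumSq b → b ∈ D l := by
  have h2 : (2 : k) ≠ 0 := by
    intro h
    have := hk 2 ![1, 1] (by simp [Fin.sum_univ_two]; rw [one_add_one_eq_two, h])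
    simpa using congrFun this 0
  have hT : ∀ l : List k, l.length = n → (∀ a ∈ l, a ≠ 0) → ∀ a b : k, a ^ 2 + b ^ 2 ∈ D l :=
    fun l h1 h2 a b => two_sq φ I hI hs hk l (hU l h1 h2) a b
  have h1x : ∀ x : k, 1 + x ^ 2 ≠ 0 := by
    intro x h
    have := hk 2 ![1, x] (by simpa [Fin.sum_univ_two] using h)
    simpa using congrFun this 0
  intro l hln hl b hb
  induction hb with
  | zero => exact D_zero l
  | @sq_add a s hs ih =>
    -- `b = a * a + s`
    by_cases ha : a = 0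
    · subst ha; simpa using ih
    -- rescale
    set c := s / a ^ 2 with hc
    have hcD : c ∈ D l := D_div l ih (D_sq l a)
    have hb : a * a + s = a ^ 2 * (1 + c) := by rw [hc]; field_simp
    rw [hb]
    apply D_sq_mul
    obtain ⟨x, c', hc', hcx⟩ := (D_iff_Dp l c).1 hcD
    by_cases hc0 : c' = 0
    · rw [hcx, hc0, add_zero]
      simpa using hT l hln hl 1 x
    obtain ⟨l₁, h3, h4, h5⟩ := pure_subform l hl hc' hc0
    by_cases hb0 : 1 + c = 0
    · rw [hb0]; exact D_zero l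
    have h6 : 1 + x ^ 2 ∈ D ((-((1 + c) * c')) :: l₁) := by
      have := hT ((-((1 + c) * c')) :: l₁) (by simp [h3, hln]) (by
        intro b hb
        rcases List.mem_cons.1 hb with rfl | hb
        · exact neg_ne_zero.2 (mul_ne_zero hb0 hc0)
        · exact h4 b hb) 1 x
      simpa using this
    obtain ⟨x1, hx1, y1, hy1, hxy⟩ := h6
    have hcl : ∀ b ∈ c' :: l₁, b ≠ 0 := by
      intro b hb
      rcases List.mem_cons.1 hb with rfl | hb
      · exact hc0
      · exact h4 b hb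
    have h7 : (1 + c) * (1 + c' * y1) = x1 + c' * 1 := by
      linear_combination hcx + hxy
    rw [h5]
    by_cases h8 : 1 + c' * y1 = 0
    · exact D_univ_of h2 hcl (D_one l₁) hy1 h8 one_ne_zero _
    · have h9 : x1 + c' * 1 ∈ D (c' :: l₁) := ⟨x1, hx1, 1, D_one l₁, rfl⟩
      have h10 : 1 + c' * y1 ∈ D (c' :: l₁) := ⟨1, D_one l₁, y1, hy1, rfl⟩
      have h11 := D_div _ h9 h10
      rw [← h7] at h11
      convert h11 using 1
      field_simp

/-! ### sums of `2 ^ n` squares -/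

theorem SS_zero_iff {K : Type} [Field K] (a : K) : SS 0 a ↔ a = 0 := by
  constructor
  · rintro ⟨x, rfl⟩; simp
  · rintro rfl; exact ⟨fun i => i.elim0, by simp⟩

theorem SS_add_iff {K : Type} [Field K] (m n : ℕ) (a : K) :
    SS (m + n) a ↔ ∃ s t : K, SS m s ∧ SS n t ∧ a = s + t := by
  constructor
  · rintro ⟨x, rfl⟩
    refine ⟨_, _, ⟨fun i => x (Fin.castAdd n i), rfl⟩, ⟨fun i => x (Fin.natAdd m i), rfl⟩, ?_⟩
    rw [Fin.sum_univ_add]
  · rintro ⟨s, t, ⟨x, rfl⟩, ⟨y, rfl⟩, rfl⟩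
    refine ⟨Fin.append x y, ?_⟩
    rw [Fin.sum_univ_add]
    simp

theorem SS_one_iff {K : Type} [Field K] (a : K) : SS 1 a ↔ ∃ x, a = x ^ 2 := by
  constructor
  · rintro ⟨x, rfl⟩; exact ⟨x 0, by simp⟩
  · rintro ⟨x, rfl⟩; exact ⟨fun _ => x, by simp⟩

theorem SS_iff_D {K : Type} [Field K] (n : ℕ) (a : K) :
    SS (2 ^ n) a ↔ a ∈ D (List.replicate n (1 : K)) := by
  induction n generalizing a with
  | zero =>
    rw [pow_zero, SS_one_iff]
    rfl
  | succ n ih =>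
    rw [pow_succ, mul_two, SS_add_iff, List.replicate_succ]
    constructor
    · rintro ⟨s, t, hs, ht, rfl⟩
      exact ⟨s, (ih s).1 hs, t, (ih t).1 ht, by ring⟩
    · rintro ⟨s, hs, t, ht, rfl⟩
      exact ⟨s, t, (ih s).2 hs, (ih t).2 ht, by ring⟩

end Pool.Agent.PDF
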