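import Pool.Agent.PDF.Defs

/-!
# Positive definite forms: the polynomial `f (Y, v)` and values at a place (row SG, part 1)
-/

set_option autoImplicit false

namespace Pool.Agent.PDF

open Polynomial

section FG

/-- the polynomial `f (Y, v)` -/
noncomputable def FG {A : Type} [CommRing A] [Algebra ℝ A] (n : ℕ)
    (f : MvPolynomial (Fin (n + 2)) ℝ) (v : Fin (n + 1) → A) : A[X] :=
  ((MvPolynomial.finSuccEquiv ℝ (n + 1)) f).map (MvPolynomial.aeval v).toRingHom

theorem coeff_zero_of_lt {n m : ℕ} {f : MvPolynomial (Fin (n + 2)) ℝ} (hf : PD n m f) {i : ℕ}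
    (hi : 2 * m < i) : ((MvPolynomial.finSuccEquiv ℝ (n + 1)) f).coeff i = 0 := by
  apply Polynomial.coeff_eq_zero_of_natDegree_lt
  rw [MvPolynomial.natDegree_finSuccEquiv]
  exact lt_of_le_of_lt ((MvPolynomial.degreeOf_le_totalDegree _ _).trans hf.hom.totalDegree_le) hi

theorem hom_eval_zero {σ : Type} {g : MvPolynomial σ ℝ} {j : ℕ} (hg : g.IsHomogeneous j)
    (hj : j ≠ 0) : MvPolynomial.eval (0 : σ → ℝ) g = 0 := by
  rw [MvPolynomial.eval_zero, MvPolynomial.constantCoeff_eq]
  apply hg.coeff_eq_zero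
  simpa using hj.symm

theorem coeff_top {n m : ℕ} {f : MvPolynomial (Fin (n + 2)) ℝ} (hf : PD n m f) :
    ((MvPolynomial.finSuccEquiv ℝ (n + 1)) f).coeff (2 * m) = 1 := by
  have h0 : (((MvPolynomial.finSuccEquiv ℝ (n + 1)) f).coeff (2 * m)).IsHomogeneous 0 :=
    hf.hom.finSuccEquiv_coeff_isHomogeneous (2 * m) 0 (by ring)
  have h1 : ((MvPolynomial.finSuccEquiv ℝ (n + 1)) f).coeff (2 * m) =
      MvPolynomial.C (MvPolynomial.coeff 0
        (((MvPolynomial.finSuccEquiv ℝ (n + 1)) f).coeff (2 * m))) := by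
    rw [← MvPolynomial.totalDegree_eq_zero_iff_eq_C]
    exact Nat.le_zero.mp h0.totalDegree_le
  have h2 := hf.monic
  rw [show (Fin.cons 1 0 : Fin (n + 2) → ℝ) = Fin.cons (1 : ℝ) (0 : Fin (n + 1) → ℝ) from rfl,
    MvPolynomial.eval_eq_eval_mv_eval',
    Polynomial.eval_eq_sum_range' (n := 2 * m + 1)] at h2
  · rw [Finset.sum_range_succ, Finset.sum_eq_zero] at h2
    · rw [Polynomial.coeff_map, h1] at h2
      simp only [zero_add, one_pow, mul_one, MvPolynomial.eval_C] at h2
      rw [h1, h2, map_one]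
    · intro i hi
      rw [Polynomial.coeff_map]
      have := hf.hom.finSuccEquiv_coeff_isHomogeneous i (2 * m - i)
        (by have := Finset.mem_range.mp hi; omega)
      have h3 := Finset.mem_range.mp hi
      rw [hom_eval_zero this (by omega), zero_mul]
  · refine lt_of_le_of_lt (Polynomial.natDegree_map_le) ?_
    rw [MvPolynomial.natDegree_finSuccEquiv]
    exact Nat.lt_succ_of_le ((MvPolynomial.degreeOf_le_totalDegree _ _).trans hf.hom.totalDegree_le)

variable {A : Type} [CommRing A] [Algebra ℝ A] [Nontrivial A]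

theorem FG_monic {n m : ℕ} {f : MvPolynomial (Fin (n + 2)) ℝ} (hf : PD n m f)
    (v : Fin (n + 1) → A) : (FG n f v).Monic ∧ (FG n f v).natDegree = 2 * m := by
  have h1 : (FG n f v).coeff (2 * m) = 1 := by
    rw [FG, Polynomial.coeff_map, coeff_top hf, map_one]
  have h2 : (FG n f v).natDegree ≤ 2 * m := by
    rw [Polynomial.natDegree_le_iff_coeff_eq_zero]
    intro i hi
    rw [FG, Polynomial.coeff_map, coeff_zero_of_lt hf hi, map_zero]
  have h3 : (FG n f v).natDegree = 2 * m :=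
    Polynomial.natDegree_eq_of_le_of_coeff_ne_zero h2 (by rw [h1]; exact one_ne_zero)
  exact ⟨by rw [Polynomial.Monic, Polynomial.leadingCoeff, h3, h1], h3⟩

omit [Nontrivial A] in
theorem aeval_smul_hom {σ : Type} {g : MvPolynomial σ ℝ} {j : ℕ} (hg : g.IsHomogeneous j)
    (v : σ → A) (c : A) :
    MvPolynomial.aeval (fun i => c * v i) g = c ^ j * MvPolynomial.aeval v g := by
  rw [MvPolynomial.aeval_def, MvPolynomial.aeval_def, MvPolynomial.eval₂_eq,
    MvPolynomial.eval₂_eq, Finset.mul_sum]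
  refine Finset.sum_congr rfl fun d hd => ?_
  have h : d.degree = j := by
    by_contra hne
    exact MvPolynomial.mem_support_iff.mp hd (hg.coeff_eq_zero hne)
  have h2 : ∏ i ∈ d.support, (c * v i) ^ d i = c ^ j * ∏ i ∈ d.support, v i ^ d i := by
    rw [← h, Finsupp.degree_apply, ← Finset.prod_pow_eq_pow_sum, ← Finset.prod_mul_distrib]
    exact Finset.prod_congr rfl fun i _ => mul_pow _ _ _
  rw [h2]; ring

theorem FG_smul {n m : ℕ} {f : MvPolynomial (Fin (n + 2)) ℝ} (hf : PD n m f)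
    (v : Fin (n + 1) → A) (c : A) :
    FG n f (fun i => c * v i) = (FG n f v).scaleRoots c := by
  ext i
  rw [Polynomial.coeff_scaleRoots, (FG_monic hf v).2]
  rcases le_or_gt i (2 * m) with hi | hi
  · rw [FG, FG, Polynomial.coeff_map, Polynomial.coeff_map]
    have := hf.hom.finSuccEquiv_coeff_isHomogeneous i (2 * m - i) (by omega)
    have h := aeval_smul_hom this v c
    simp only [AlgHom.toRingHom_eq_coe, RingHom.coe_coe] at h ⊢
    rw [h, mul_comm]
  · rw [FG, FG, Polynomial.coeff_map, Polynomial.coeff_map, coeff_zero_of_lt hf hi]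
    simp

omit [Nontrivial A] in
theorem FG_map {B : Type} [CommRing B] [Algebra ℝ B] {n : ℕ}
    (f : MvPolynomial (Fin (n + 2)) ℝ) (v : Fin (n + 1) → A) (g : A →ₐ[ℝ] B) :
    (FG n f v).map g.toRingHom = FG n f (fun i => g (v i)) := by
  rw [FG, FG, Polynomial.map_map]
  congr 1
  apply MvPolynomial.ringHom_ext
  · intro r; simp
  · intro i; simp

omit [Nontrivial A] in
theorem FG_eval {n : ℕ} (f : MvPolynomial (Fin (n + 2)) ℝ) (v : Fin (n + 1) → A) (y : A) :
    (FG n f v).eval y = MvPolynomial.aeval (Fin.cons y v : Fin (n + 2) → A) f := by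
  let φ : MvPolynomial (Fin (n + 2)) ℝ →ₐ[ℝ] A :=
    ((Polynomial.aeval y : A[X] →ₐ[A] A).restrictScalars ℝ).comp
      ((Polynomial.mapAlgHom (MvPolynomial.aeval v : MvPolynomial (Fin (n + 1)) ℝ →ₐ[ℝ] A)).comp
        (MvPolynomial.finSuccEquiv ℝ (n + 1)).toAlgHom)
  have h : φ = MvPolynomial.aeval (Fin.cons y v : Fin (n + 2) → A) := by
    apply MvPolynomial.algHom_ext
    intro i
    refine Fin.cases ?_ (fun j => ?_) i
    · have h1 := MvPolynomial.finSuccEquiv_X_zero (R := ℝ) (n := n + 1)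
      simp [φ, h1]
    · have h1 := MvPolynomial.finSuccEquiv_X_succ (R := ℝ) (n := n + 1) (j := j)
      simp [φ, h1]
  rw [← h]
  rfl

end FG

theorem Fk_monic (n m : ℕ) (f : MvPolynomial (Fin (n + 2)) ℝ) (hf : PD n m f) :
    (Fk n f).Monic ∧ (Fk n f).natDegree = 2 * m := FG_monic hf (vv n)

end Pool.Agent.PDF
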