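import Pool.Agent.PDF.Defs

/-!
# Positive definite forms: estimates (row SG, part 2)
-/

set_option autoImplicit false

namespace Pool.Agent.PDF

open Polynomial

section product

/-- products of numbers close to `1` -/
theorem prod_near_one {ι : Type} (s : Finset ι) (t : ι → ℂ) (ε : ℝ) (hε : 0 ≤ ε)
    (ht : ∀ i ∈ s, ‖t i - 1‖ ≤ ε) : ‖∏ i ∈ s, t i - 1‖ ≤ (1 + ε) ^ s.card - 1 := by
  classical
  induction s using Finset.induction_on with
  | empty => simp
  | insert a s ha ih =>
    rw [Finset.prod_insert ha, Finset.card_insert_of_notMem ha]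
    have h1 := ih fun i hi => ht i (Finset.mem_insert_of_mem hi)
    have h2 := ht a (Finset.mem_insert_self a s)
    have h3 : t a * ∏ i ∈ s, t i - 1 =
        (t a - 1) * (∏ i ∈ s, t i - 1) + (t a - 1) + (∏ i ∈ s, t i - 1) := by ring
    rw [h3]
    have h4 : ‖(t a - 1) * (∏ i ∈ s, t i - 1) + (t a - 1) + (∏ i ∈ s, t i - 1)‖ ≤
        ‖t a - 1‖ * ‖∏ i ∈ s, t i - 1‖ + ‖t a - 1‖ + ‖∏ i ∈ s, t i - 1‖ := by
      refine (norm_add_le _ _).trans (add_le_add ((norm_add_le _ _).trans ?_) le_rfl)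
      rw [norm_mul]
    have h5 : ‖t a - 1‖ * ‖∏ i ∈ s, t i - 1‖ ≤ ε * ((1 + ε) ^ s.card - 1) :=
      mul_le_mul h2 h1 (norm_nonneg _) hε
    calc _ ≤ _ := h4
      _ ≤ ε * ((1 + ε) ^ s.card - 1) + ε + ((1 + ε) ^ s.card - 1) := by linarith
      _ = _ := by ring

/-- the sign of a product of complex numbers close to real numbers -/
theorem prod_sign {ι : Type} (s : Finset ι) (g : ι → ℂ) (a : ι → ℝ) (w0 : ι) (hw0 : w0 ∈ s)
    (ε : ℝ) (hε : 0 ≤ ε) (hεs : (1 + ε) ^ s.card < 2) (ha0 : a w0 ≤ -1)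
    (ha : ∀ w ∈ s, w ≠ w0 → 1 ≤ a w) (hg : ∀ w ∈ s, ‖g w - a w‖ ≤ ε) :
    (∏ w ∈ s, g w).re < 0 := by
  classical
  have h1 : ∀ w ∈ s, 1 ≤ |a w| := by
    intro w hw
    by_cases h : w = w0
    · rw [h]; exact le_abs.mpr (Or.inr (by linarith))
    · exact le_abs.mpr (Or.inl (ha w hw h))
  have h2 : ∀ w ∈ s, a w ≠ 0 := fun w hw h => by
    have := h1 w hw
    rw [h, abs_zero] at this
    linarith
  have h3 : ∏ w ∈ s, g w = ((∏ w ∈ s, a w : ℝ) : ℂ) * ∏ w ∈ s, (g w / a w) := by
    rw [Complex.ofReal_prod, ← Finset.prod_mul_distrib]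
    refine Finset.prod_congr rfl fun w hw => ?_
    have : (a w : ℂ) ≠ 0 := by exact_mod_cast h2 w hw
    field_simp
  have h4 : ‖∏ w ∈ s, (g w / a w) - 1‖ ≤ (1 + ε) ^ s.card - 1 := by
    refine prod_near_one s _ ε hε fun w hw => ?_
    have h5 : (a w : ℂ) ≠ 0 := by exact_mod_cast h2 w hw
    have h6 : g w / a w - 1 = (g w - a w) / a w := by field_simp
    rw [h6, norm_div]
    have h7 : 1 ≤ ‖(a w : ℂ)‖ := by
      rw [Complex.norm_real]; exact h1 w hw
    exact (div_le_self (norm_nonneg _) h7).trans (hg w hw)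
  have h5 : 0 < (∏ w ∈ s, (g w / a w)).re := by
    have h6 : |(∏ w ∈ s, (g w / a w) - 1).re| ≤ ‖∏ w ∈ s, (g w / a w) - 1‖ :=
      Complex.abs_re_le_norm _
    have h7 := (abs_le.mp h6).1
    rw [Complex.sub_re, Complex.one_re] at h7
    linarith
  have h6 : ∏ w ∈ s, a w < 0 := by
    rw [← Finset.mul_prod_erase s a hw0]
    have : 0 < ∏ w ∈ s.erase w0, a w := by
      refine Finset.prod_pos fun w hw => ?_
      have := ha w (Finset.mem_of_mem_erase hw) (Finset.ne_of_mem_erase hw)
      linarith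
    nlinarith
  rw [h3, Complex.re_ofReal_mul]
  exact mul_neg_of_neg_of_pos h6 h5

end product

section conj

/-- a real polynomial without real roots has as many roots in the upper as in the lower half
plane -/
theorem conj_count (g : ℝ[X]) (m : ℕ) (hm : g.natDegree = 2 * m)
    (hg : ∀ u ∈ (g.map Complex.ofRealHom).roots, u.im ≠ 0) :
    Multiset.countP (fun u : ℂ => 0 < u.im) (g.map Complex.ofRealHom).roots = m := by
  have h1 : ((g.map Complex.ofRealHom).map (starRingEnd ℂ)) = g.map Complex.ofRealHom := by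
    rw [Polynomial.map_map]
    congr 1
    ext x
    simp
  have h2 : (g.map Complex.ofRealHom).roots =
      (g.map Complex.ofRealHom).roots.map (starRingEnd ℂ) := by
    conv_lhs => rw [← h1]
    exact (IsAlgClosed.splits _).roots_map _
  have h3 : Multiset.card (g.map Complex.ofRealHom).roots = 2 * m := by
    rw [← (IsAlgClosed.splits (g.map Complex.ofRealHom)).natDegree_eq_card_roots,
      Polynomial.natDegree_map, hm]
  have h4 : Multiset.countP (fun u : ℂ => 0 < u.im) (g.map Complex.ofRealHom).roots =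
      Multiset.countP (fun u : ℂ => ¬ 0 < u.im) (g.map Complex.ofRealHom).roots := by
    conv_lhs => rw [h2, Multiset.countP_map]
    rw [Multiset.countP_eq_card_filter]
    congr 1
    refine Multiset.filter_congr fun u hu => ?_
    simp only [Complex.conj_im]
    have := hg u hu
    constructor
    · intro h h'; linarith
    · intro h
      rcases lt_trichotomy u.im 0 with h' | h' | h'
      · linarith
      · exact absurd h' this
      · exact absurd h' h
  have h5 := Multiset.card_eq_countP_add_countP (fun u : ℂ => 0 < u.im)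
    (g.map Complex.ofRealHom).roots
  omega

end conj

section sums

variable {Ω : Type}

theorem sum_near (S : Multiset Ω) (g : Ω → ℂ) (P : Ω → Prop) [DecidablePred P] (c : ℂ) (ε : ℝ)
    (hg : ∀ z ∈ S, (P z → ‖g z - c‖ ≤ ε) ∧ (¬ P z → ‖g z + c‖ ≤ ε)) :
    ‖(S.map g).sum - c * ((2 * (S.countP P : ℂ)) - S.card)‖ ≤ S.card * ε := by
  induction S using Multiset.induction_on with
  | empty => simp
  | cons a S ih =>
    have h1 := ih fun z hz => hg z (Multiset.mem_cons_of_mem hz)
    have h2 := hg a (Multiset.mem_cons_self a S)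
    rw [Multiset.map_cons, Multiset.sum_cons, Multiset.card_cons]
    by_cases hP : P a
    · rw [Multiset.countP_cons_of_pos _ hP]
      have h3 := h2.1 hP
      have h4 : g a + (S.map g).sum - c * (2 * ((S.countP P + 1 : ℕ) : ℂ) - (S.card + 1 : ℕ)) =
          (g a - c) + ((S.map g).sum - c * (2 * (S.countP P : ℂ) - S.card)) := by
        push_cast; ring
      rw [h4]
      refine (norm_add_le _ _).trans ?_
      push_cast
      linarith
    · rw [Multiset.countP_cons_of_neg _ hP]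
      have h3 := h2.2 hP
      have h4 : g a + (S.map g).sum - c * (2 * (S.countP P : ℂ) - (S.card + 1 : ℕ)) =
          (g a + c) + ((S.map g).sum - c * (2 * (S.countP P : ℂ) - S.card)) := by
        push_cast; ring
      rw [h4]
      refine (norm_add_le _ _).trans ?_
      push_cast
      linarith

/-- the value of `κ(S)` -/
theorem kap_near (R S : Multiset Ω) (m : ℕ) (g : Ω → ℂ) (P : Ω → Prop) [DecidablePred P] (c : ℂ)
    (ε : ℝ) (hS : S ≤ R) (hSm : S.card = m) (hR : R.card = 2 * m) (hRP : R.countP P = m)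
    (hg : ∀ z ∈ R, (P z → ‖g z - c‖ ≤ ε) ∧ (¬ P z → ‖g z + c‖ ≤ ε)) :
    ‖((S.map g).sum - (R.map g).sum / 2) - c * (2 * (S.countP P : ℂ) - m)‖ ≤ 2 * m * ε := by
  have h1 := sum_near S g P c ε fun z hz => hg z (Multiset.mem_of_le hS hz)
  have h2 := sum_near R g P c ε hg
  rw [hSm] at h1
  rw [hRP, hR] at h2
  push_cast at h2
  rw [show (2 * (m : ℂ)) - 2 * m = 0 by ring, mul_zero, sub_zero] at h2
  have h3 : ((S.map g).sum - (R.map g).sum / 2) - c * (2 * (S.countP P : ℂ) - m) =
      ((S.map g).sum - c * (2 * (S.countP P : ℂ) - m)) - (R.map g).sum / 2 := by ring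
  rw [h3]
  refine (norm_sub_le _ _).trans ?_
  rw [norm_div, Complex.norm_ofNat]
  linarith

/-- from `κ` to `κ²/ρ²` -/
theorem sq_near (κ : ℂ) (ρ : ℝ) (hρ : 1 ≤ ρ) (t : ℝ) (m : ℕ) (ht : |t| ≤ m) (δ : ℝ)
    (hδ : δ ≤ 1)
    (h : ‖κ - Complex.I * ρ * t‖ ≤ δ) :
    ‖κ ^ 2 / ((ρ : ℂ) ^ 2) + (t : ℂ) ^ 2‖ ≤ δ * (2 * m + 1) := by
  have hρ0 : (ρ : ℂ) ≠ 0 := by
    have : ρ ≠ 0 := by linarith
    exact_mod_cast this
  have h1 : κ ^ 2 / ((ρ : ℂ) ^ 2) + (t : ℂ) ^ 2 =
      ((κ - Complex.I * ρ * t) / ρ) * ((κ - Complex.I * ρ * t) / ρ + 2 * (Complex.I * t)) := by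
    field_simp
    ring_nf
    simp [Complex.I_sq]
  rw [h1, norm_mul]
  have hn : ‖(κ - Complex.I * ρ * t) / ρ‖ ≤ δ := by
    rw [norm_div, Complex.norm_real, Real.norm_eq_abs, abs_of_pos (by linarith)]
    exact (div_le_self (norm_nonneg _) hρ).trans h
  have hn2 : ‖2 * (Complex.I * (t : ℂ))‖ ≤ 2 * m := by
    rw [norm_mul, norm_mul, Complex.norm_I, Complex.norm_real, one_mul, Complex.norm_ofNat]
    exact mul_le_mul_of_nonneg_left ht (by norm_num)
  have h0 : 0 ≤ δ := (norm_nonneg _).trans hn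
  refine mul_le_mul hn ?_ (norm_nonneg _) h0
  refine (norm_add_le _ _).trans ?_
  linarith

end sums

section count

variable {Ω : Type}

theorem countP_lt {R S : Multiset Ω} {m : ℕ} {P : Ω → Prop} [DecidablePred P] (hS : S ≤ R)
    (hSm : S.card = m) (hRP : R.countP P = m) (h : S ≠ R.filter P) : S.countP P < m := by
  have h1 : S.countP P ≤ m := hSm ▸ S.countP_le_card P
  refine lt_of_le_of_ne h1 fun h2 => h ?_
  have h3 : S.filter P = S := by
    rw [Multiset.filter_eq_self]
    have := Multiset.countP_eq_card.mp (h2.trans hSm.symm)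
    exact this
  have h4 : S.filter P ≤ R.filter P := Multiset.filter_le_filter _ hS
  rw [h3] at h4
  refine Multiset.eq_of_le_of_card_le h4 ?_
  rw [← Multiset.countP_eq_card_filter, hRP, hSm]

theorem countP_pos' {R S : Multiset Ω} {m : ℕ} {P : Ω → Prop} [DecidablePred P] (hS : S ≤ R)
    (hSm : S.card = m) (hR : R.card = 2 * m) (hRP : R.countP P = m)
    (h : S ≠ R.filter (fun z => ¬ P z)) : 0 < S.countP P := by
  have h1 := R.card_eq_countP_add_countP P
  have h2 := S.card_eq_countP_add_countP P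
  have h3 := countP_lt (P := fun z => ¬ P z) hS hSm (by omega) h
  omega

end count

end Pool.Agent.PDF
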