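import Pool.Agent.PDF.SG1
import Pool.Agent.PDF.SG2

/-!
# Positive definite forms: values at a place (row SG, part 3)
-/

set_option autoImplicit false

namespace Pool.Agent.PDF

open Polynomial

section HV

variable {E : Type} [Field E]

/-- `x` lies in the ring `V` and has the value `c` -/
def HV (V : Subring E) (Φ : V →+* ℂ) (x : E) (c : ℂ) : Prop := ∃ h : x ∈ V, Φ ⟨x, h⟩ = c

variable {V : Subring E} {Φ : V →+* ℂ}

theorem HV.eq {x : E} {c d : ℂ} (hx : HV V Φ x c) (hy : HV V Φ x d) : c = d := by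
  obtain ⟨h, rfl⟩ := hx
  obtain ⟨h', rfl⟩ := hy
  rfl

theorem HV.one : HV V Φ 1 1 := ⟨V.one_mem, map_one Φ⟩

theorem HV.natCast (n : ℕ) : HV V Φ (n : E) (n : ℂ) := ⟨natCast_mem V n, map_natCast Φ n⟩

theorem HV.zero : HV V Φ 0 0 := ⟨V.zero_mem, map_zero Φ⟩

theorem HV.add {x y : E} {c d : ℂ} (hx : HV V Φ x c) (hy : HV V Φ y d) :
    HV V Φ (x + y) (c + d) := by
  obtain ⟨h, rfl⟩ := hx
  obtain ⟨h', rfl⟩ := hy
  exact ⟨V.add_mem h h', map_add Φ ⟨x, h⟩ ⟨y, h'⟩⟩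

theorem HV.mul {x y : E} {c d : ℂ} (hx : HV V Φ x c) (hy : HV V Φ y d) :
    HV V Φ (x * y) (c * d) := by
  obtain ⟨h, rfl⟩ := hx
  obtain ⟨h', rfl⟩ := hy
  exact ⟨V.mul_mem h h', map_mul Φ ⟨x, h⟩ ⟨y, h'⟩⟩

theorem HV.sub {x y : E} {c d : ℂ} (hx : HV V Φ x c) (hy : HV V Φ y d) :
    HV V Φ (x - y) (c - d) := by
  obtain ⟨h, rfl⟩ := hx
  obtain ⟨h', rfl⟩ := hy
  exact ⟨V.sub_mem h h', map_sub Φ ⟨x, h⟩ ⟨y, h'⟩⟩

theorem HV.pow {x : E} {c : ℂ} (hx : HV V Φ x c) (n : ℕ) : HV V Φ (x ^ n) (c ^ n) := by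
  obtain ⟨h, rfl⟩ := hx
  exact ⟨V.pow_mem h n, map_pow Φ ⟨x, h⟩ n⟩

theorem HV.inv (hV : ∀ (x : E) (hx : x ∈ V), Φ ⟨x, hx⟩ ≠ 0 → x⁻¹ ∈ V) {x : E} {c : ℂ}
    (hx : HV V Φ x c) (hc : c ≠ 0) : HV V Φ x⁻¹ c⁻¹ := by
  obtain ⟨h, rfl⟩ := hx
  refine ⟨hV x h hc, ?_⟩
  have h0 : x ≠ 0 := by
    rintro rfl
    exact hc (map_zero Φ)
  apply eq_inv_of_mul_eq_one_left
  rw [← map_mul, ← map_one Φ]
  congr 1
  exact Subtype.ext (inv_mul_cancel₀ h0)

theorem HV.div (hV : ∀ (x : E) (hx : x ∈ V), Φ ⟨x, hx⟩ ≠ 0 → x⁻¹ ∈ V) {x y : E} {c d : ℂ}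
    (hx : HV V Φ x c) (hy : HV V Φ y d) (hd : d ≠ 0) : HV V Φ (x / y) (c / d) := by
  rw [div_eq_mul_inv, div_eq_mul_inv]
  exact hx.mul (hy.inv hV hd)

theorem HV.msum {ι : Type} (S : Multiset ι) (g : ι → E) (c : ι → ℂ)
    (h : ∀ i ∈ S, HV V Φ (g i) (c i)) : HV V Φ (S.map g).sum (S.map c).sum := by
  induction S using Multiset.induction_on with
  | empty => simpa using HV.zero
  | cons a S ih =>
    rw [Multiset.map_cons, Multiset.map_cons, Multiset.sum_cons, Multiset.sum_cons]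
    exact (h a (Multiset.mem_cons_self a S)).add
      (ih fun i hi => h i (Multiset.mem_cons_of_mem hi))

theorem HV.fprod {ι : Type} (s : Finset ι) (g : ι → E) (c : ι → ℂ)
    (h : ∀ i ∈ s, HV V Φ (g i) (c i)) : HV V Φ (∏ i ∈ s, g i) (∏ i ∈ s, c i) := by
  classical
  induction s using Finset.induction_on with
  | empty => simpa using HV.one
  | insert a s ha ih =>
    rw [Finset.prod_insert ha, Finset.prod_insert ha]
    exact (h a (Finset.mem_insert_self a s)).mul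
      (ih fun i hi => h i (Finset.mem_insert_of_mem hi))

end HV

section pq

theorem pq_map {A B : Type} [CommRing A] [CommRing B] (g : A →+* B) (z r : A) (j : ℕ) :
    pq (g z) (g r) j = (g (pq z r j).1, g (pq z r j).2) := by
  induction j with
  | zero => simp [pq]
  | succ j ih =>
    simp only [pq, ih, map_sub, map_add, map_mul]

theorem pq_smul {A : Type} [CommRing A] (c z r : A) (j : ℕ) :
    (pq (c * z) (c ^ 2 * r) j).1 = c ^ j * (pq z r j).1 ∧
      c * (pq (c * z) (c ^ 2 * r) j).2 = c ^ j * (pq z r j).2 := by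
  induction j with
  | zero => simp [pq]
  | succ j ih =>
    obtain ⟨h1, h2⟩ := ih
    simp only [pq]
    constructor
    · have : c * z * (pq (c * z) (c ^ 2 * r) j).1 - c ^ 2 * r * (pq (c * z) (c ^ 2 * r) j).2 =
          c * z * (pq (c * z) (c ^ 2 * r) j).1 -
            c * r * (c * (pq (c * z) (c ^ 2 * r) j).2) := by ring
      rw [this, h1, h2]
      ring
    · have : c * ((pq (c * z) (c ^ 2 * r) j).1 + c * z * (pq (c * z) (c ^ 2 * r) j).2) =
          c * (pq (c * z) (c ^ 2 * r) j).1 +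
            c * z * (c * (pq (c * z) (c ^ 2 * r) j).2) := by ring
      rw [this, h1, h2]
      ring

/-- `c p(z) / q(z) = p(cz)/q(cz)` -/
theorem pq_div_smul {K : Type} [Field K] {c : K} (hc : c ≠ 0) (z r : K) (j : ℕ) :
    c * ((pq z r j).1 / (pq z r j).2) =
      (pq (c * z) (c ^ 2 * r) j).1 / (pq (c * z) (c ^ 2 * r) j).2 := by
  obtain ⟨h1, h2⟩ := pq_smul c z r j
  have h3 : (pq (c * z) (c ^ 2 * r) j).2 = c ^ j * (pq z r j).2 / c := by
    rw [← h2]
    field_simp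
  rw [h1, h3]
  by_cases h : (pq z r j).2 = 0
  · simp [h]
  · have := pow_ne_zero j hc
    field_simp

theorem HV.pq {E : Type} [Field E] {V : Subring E} {Φ : V →+* ℂ} {z r : E} {c d : ℂ}
    (hz : HV V Φ z c) (hr : HV V Φ r d) (j : ℕ) :
    HV V Φ (pq z r j).1 (pq c d j).1 ∧ HV V Φ (pq z r j).2 (pq c d j).2 := by
  obtain ⟨h, rfl⟩ := hz
  obtain ⟨h', rfl⟩ := hr
  have h1 := pq_map V.subtype ⟨z, h⟩ ⟨r, h'⟩ j
  have h2 := pq_map Φ ⟨z, h⟩ ⟨r, h'⟩ j
  simp only [Subring.subtype_apply] at h1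
  rw [h1, h2]
  exact ⟨⟨Subtype.property _, rfl⟩, ⟨Subtype.property _, rfl⟩⟩

end pq

section order

variable {k : Type} [Field k] [Algebra ℝ k] [LinearOrder k] [IsStrictOrderedRing k]

/-- the structure map of an ordered `ℝ`-algebra is monotone -/
noncomputable def realHom (k : Type) [Field k] [Algebra ℝ k] [LinearOrder k]
    [IsStrictOrderedRing k] : ℝ →+*o k :=
  { algebraMap ℝ k with
    monotone' := by
      intro a b hab
      have h1 : b = a + Real.sqrt (b - a) ^ 2 := by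
        rw [Real.sq_sqrt (by linarith)]; ring
      have h2 : algebraMap ℝ k b = algebraMap ℝ k a + algebraMap ℝ k (Real.sqrt (b - a)) ^ 2 := by
        conv_lhs => rw [h1]
        rw [map_add, map_pow]
      have h3 : 0 ≤ algebraMap ℝ k (Real.sqrt (b - a)) ^ 2 := sq_nonneg _
      change algebraMap ℝ k a ≤ algebraMap ℝ k b
      rw [h2]
      linarith }

theorem realHom_apply (x : ℝ) : realHom k x = algebraMap ℝ k x := rfl

open ArchimedeanClass in
theorem fin_aeval {σ : Type} (t : σ → k) (ht : ∀ i, 0 ≤ ArchimedeanClass.mk (t i))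
    (g : MvPolynomial σ ℝ) :
    0 ≤ ArchimedeanClass.mk (MvPolynomial.aeval t g) ∧
      ArchimedeanClass.stdPart (MvPolynomial.aeval t g) =
        MvPolynomial.eval (fun i => ArchimedeanClass.stdPart (t i)) g := by
  induction g using MvPolynomial.induction_on with
  | C a =>
    rw [MvPolynomial.aeval_C, MvPolynomial.eval_C, ← realHom_apply]
    exact ⟨mk_map_nonneg_of_archimedean _ _, stdPart_map_real _ _⟩
  | add p q hp hq =>
    rw [map_add, map_add, stdPart_add hp.1 hq.1, hp.2, hq.2]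
    exact ⟨(le_min hp.1 hq.1).trans (min_le_mk_add _ _), rfl⟩
  | mul_X p i hp =>
    rw [map_mul, map_mul, MvPolynomial.aeval_X, MvPolynomial.eval_X, stdPart_mul hp.1 (ht i),
      hp.2]
    exact ⟨by rw [mk_mul]; exact add_nonneg hp.1 (ht i), rfl⟩

open ArchimedeanClass in
theorem fin_of_abs_le_one {x : k} (hx : |x| ≤ 1) :
    0 ≤ ArchimedeanClass.mk x ∧ |ArchimedeanClass.stdPart x| ≤ 1 := by
  obtain ⟨h1, h2⟩ := abs_le.mp hx
  have h3 : realHom k 1 = 1 := map_one _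
  have h4 : realHom k (-1) = -1 := by rw [realHom_apply, map_neg, map_one]
  have h5 : 0 ≤ ArchimedeanClass.mk x :=
    mk_nonneg_of_le_of_le_of_archimedean (realHom k) (r := -1) (s := 1)
      (by rw [h4]; exact h1) (by rw [h3]; exact h2)
  refine ⟨h5, abs_le.mpr ⟨?_, ?_⟩⟩
  · exact le_stdPart_of_le (realHom k) h5 (by rw [h4]; exact h1)
  · exact stdPart_le_of_le (realHom k) h5 (by rw [h3]; exact h2)

end order

end Pool.Agent.PDF
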