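import Pool.Agent.PDF.SG3

/-!
# Positive definite forms: the roots at a place (row SG, part 4)
-/

set_option autoImplicit false

namespace Pool.Agent.PDF

open Polynomial

section setup

variable {k Ω : Type} [Field k] [Algebra ℝ k] [LinearOrder k] [IsStrictOrderedRing k]
  [Field Ω] [IsAlgClosed Ω] [Algebra k Ω]

omit [IsAlgClosed Ω] in
theorem lift_multiset {V : Subring Ω} (W : Multiset Ω) (hW : ∀ x ∈ W, x ∈ V) :
    ∃ W' : Multiset V, W'.map (fun x : V => (x : Ω)) = W := by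
  refine ⟨W.attach.map fun x => ⟨x.1, hW x.1 x.2⟩, ?_⟩
  rw [Multiset.map_map]
  exact W.attach_map_val

theorem place_setup {n m : ℕ} {f : MvPolynomial (Fin (n + 2)) ℝ} (hf : PD n m f)
    (v : Fin (n + 1) → k) (hv : v 0 = 1) (R : Multiset Ω)
    (hR : R = ((FG n f v).map (algebraMap k Ω)).roots) (V : Subring Ω) (Φ : V →+* ℂ)
    (hV1 : ∀ x : k, 0 ≤ ArchimedeanClass.mk x →
        ∃ h : algebraMap k Ω x ∈ V, Φ ⟨_, h⟩ = (ArchimedeanClass.stdPart x : ℂ))
    (hV3 : ∀ (x : Ω) (p : k[X]), p.Monic → (∀ i, 0 ≤ ArchimedeanClass.mk (p.coeff i)) →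
        aeval x p = 0 → x ∈ V)
    (δ R₀ : ℝ) (hδ : 0 < δ)
    (hRE : ∀ (ω : Fin (n + 1) → ℝ) (u : ℂ), (∀ i, |ω i| ≤ 1) → (∃ i, |ω i| = 1) →
      MvPolynomial.aeval (Fin.cons u (fun i => (ω i : ℂ)) : Fin (n + 2) → ℂ) f = 0 →
      δ ≤ |u.im| ∧ ‖u‖ ≤ R₀) :
    ∃ (M : k) (ω : Fin (n + 1) → ℝ) (θ : Ω → ℂ), 1 ≤ M ∧ (∀ i, |ω i| ≤ 1) ∧ (∃ i, |ω i| = 1) ∧
      HV V Φ (algebraMap k Ω (M⁻¹ ^ 2 * ∑ i, v i ^ 2)) ((∑ i, ω i ^ 2 : ℝ) : ℂ) ∧
      (∀ z ∈ R, HV V Φ (algebraMap k Ω M⁻¹ * z) (θ z)) ∧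
      (∀ z ∈ R, δ ≤ |(θ z).im| ∧ ‖θ z‖ ≤ R₀) ∧
      R.countP (fun z => 0 < (θ z).im) = m ∧ R.card = 2 * m := by
  classical
  obtain ⟨i₀, -, hi₀⟩ := Finset.exists_max_image Finset.univ (fun i => |v i|)
    ⟨0, Finset.mem_univ _⟩
  have hi₀' : ∀ i, |v i| ≤ |v i₀| := fun i => hi₀ i (Finset.mem_univ i)
  set M : k := |v i₀| with hMdef
  have hM1 : 1 ≤ M := by
    have := hi₀' 0
    rwa [hv, abs_one] at this
  have hM0 : 0 < M := lt_of_lt_of_le one_pos hM1
  have hMinv : 0 < M⁻¹ := inv_pos.mpr hM0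
  set t : Fin (n + 1) → k := fun i => M⁻¹ * v i with ht
  have ht1 : ∀ i, |t i| ≤ 1 := by
    intro i
    rw [ht]
    simp only
    rw [abs_mul, abs_of_pos hMinv, inv_mul_le_iff₀ hM0, mul_one]
    exact hi₀' i
  have hti₀ : |t i₀| = 1 := by
    rw [ht]
    simp only
    rw [abs_mul, abs_of_pos hMinv, ← hMdef, inv_mul_cancel₀ hM0.ne']
  set ω : Fin (n + 1) → ℝ := fun i => ArchimedeanClass.stdPart (t i) with hω
  have hω1 : ∀ i, |ω i| ≤ 1 := fun i => (fin_of_abs_le_one (ht1 i)).2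
  have hωi₀ : |ω i₀| = 1 := by
    rcases eq_or_eq_neg_of_abs_eq hti₀ with h | h
    · rw [hω]; simp only; rw [h]; simp
    · rw [hω]; simp only; rw [h]; simp
  have htf : ∀ i, 0 ≤ ArchimedeanClass.mk (t i) := fun i => (fin_of_abs_le_one (ht1 i)).1
  have hfin : ∀ g : MvPolynomial (Fin (n + 1)) ℝ,
      HV V Φ (algebraMap k Ω (MvPolynomial.aeval t g)) ((MvPolynomial.eval ω g : ℝ) : ℂ) := by
    intro g
    obtain ⟨h1, h2⟩ := fin_aeval t htf g
    obtain ⟨h3, h4⟩ := hV1 _ h1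
    exact ⟨h3, by rw [h4, h2]⟩
  -- the polynomial over `V`
  set gV : MvPolynomial (Fin (n + 1)) ℝ →+* V :=
    ((algebraMap k Ω).comp (MvPolynomial.aeval t : MvPolynomial (Fin (n + 1)) ℝ →ₐ[ℝ] k).toRingHom).codRestrict
      V (fun g => (hfin g).1) with hgV
  set P : V[X] := ((MvPolynomial.finSuccEquiv ℝ (n + 1)) f).map gV with hP
  have hP1 : P.map V.subtype = (FG n f t).map (algebraMap k Ω) := by
    rw [hP, FG, Polynomial.map_map, Polynomial.map_map]
    rfl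
  have hP2 : P.map Φ = (FG n f ω).map Complex.ofRealHom := by
    rw [hP, FG, Polynomial.map_map, Polynomial.map_map]
    congr 1
    apply RingHom.ext
    intro g
    obtain ⟨h3, h4⟩ := hfin g
    change Φ ⟨_, _⟩ = ((MvPolynomial.aeval ω g : ℝ) : ℂ)
    rw [MvPolynomial.aeval_eq_eval]
    exact h4
  -- the roots
  have hFt : FG n f t = (FG n f v).scaleRoots M⁻¹ := FG_smul hf v M⁻¹
  have hmon := (FG_monic hf t).1
  have hW : ((FG n f t).map (algebraMap k Ω)).roots = R.map (fun z => algebraMap k Ω M⁻¹ * z) := by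
    rw [hFt, Polynomial.map_scaleRoots _ _ _
      (by rw [(FG_monic hf v).1.leadingCoeff, map_one]; exact one_ne_zero),
      Polynomial.roots_scaleRoots _ (by
        rw [isUnit_iff_ne_zero]
        exact (_root_.map_ne_zero _).mpr hMinv.ne'), hR]
  have hmem : ∀ x ∈ ((FG n f t).map (algebraMap k Ω)).roots, x ∈ V := by
    intro x hx
    refine hV3 x (FG n f t) hmon (fun i => ?_) ?_
    · rw [FG, Polynomial.coeff_map]
      exact (fin_aeval t htf _).1
    · have := (Polynomial.mem_roots'.mp hx).2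
      rwa [Polynomial.IsRoot, Polynomial.eval_map_algebraMap] at this
  obtain ⟨W', hW'⟩ := lift_multiset _ hmem
  have hprod : (FG n f t).map (algebraMap k Ω) =
      (((FG n f t).map (algebraMap k Ω)).roots.map (fun a => X - C a)).prod :=
    (IsAlgClosed.splits _).eq_prod_roots_of_monic (hmon.map _)
  have hP3 : P = (W'.map (fun a => X - C a)).prod := by
    apply Polynomial.map_injective V.subtype Subtype.val_injective
    rw [hP1, hprod, ← hW', Polynomial.map_multiset_prod, Multiset.map_map, Multiset.map_map]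
    congr 1
    refine Multiset.map_congr rfl fun a _ => ?_
    simp
  have hroots : ((FG n f ω).map Complex.ofRealHom).roots = W'.map Φ := by
    rw [← hP2, hP3, Polynomial.map_multiset_prod, Multiset.map_map]
    have : ((Polynomial.map Φ) ∘ fun a : V => (X - C a : V[X])) =
        (fun c : ℂ => (X - C c : ℂ[X])) ∘ Φ := by
      funext a
      simp
    rw [this, ← Multiset.map_map, Polynomial.roots_multiset_prod_X_sub_C]
  set θ : Ω → ℂ := fun z => if h : algebraMap k Ω M⁻¹ * z ∈ V then Φ ⟨_, h⟩ else 0 with hθ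
  have hRV : ∀ z ∈ R, algebraMap k Ω M⁻¹ * z ∈ V := by
    intro z hz
    apply hmem
    rw [hW]
    exact Multiset.mem_map_of_mem _ hz
  have hroots2 : ((FG n f ω).map Complex.ofRealHom).roots = R.map θ := by
    rw [hroots]
    set Φ' : Ω → ℂ := fun x => if h : x ∈ V then Φ ⟨x, h⟩ else 0 with hΦ'
    have h1 : W'.map Φ = (W'.map (fun x : V => (x : Ω))).map Φ' := by
      rw [Multiset.map_map]
      refine Multiset.map_congr rfl fun a _ => ?_
      simp [hΦ']
    rw [h1, hW', hW, Multiset.map_map]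
    rfl
  have hθ1 : ∀ z ∈ R, HV V Φ (algebraMap k Ω M⁻¹ * z) (θ z) := by
    intro z hz
    refine ⟨hRV z hz, ?_⟩
    rw [hθ]
    simp only
    rw [dif_pos (hRV z hz)]
  have hθroot : ∀ u ∈ ((FG n f ω).map Complex.ofRealHom).roots, δ ≤ |u.im| ∧ ‖u‖ ≤ R₀ := by
    intro u hu
    refine hRE ω u hω1 ⟨i₀, hωi₀⟩ ?_
    have h1 := (Polynomial.mem_roots'.mp hu).2
    rw [Polynomial.IsRoot] at h1
    have h2 : (FG n f ω).map Complex.ofRealHom = FG n f (fun i => (ω i : ℂ)) :=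
      FG_map f ω Complex.ofRealAm
    rw [h2, FG_eval] at h1
    exact h1
  have hθ2 : ∀ z ∈ R, δ ≤ |(θ z).im| ∧ ‖θ z‖ ≤ R₀ := by
    intro z hz
    apply hθroot
    rw [hroots2]
    exact Multiset.mem_map_of_mem _ hz
  have hcount := conj_count (FG n f ω) m (FG_monic hf ω).2 (fun u hu h0 => by
    have := (hθroot u hu).1
    rw [h0, abs_zero] at this
    linarith)
  refine ⟨M, ω, θ, hM1, hω1, ⟨i₀, hωi₀⟩, ?_, hθ1, hθ2, ?_, ?_⟩
  · have h1 := hfin (∑ i, MvPolynomial.X i ^ 2)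
    have h2 : MvPolynomial.aeval t (∑ i, MvPolynomial.X i ^ 2 : MvPolynomial (Fin (n + 1)) ℝ) =
        M⁻¹ ^ 2 * ∑ i, v i ^ 2 := by
      rw [map_sum, Finset.mul_sum]
      refine Finset.sum_congr rfl fun i _ => ?_
      rw [map_pow, MvPolynomial.aeval_X, ht]
      simp only
      rw [mul_pow]
    have h3 : MvPolynomial.eval ω (∑ i, MvPolynomial.X i ^ 2 : MvPolynomial (Fin (n + 1)) ℝ) =
        ∑ i, ω i ^ 2 := by
      rw [map_sum]
      refine Finset.sum_congr rfl fun i _ => ?_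
      rw [map_pow, MvPolynomial.eval_X]
    rw [h2, h3] at h1
    exact h1
  · rw [hroots2, Multiset.countP_map, ← Multiset.countP_eq_card_filter] at hcount
    exact hcount
  · rw [hR, ← (IsAlgClosed.splits _).natDegree_eq_card_roots, Polynomial.natDegree_map,
      (FG_monic hf v).2]

end setup

end Pool.Agent.PDF
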